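import Pool.Agent.H508R2.PL.Stm

/-! ANN: volume of an annulus in dimension `n ≥ 2` (helper20). -/

open MeasureTheory Metric Set Filter Topology
open Pool.Agent.Helper934.PlankDefs

namespace Pool.Agent.H508R2.PL

theorem ann_pow (k : ℕ) (x y : ℝ) (hx : 0 ≤ x) (hxy : x ≤ y) :
    y ^ (k + 2) - x ^ (k + 2) ≤ ((k : ℝ) + 2) / 2 * y ^ k * (y ^ 2 - x ^ 2) := by
  induction k with
  | zero => simp
  | succ k ih =>
    have hy : 0 ≤ y := hx.trans hxy
    have h1 : x ^ (k + 2) ≤ x * y ^ (k + 1) := by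
      rw [pow_succ' x (k + 1)]
      exact mul_le_mul_of_nonneg_left (pow_le_pow_left₀ hx hxy _) hx
    have h2 : y * (y ^ (k + 2) - x ^ (k + 2)) ≤
        y * (((k : ℝ) + 2) / 2 * y ^ k * (y ^ 2 - x ^ 2)) := mul_le_mul_of_nonneg_left ih hy
    have h3 : x ^ (k + 2) * (y - x) ≤ x * y ^ (k + 1) * (y - x) :=
      mul_le_mul_of_nonneg_right h1 (by linarith)
    have h4 : x * y ^ (k + 1) * (y - x) ≤ 1 / 2 * (y + x) * y ^ (k + 1) * (y - x) := by
      apply mul_le_mul_of_nonneg_right _ (by linarith)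
      apply mul_le_mul_of_nonneg_right _ (by positivity)
      linarith
    have h5 : y ^ (k + 1 + 2) - x ^ (k + 1 + 2) =
        y * (y ^ (k + 2) - x ^ (k + 2)) + x ^ (k + 2) * (y - x) := by ring
    rw [h5]
    calc y * (y ^ (k + 2) - x ^ (k + 2)) + x ^ (k + 2) * (y - x)
        ≤ y * (((k : ℝ) + 2) / 2 * y ^ k * (y ^ 2 - x ^ 2)) +
          1 / 2 * (y + x) * y ^ (k + 1) * (y - x) := by linarith
      _ = (((k + 1 : ℕ) : ℝ) + 2) / 2 * y ^ (k + 1) * (y ^ 2 - x ^ 2) := by
        push_cast; ring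

theorem ann_kap (n : ℕ) : ENNReal.ofReal (kap n) = volume (closedBall (0 : E n) 1) := by
  unfold kap
  rw [ENNReal.ofReal_toReal]
  exact measure_closedBall_lt_top.ne

theorem ann_kap_nonneg (n : ℕ) : 0 ≤ kap n := ENNReal.toReal_nonneg

theorem ann_closedBall (n : ℕ) (r : ℝ) (hr : 0 ≤ r) :
    volume (closedBall (0 : E n) r) = ENNReal.ofReal (kap n * r ^ n) := by
  rw [Measure.addHaar_closedBall _ _ hr, finrank_euclideanSpace_fin,
    ← Measure.addHaar_unitClosedBall_eq_addHaar_unitBall, ← ann_kap, mul_comm,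
    ENNReal.ofReal_mul (ann_kap_nonneg n)]

theorem ann_ball (n : ℕ) (r : ℝ) (hr : 0 < r) :
    volume (ball (0 : E n) r) = ENNReal.ofReal (kap n * r ^ n) := by
  rw [Measure.addHaar_ball_of_pos _ _ hr, finrank_euclideanSpace_fin,
    ← Measure.addHaar_unitClosedBall_eq_addHaar_unitBall, ← ann_kap, mul_comm,
    ENNReal.ofReal_mul (ann_kap_nonneg n)]

theorem t_ANN : S_ANN := by
  intro n c C ρ hn hcC hCρ hρ
  obtain ⟨k, rfl⟩ := Nat.exists_eq_add_of_le' hn
  have hk := ann_kap_nonneg (k + 2)
  have hsub2 : k + 2 - 2 = k := by omega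
  rw [hsub2]
  by_cases hC : C < 0
  · have : {x : E (k + 2) | c ≤ ‖x‖ ^ 2 ∧ ‖x‖ ^ 2 ≤ C} = ∅ := by
      ext x
      simp only [mem_ofPred_eq, mem_empty_iff_false, iff_false, not_and, not_le]
      intro _
      nlinarith [sq_nonneg ‖x‖]
    rw [this]; simp
  push Not at hC
  have hsC : Real.sqrt C ≤ ρ := by
    rw [Real.sqrt_le_left hρ]
    exact hCρ
  have hsC0 : 0 ≤ Real.sqrt C := Real.sqrt_nonneg C
  have hsq : Real.sqrt C ^ 2 = C := Real.sq_sqrt hC
  have hpk : Real.sqrt C ^ k ≤ ρ ^ k := pow_le_pow_left₀ hsC0 hsC k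
  by_cases hc : c ≤ 0
  · calc volume {x : E (k + 2) | c ≤ ‖x‖ ^ 2 ∧ ‖x‖ ^ 2 ≤ C}
        ≤ volume (closedBall (0 : E (k + 2)) (Real.sqrt C)) := by
          apply measure_mono
          intro x hx
          simp only [mem_ofPred_eq] at hx
          simp only [mem_closedBall, dist_zero_right]
          exact Real.le_sqrt_of_sq_le hx.2
      _ = ENNReal.ofReal (kap (k + 2) * Real.sqrt C ^ (k + 2)) := ann_closedBall _ _ hsC0
      _ ≤ _ := by
          apply ENNReal.ofReal_le_ofReal
          apply mul_le_mul_of_nonneg_left _ hk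
          rw [pow_add, hsq]
          calc Real.sqrt C ^ k * C ≤ ρ ^ k * C := mul_le_mul_of_nonneg_right hpk hC
            _ = 1 * (ρ ^ k * C) := by ring
            _ ≤ (((k + 2 : ℕ) : ℝ) / 2) * (ρ ^ k * (C - c)) := by
              apply mul_le_mul
              · push_cast
                have : (0 : ℝ) ≤ k := Nat.cast_nonneg k
                linarith
              · apply mul_le_mul_of_nonneg_left (by linarith) (by positivity)
              · positivity
              · positivity
            _ = _ := by ring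
  · push Not at hc
    have hc0 : 0 < Real.sqrt c := Real.sqrt_pos.2 hc
    have hcs : Real.sqrt c ^ 2 = c := Real.sq_sqrt hc.le
    have hxy : Real.sqrt c ≤ Real.sqrt C := Real.sqrt_le_sqrt hcC
    have hsub : ball (0 : E (k + 2)) (Real.sqrt c) ⊆
        closedBall (0 : E (k + 2)) (Real.sqrt C) :=
      (ball_subset_closedBall).trans (closedBall_subset_closedBall hxy)
    calc volume {x : E (k + 2) | c ≤ ‖x‖ ^ 2 ∧ ‖x‖ ^ 2 ≤ C}
        ≤ volume (closedBall (0 : E (k + 2)) (Real.sqrt C) \
            ball (0 : E (k + 2)) (Real.sqrt c)) := by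
          apply measure_mono
          intro x hx
          simp only [mem_ofPred_eq] at hx
          simp only [Set.mem_sdiff, mem_closedBall, dist_zero_right, mem_ball, not_lt]
          exact ⟨Real.le_sqrt_of_sq_le hx.2, Real.sqrt_le_iff.mpr ⟨norm_nonneg x, hx.1⟩⟩
      _ = volume (closedBall (0 : E (k + 2)) (Real.sqrt C)) -
            volume (ball (0 : E (k + 2)) (Real.sqrt c)) := by
          rw [measure_sdiff hsub measurableSet_ball.nullMeasurableSet]
          exact measure_ball_lt_top.ne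
      _ = ENNReal.ofReal (kap (k + 2) * (Real.sqrt C ^ (k + 2) - Real.sqrt c ^ (k + 2))) := by
          rw [ann_closedBall _ _ hsC0, ann_ball _ _ hc0, ← ENNReal.ofReal_sub _ (by positivity)]
          congr 1
          ring
      _ ≤ _ := by
          apply ENNReal.ofReal_le_ofReal
          apply mul_le_mul_of_nonneg_left _ hk
          have h1 := ann_pow k _ _ hc0.le hxy
          rw [hsq, hcs] at h1
          refine h1.trans ?_
          push_cast
          apply mul_le_mul_of_nonneg_right _ (by linarith)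
          apply mul_le_mul_of_nonneg_left hpk (by positivity)

end Pool.Agent.H508R2.PL
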