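import Mathlib
import Pool.Agent.Helper934.PlankDefs
import Pool.Agent.Helper934.PlankMain

/-!
Multiple plank coverings in all dimensions (MP_4043ba_gt): statements of the tasks `h508p_tasks`.
-/

open MeasureTheory Metric Set Filter Topology
open Pool.Agent.Helper934.PlankDefs

namespace Pool.Agent.H508R2.PL

/-- `n`-dimensional Euclidean space. -/
abbrev E (n : ℕ) := EuclideanSpace ℝ (Fin n)

/-- volume of the unit ball in dimension `n`, as a real number -/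
noncomputable def kap (n : ℕ) : ℝ := (volume (closedBall (0 : E n) 1)).toReal

/-- truncated reciprocal: `min(1, 2p/s)` -/
noncomputable def g (p s : ℝ) : ℝ := if s ≤ 2 * p then 1 else 2 * p / s

/-- the sharp constant of the ball -/
noncomputable def vd (d : ℕ) : ℝ := d * kap d / ((d - 1) * kap (d - 1))

/-! ### Part A: all convex bodies -/

/-- DIFF: the difference body contains the ball of radius `minWidth K`. -/
def S_DIFF : Prop := ∀ (d : ℕ) (K : Set (E d)), 1 ≤ d → IsConvexBody K →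
  ∀ z : E d, ‖z‖ ≤ minWidth K → ∃ x ∈ K, ∃ y ∈ K, x - y = z

/-- STRIP: measure of a strip in the unit square. -/
def S_STRIP : Prop := ∀ (c a₁ a₂ lo p : ℝ), 0 ≤ p →
  volume {q : ℝ × ℝ | q.1 ∈ Icc (0 : ℝ) 1 ∧ q.2 ∈ Icc (0 : ℝ) 1 ∧
      lo ≤ c + (q.1 * a₁ + q.2 * a₂) / 2 ∧ c + (q.1 * a₁ + q.2 * a₂) / 2 ≤ lo + p} ≤
    ENNReal.ofReal (g p (max |a₁| |a₂|))

/-- DET: the deterministic inequality behind the lower bound. -/
def S_DET : Prop := ∀ (d : ℕ) (K : Set (E d)) (k m : ℕ) (θ : Fin m → E d) (a b : Fin m → ℝ),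
  Convex ℝ K → IsFoldCover K k θ a b → ∀ x₁ ∈ K, ∀ y₁ ∈ K, ∀ x₂ ∈ K, ∀ y₂ ∈ K,
    (k : ℝ) ≤ ∑ i, g (b i - a i) (max |inner ℝ (x₁ - y₁) (θ i)| |inner ℝ (x₂ - y₂) (θ i)|)

/-- LAYER: integration of `g p (max f f)` against a product measure. -/
def S_LAYER : Prop := ∀ (Ω : Type) [MeasurableSpace Ω] (μ : Measure Ω) [IsFiniteMeasure μ]
  (f : Ω → ℝ), Measurable f → (∀ x, 0 ≤ f x) → ∀ (l p : ℝ), 0 < l → 0 ≤ p →
  (∀ s : ℝ, 0 ≤ s → μ {x | f x ≤ s} ≤ ENNReal.ofReal (l * s) * μ univ) →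
  ∫⁻ x, ∫⁻ y, ENNReal.ofReal (g p (max (f x) (f y))) ∂μ ∂μ ≤
    ENNReal.ofReal (4 * l * p) * μ univ ^ 2

/-- SLAB: volume of a symmetric slab in a ball. -/
def S_SLAB : Prop := ∀ (n : ℕ) (θ : E (n + 1)) (R s : ℝ), ‖θ‖ = 1 → 0 ≤ R → 0 ≤ s →
  volume (closedBall (0 : E (n + 1)) R ∩ {z | |inner ℝ z θ| ≤ s}) ≤
    ENNReal.ofReal (2 * s) * volume (closedBall (0 : E n) R)

/-- RATIO: ratio of the volumes of balls in consecutive dimensions. -/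
def S_RATIO : Prop := ∀ (n : ℕ) (R : ℝ), 1 ≤ n → 0 < R →
  volume (closedBall (0 : E n) R) ≤
    ENNReal.ofReal (Real.sqrt ((n + 2) / (2 * Real.pi)) / R) * volume (closedBall (0 : E (n + 1)) R)

/-- LOWER: the lower bound for all convex bodies. -/
def S_LOWER : Prop := ∀ (d : ℕ) (K : Set (E d)) (k : ℕ), 2 ≤ d → IsConvexBody K →
  (k : ℝ) / (4 * Real.sqrt d) ≤ coverConst K k

/-- SUB: subadditivity of `c_K`. -/
def S_SUB : Prop := ∀ (d : ℕ) (K : Set (E d)) (k l : ℕ), 1 ≤ d → IsConvexBody K →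
  coverConst K (k + l) ≤ coverConst K k + coverConst K l

/-- LIM: `c_K(k)/k` converges to its infimum. -/
def S_LIM : Prop := ∀ (d : ℕ) (K : Set (E d)), 1 ≤ d → IsConvexBody K →
  ∃ L : ℝ, Tendsto (fun k : ℕ => coverConst K k / k) atTop (𝓝 L) ∧
    ∀ k : ℕ, L * k ≤ coverConst K k

/-- DIML: `c_d(k)/k` converges, and its limit is the infimum of the limits of `c_K(k)/k`. -/
def S_DIML : Prop := ∀ d : ℕ, 1 ≤ d → ∃ L : ℝ,
  Tendsto (fun k : ℕ => coverConstDim d k / k) atTop (𝓝 L) ∧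
  (∀ k : ℕ, L * k ≤ coverConstDim d k) ∧
  ∀ (K : Set (E d)) (L' : ℝ), IsConvexBody K →
    Tendsto (fun k : ℕ => coverConst K k / k) atTop (𝓝 L') → L ≤ L'

/-- FRAME: the normals of the regular simplex. -/
def S_FRAME : Prop := ∀ d : ℕ, 1 ≤ d → ∃ n : Fin (d + 1) → E d, ∑ i, n i = 0 ∧
  (∀ i j, inner ℝ (n i) (n j) = (if i = j then (1 : ℝ) else 0) - 1 / ((d : ℝ) + 1)) ∧
  ∀ u : E d, ∑ i, (inner ℝ u (n i) : ℝ) ^ 2 = ‖u‖ ^ 2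

/-- SIMPLEX: the regular simplex is a convex body with `2r/w ≤ 1/√d`. -/
def S_SIMPLEX : Prop := ∀ d : ℕ, 1 ≤ d → ∃ T : Set (E d), IsConvexBody T ∧
  inradius T ≤ 1 / Real.sqrt (d * (d + 1)) ∧ 2 / Real.sqrt (d + 1) ≤ minWidth T

/-- BOX: a corner simplex times a cube. -/
def boxBody (n d : ℕ) : Set (E d) :=
  {x | (∀ i : Fin d, (i : ℕ) < n → 0 ≤ x i) ∧ ∑ i : Fin d, (if (i : ℕ) < n then x i else 0) ≤ 1 ∧
    ∀ i : Fin d, n ≤ (i : ℕ) → |x i| ≤ 1}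

def S_BOX : Prop := ∀ n d : ℕ, 1 ≤ n → n ≤ d →
  IsConvexBody (boxBody n d) ∧ 1 / Real.sqrt n ≤ minWidth (boxBody n d)

/-- BCOV: covering the corner simplex by facet planks. -/
def S_BCOV : Prop := ∀ n d s q : ℕ, 1 ≤ n → n ≤ d → 1 ≤ s → s ≤ n →
  ∃ (θ : Fin (q * n) → E d) (a b : Fin (q * n) → ℝ),
    IsFoldCover (boxBody n d) (q * (n + 1 - s)) θ a b ∧ ∑ i, (b i - a i) ≤ (q : ℝ) * n / s

/-- UNIF: uniform upper bound for `c_d(k)`. -/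
def S_UNIF : Prop := ∀ d k : ℕ, 2 ≤ d → 1 ≤ k →
  coverConstDim d k ≤ 8 * max (Real.sqrt k) (k / Real.sqrt d)

/-! ### Part B: balls and centrally symmetric bodies -/

/-- ANN: volume of an annulus. -/
def S_ANN : Prop := ∀ (n : ℕ) (c C ρ : ℝ), 2 ≤ n → c ≤ C → C ≤ ρ ^ 2 → 0 ≤ ρ →
  volume {y : E n | c ≤ ‖y‖ ^ 2 ∧ ‖y‖ ^ 2 ≤ C} ≤
    ENNReal.ofReal (kap n * (n / 2 * ρ ^ (n - 2) * (C - c)))

/-- SHELL: volume of the part of a plank in a spherical shell, `d = n + 1 ≥ 3`. -/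
def S_SHELL : Prop := ∀ (n : ℕ) (θ : E (n + 1)) (a b r ρ : ℝ), 2 ≤ n → ‖θ‖ = 1 → a ≤ b →
  0 ≤ r → r ≤ ρ →
  volume ({x : E (n + 1) | a ≤ inner ℝ x θ ∧ inner ℝ x θ ≤ b} ∩
      {x | r ^ 2 ≤ ‖x‖ ^ 2 ∧ ‖x‖ ^ 2 ≤ ρ ^ 2}) ≤
    ENNReal.ofReal (kap n * (n / 2 * ρ ^ (n - 2) * (ρ ^ 2 - r ^ 2))) * ENNReal.ofReal (b - a)

/-- BALLZ: total width of a `k`-fold plank covering of a ball, `d ≥ 3`. -/
def S_BALLZ : Prop := ∀ (d m : ℕ) (c : E d) (ρ : ℝ) (k : ℕ) (θ : Fin m → E d) (a b : Fin m → ℝ),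
  3 ≤ d → 0 < ρ → IsFoldCover (closedBall c ρ) k θ a b →
  vd d * ρ * k ≤ ∑ i, (b i - a i)

/-- INR: the bound in terms of the inradius. -/
def S_INR : Prop := ∀ (d : ℕ) (K : Set (E d)) (k : ℕ), 3 ≤ d → IsConvexBody K →
  vd d * inradius K / minWidth K * k ≤ coverConst K k

/-- CONE: volume of the double cone region `|<z,x>| ≤ τ|z|` in the unit ball. -/
def S_CONE : Prop := ∀ (d : ℕ) (x : E d) (τ : ℝ), 2 ≤ d → ‖x‖ ≤ 1 → 0 < τ → τ < 1 →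
  ENNReal.ofReal (2 * τ * (Real.sqrt (1 - τ ^ 2)) ^ d * ((d - 1) * kap (d - 1) / d)) ≤
    volume {z : E d | ‖z‖ ≤ 1 ∧ |inner ℝ z x| ≤ τ * ‖z‖}

/-- NET: discretisation of the uniform distribution of directions. -/
def S_NET : Prop := ∀ (d : ℕ) (η : ℝ), 1 ≤ d → 0 < η →
  ∃ (N : ℕ) (θ : Fin N → E d) (c : Fin N → ℝ), (∀ j, ‖θ j‖ = 1) ∧ (∀ j, 0 ≤ c j) ∧
    ∑ j, c j ≤ kap d ∧ ∀ (x : E d) (τ : ℝ), ‖x‖ ≤ 1 → 0 ≤ τ →
      (volume {z : E d | ‖z‖ ≤ 1 ∧ |inner ℝ z x| ≤ τ * ‖z‖}).toReal ≤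
        ∑ j, (if |inner ℝ (θ j) x| ≤ τ + η then c j else 0)

/-- RAT: from weights to coverings. -/
def S_RAT : Prop := ∀ (d N : ℕ) (θ : Fin N → E d) (c : Fin N → ℝ) (G t : ℝ),
  (∀ j, ‖θ j‖ = 1) → (∀ j, 0 ≤ c j) → 0 < G → 0 < t →
  (∀ x : E d, ‖x‖ ≤ 1 → G ≤ ∑ j, (if |inner ℝ (θ j) x| ≤ t then c j else 0)) →
  ∀ ε : ℝ, 0 < ε → ∃ (k m : ℕ) (θ' : Fin m → E d) (a b : Fin m → ℝ), 1 ≤ k ∧
    IsFoldCover (closedBall (0 : E d) 1) k θ' a b ∧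
    ∑ i, (b i - a i) ≤ (2 * t * (∑ j, c j) / G + ε) * k

/-- BUP: nearly optimal coverings of the unit ball. -/
def S_BUP : Prop := ∀ (d : ℕ) (ε : ℝ), 3 ≤ d → 0 < ε →
  ∃ (k m : ℕ) (θ : Fin m → E d) (a b : Fin m → ℝ), 1 ≤ k ∧
    IsFoldCover (closedBall (0 : E d) 1) k θ a b ∧ ∑ i, (b i - a i) ≤ (vd d + ε) * k

/-- SCALE: all balls have the same covering constants; the unit ball has minimal width 2. -/
def S_SCALE : Prop := ∀ (d : ℕ) (c : E d) (ρ : ℝ) (k : ℕ), 1 ≤ d → 0 < ρ →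
  IsConvexBody (closedBall c ρ) ∧ minWidth (closedBall c ρ) = 2 * ρ ∧
  inradius (closedBall c ρ) = ρ ∧
  coverConst (closedBall c ρ) k = coverConst (closedBall (0 : E d) 1) k

/-- VGAM: the constant in terms of the Gamma function. -/
def S_VGAM : Prop := ∀ d : ℕ, 2 ≤ d →
  vd d = Real.sqrt Real.pi * Real.Gamma ((d - 1) / 2) / Real.Gamma (d / 2)

end Pool.Agent.H508R2.PL
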