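import Mathlib
import Pool.Agent.H508R2.PL.Stm

/-! Assembly of part A. -/

open MeasureTheory Metric Set Filter Topology
open Pool.Agent.Helper934.PlankDefs Pool.Agent.Helper934.PlankMain

namespace Pool.Agent.H508R2.PL

/-- The statement of part A in dimension `d`. -/
def PartA (d : ℕ) : Prop :=
  (∀ K : Set (EuclideanSpace ℝ (Fin d)), IsConvexBody K →
    (∀ k : ℕ, (k : ℝ) / (4 * Real.sqrt d) ≤ coverConst K k) ∧
    ∃ L : ℝ, 1 / (4 * Real.sqrt d) ≤ L ∧ L ≤ 2 * inradius K / minWidth K ∧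
      Tendsto (fun k : ℕ => coverConst K k / k) atTop (𝓝 L)) ∧
  (∃ L : ℝ, 1 / (4 * Real.sqrt d) ≤ L ∧ L ≤ 1 / Real.sqrt d ∧
    Tendsto (fun k : ℕ => coverConstDim d k / k) atTop (𝓝 L)) ∧
  ∀ k : ℕ, 1 ≤ k → (k : ℝ) / (4 * Real.sqrt d) ≤ coverConstDim d k ∧
    coverConstDim d k ≤ 8 * max (Real.sqrt k) (k / Real.sqrt d)

lemma lim_ge_of {f : ℕ → ℝ} {L c : ℝ} (h : Tendsto (fun k : ℕ => f k / k) atTop (𝓝 L))
    (hc : ∀ k : ℕ, c * k ≤ f k) : c ≤ L := by
  apply ge_of_tendsto h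
  filter_upwards [eventually_ge_atTop 1] with k hk
  have : (0 : ℝ) < k := by exact_mod_cast hk
  rw [le_div_iff₀ this]
  exact hc k

lemma lim_le_of {f : ℕ → ℝ} {L c C : ℝ} (h : Tendsto (fun k : ℕ => f k / k) atTop (𝓝 L))
    (hc : ∀ k : ℕ, 1 ≤ k → f k ≤ c * k + C) : L ≤ c := by
  have hu : Tendsto (fun k : ℕ => c + C / (k : ℝ)) atTop (𝓝 (c + 0)) :=
    tendsto_const_nhds.add (tendsto_const_div_atTop_nhds_zero_nat C)
  rw [add_zero] at hu
  apply le_of_tendsto_of_tendsto h hu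
  filter_upwards [eventually_ge_atTop 1] with k hk
  have : (0 : ℝ) < k := by exact_mod_cast hk
  rw [div_le_iff₀ this]
  calc f k ≤ c * k + C := hc k hk
    _ = (c + C / k) * k := by field_simp

lemma ball_body {d : ℕ} : IsConvexBody (closedBall (0 : EuclideanSpace ℝ (Fin d)) 1) :=
  ⟨isCompact_closedBall _ _, convex_closedBall _ _, 0, by
    have h : ball (0 : EuclideanSpace ℝ (Fin d)) 1 ⊆ interior (closedBall 0 1) :=
      interior_maximal ball_subset_closedBall isOpen_ball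
    exact h (mem_ball_self one_pos)⟩

lemma dim_ge {d k : ℕ} {c : ℝ} (h : ∀ K : Set (EuclideanSpace ℝ (Fin d)), IsConvexBody K →
    c ≤ coverConst K k) : c ≤ coverConstDim d k := by
  refine le_csInf (show Set.Nonempty {c : ℝ | ∃ K : Set (EuclideanSpace ℝ (Fin d)),
    IsConvexBody K ∧ c = coverConst K k} from ⟨_, _, ball_body, rfl⟩) ?_
  rintro _ ⟨K, hK, rfl⟩
  exact h K hK

theorem partA (hLOWER : S_LOWER) (hLIM : S_LIM) (hDIML : S_DIML) (hSIMPLEX : S_SIMPLEX)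
    (hUNIF : S_UNIF) (d : ℕ) (hd : 2 ≤ d) : PartA d := by
  have hd1 : 1 ≤ d := by omega
  have hdpos : (0 : ℝ) < d := by exact_mod_cast hd1
  have hsd : 0 < Real.sqrt d := Real.sqrt_pos.mpr hdpos
  have hlow : ∀ K : Set (EuclideanSpace ℝ (Fin d)), IsConvexBody K → ∀ k : ℕ,
      1 / (4 * Real.sqrt d) * k ≤ coverConst K k := by
    intro K hK k
    have := hLOWER d K k hd hK
    calc 1 / (4 * Real.sqrt d) * k = (k : ℝ) / (4 * Real.sqrt d) := by ring
      _ ≤ _ := this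
  refine ⟨?_, ?_, ?_⟩
  · intro K hK
    refine ⟨fun k => hLOWER d K k hd hK, ?_⟩
    obtain ⟨L, hL, _⟩ := hLIM d K hd1 hK
    obtain ⟨C, hC⟩ := coverConst_upper hd1 hK
    exact ⟨L, lim_ge_of hL (hlow K hK), lim_le_of hL hC, hL⟩
  · obtain ⟨L, hL, _, hL3⟩ := hDIML d hd1
    refine ⟨L, ?_, ?_, hL⟩
    · apply lim_ge_of hL
      intro k
      exact dim_ge (fun K hK => hlow K hK k)
    · obtain ⟨T, hT, hr, hw⟩ := hSIMPLEX d hd1
      obtain ⟨L', hL', _⟩ := hLIM d T hd1 hT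
      obtain ⟨C, hC⟩ := coverConst_upper hd1 hT
      have h1 := hL3 T L' hT hL'
      have h2 : L' ≤ 2 * inradius T / minWidth T := lim_le_of hL' hC
      refine h1.trans (h2.trans ?_)
      have hwpos := minWidth_pos hd1 hT
      have hd1pos : (0 : ℝ) < (d : ℝ) + 1 := by positivity
      have hs1 : 0 < Real.sqrt ((d : ℝ) + 1) := Real.sqrt_pos.mpr hd1pos
      rw [div_le_div_iff₀ hwpos hsd]
      have e : Real.sqrt ((d : ℝ) * (d + 1)) = Real.sqrt d * Real.sqrt (d + 1) :=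
        Real.sqrt_mul hdpos.le _
      rw [e] at hr
      calc 2 * inradius T * Real.sqrt d
          ≤ 2 * (1 / (Real.sqrt d * Real.sqrt (d + 1))) * Real.sqrt d := by
            apply mul_le_mul_of_nonneg_right _ hsd.le
            linarith
        _ = 2 / Real.sqrt (d + 1) := by field_simp
        _ ≤ 1 * minWidth T := by linarith
  · intro k hk
    refine ⟨dim_ge (fun K hK => hLOWER d K k hd hK), hUNIF d k hd hk⟩

end Pool.Agent.H508R2.PL
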