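import Mathlib
import Pool.Agent.Helper934.PlankDefs
import Pool.Agent.H508R2.PL.Stm
import Pool.Agent.H780R2.GP.Defs

/-!
Multiple plank coverings: statements of part C (the square root bound for balls, from the
Gaussian rotation trick of `Pool.Agent.H780R2.GP`).
-/

open MeasureTheory Metric Set Filter Topology
open Pool.Agent.Helper934.PlankDefs
open H780GP (V Lf GG mu phi)

namespace Pool.Agent.H508R2.PL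

/-- M1 for all `δ > 0`. -/
def S_MM : Prop := ∀ (n d : ℕ) (l : Fin d → ((Fin n → ℝ) →ₗ[ℝ] ℝ)) (ε δ : ℝ), 0 < ε → 0 < δ →
  ∀ p : Fin d → ℕ, (∀ k, 1 ≤ p k) →
  ∏ k, ((1 + δ) ^ (p k))⁻¹ ≤ ∫ w, (∏ k, phi δ (p k) (GG l ε k k) (Lf l ε k w)) ∂(mu n d)

/-- PHIL: concentration of the Gamma distribution. -/
def S_PHIL : Prop := ∀ (a G x : ℝ), 0 < a → 0 < G → x ≠ 0 →
  Tendsto (fun M : ℕ => (M : ℝ) ^ ⌈(M : ℝ) * a⌉₊ * phi M ⌈(M : ℝ) * a⌉₊ G x) atTop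
    (𝓝 (Real.exp (-(1 / 2) * (G * (a / x) ^ 2))))

/-- JJ: the exponential inequality. -/
def S_JJ : Prop := ∀ (n d : ℕ) (l : Fin d → ((Fin n → ℝ) →ₗ[ℝ] ℝ)) (ε : ℝ), 0 < ε →
  ∀ a : Fin d → ℝ, (∀ k, 0 < a k) →
  Real.exp (-∑ k, a k) ≤
    ∫ w, Real.exp (-(1 / 2) * ∑ k, GG l ε k k * (a k / Lf l ε k w) ^ 2) ∂(mu n d)

/-- GEXP: Gaussian exponential moments. -/
def S_GEXP : Prop := ∀ (n d : ℕ) (η : ℝ), 0 ≤ η → η < 1 →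
  Integrable (fun w : V n d => Real.exp (η / 2 * (∑ i, w.1 i ^ 2 + ∑ k, w.2 k ^ 2))) (mu n d)

/-- GGV: the variance of a perturbed form. -/
def S_GGV : Prop := ∀ (n d : ℕ) (l : Fin d → ((Fin n → ℝ) →ₗ[ℝ] ℝ)) (ε : ℝ) (k : Fin d),
  GG l ε k k = ∑ i, (l k (Pi.single i 1)) ^ 2 + ε ^ 2

/-- SP1: the existence statement for the perturbed forms. -/
def S_SP1 : Prop := ∀ (n d : ℕ) (l : Fin d → ((Fin n → ℝ) →ₗ[ℝ] ℝ)) (ε : ℝ), 0 < ε →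
  ∀ b : Fin d → ℝ, (∀ k, 0 < b k) → ∀ e : ℝ, 0 < e → ∃ w : V n d, (∀ k, Lf l ε k w ≠ 0) ∧
    ∑ i, w.1 i ^ 2 + ∑ k, w.2 k ^ 2 + ∑ k, GG l ε k k * (b k / Lf l ε k w) ^ 2 ≤
      2 * ∑ k, b k + e

/-- SP: strong weighted polarization for arbitrary linear forms. -/
def S_SP : Prop := ∀ (n d : ℕ) (l : Fin d → ((Fin n → ℝ) →ₗ[ℝ] ℝ)), (∀ k, l k ≠ 0) →
  ∀ b : Fin d → ℝ, (∀ k, 0 < b k) → ∀ e : ℝ, 0 < e → ∃ y : Fin n → ℝ, (∀ k, l k y ≠ 0) ∧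
    ∑ i, y i ^ 2 + ∑ k, (∑ i, (l k (Pi.single i 1)) ^ 2) * (b k / l k y) ^ 2 ≤
      2 * ∑ k, b k + e

/-- SQRT: every `k`-fold plank covering of a ball of radius `ρ` has total width at least
`2 (√2 - 1) ρ √k`. -/
def S_SQRT : Prop := ∀ (d m : ℕ) (c : E d) (ρ : ℝ) (k : ℕ) (θ : Fin m → E d) (a b : Fin m → ℝ),
  1 ≤ d → 0 < ρ → IsFoldCover (closedBall c ρ) k θ a b →
  2 * (Real.sqrt 2 - 1) * ρ * Real.sqrt k ≤ ∑ i, (b i - a i)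

/-- BALLUP: upper bound for the unit ball. -/
def S_BALLUP : Prop := ∀ d k : ℕ, 1 ≤ d → 1 ≤ k →
  coverConst (closedBall (0 : E d) 1) k ≤ 6 * max (Real.sqrt k) (k / Real.sqrt d)

end Pool.Agent.H508R2.PL
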