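import Mathlib
import Pool.Agent.H508R2.PL.Stm
import Pool.Agent.H508R2.PL.Stm2
import Pool.Agent.H508R2.PL.AsmA

/-! Assembly of parts B and C. -/

open MeasureTheory Metric Set Filter Topology
open Pool.Agent.Helper934.PlankDefs Pool.Agent.Helper934.PlankMain

namespace Pool.Agent.H508R2.PL

/-- `K` is centrally symmetric about some point. -/
def IsCentrallySymmetric {d : ℕ} (K : Set (EuclideanSpace ℝ (Fin d))) : Prop :=
  ∃ p : EuclideanSpace ℝ (Fin d), ∀ x ∈ K, (2 : ℝ) • p - x ∈ K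

/-- The infimum of `c_K(k)` over all centrally symmetric convex bodies in dimension `d`. -/
noncomputable def coverConstSym (d k : ℕ) : ℝ :=
  sInf {c : ℝ | ∃ K : Set (EuclideanSpace ℝ (Fin d)), IsConvexBody K ∧ IsCentrallySymmetric K ∧
    c = coverConst K k}

/-- The sharp asymptotic constant. -/
noncomputable def symConst (d : ℕ) : ℝ :=
  Real.sqrt Real.pi * Real.Gamma (((d : ℝ) - 1) / 2) / (2 * Real.Gamma ((d : ℝ) / 2))

/-- The statement of part B in dimension `d`. -/
def PartB (d : ℕ) : Prop :=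
  (∀ K : Set (EuclideanSpace ℝ (Fin d)), IsConvexBody K → IsCentrallySymmetric K → ∀ k : ℕ,
    symConst d * k ≤ coverConst K k) ∧
  (∀ (c : EuclideanSpace ℝ (Fin d)) (ρ : ℝ), 0 < ρ →
    Tendsto (fun k : ℕ => coverConst (closedBall c ρ) k / k) atTop (𝓝 (symConst d))) ∧
  Tendsto (fun k : ℕ => coverConstSym d k / k) atTop (𝓝 (symConst d))

/-- The statement of part C in dimension `d`. -/
def PartC (d : ℕ) : Prop :=
  (∀ K : Set (EuclideanSpace ℝ (Fin d)), IsConvexBody K → IsCentrallySymmetric K → ∀ k : ℕ,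
    (Real.sqrt 2 - 1) * max (Real.sqrt k) (k / Real.sqrt d) ≤ coverConst K k) ∧
  (∀ (c : EuclideanSpace ℝ (Fin d)) (ρ : ℝ), 0 < ρ → ∀ k : ℕ, 1 ≤ k →
    coverConst (closedBall c ρ) k ≤ 6 * max (Real.sqrt k) (k / Real.sqrt d)) ∧
  (∀ k : ℕ, 1 ≤ k →
    (Real.sqrt 2 - 1) * max (Real.sqrt k) (k / Real.sqrt d) ≤ coverConstSym d k ∧
    coverConstSym d k ≤ 6 * max (Real.sqrt k) (k / Real.sqrt d))

lemma ball_sym {d : ℕ} (c : EuclideanSpace ℝ (Fin d)) (ρ : ℝ) :
    IsCentrallySymmetric (closedBall c ρ) := by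
  refine ⟨c, fun x hx => ?_⟩
  rw [mem_closedBall, dist_eq_norm] at hx ⊢
  have : (2 : ℝ) • c - x - c = -(x - c) := by rw [two_smul]; abel
  rwa [this, norm_neg]

lemma sym_ge {d k : ℕ} {c : ℝ} (h : ∀ K : Set (EuclideanSpace ℝ (Fin d)), IsConvexBody K →
    IsCentrallySymmetric K → c ≤ coverConst K k) : c ≤ coverConstSym d k := by
  refine le_csInf (show Set.Nonempty {c : ℝ | ∃ K : Set (EuclideanSpace ℝ (Fin d)),
    IsConvexBody K ∧ IsCentrallySymmetric K ∧ c = coverConst K k} from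
    ⟨_, _, ball_body, ball_sym _ _, rfl⟩) ?_
  rintro _ ⟨K, hK, hs, rfl⟩
  exact h K hK hs

lemma sym_le {d : ℕ} (hd : 1 ≤ d) (k : ℕ) :
    coverConstSym d k ≤ coverConst (closedBall (0 : EuclideanSpace ℝ (Fin d)) 1) k := by
  apply csInf_le
  · refine ⟨0, ?_⟩
    rintro _ ⟨K, hK, _, rfl⟩
    exact coverConst_nonneg (minWidth_pos hd hK).le k
  · exact ⟨_, ball_body, ball_sym _ _, rfl⟩

/-- The square root bound for centrally symmetric bodies. -/
lemma sym_sqrt (hSQRT : S_SQRT) {d : ℕ} (hd : 1 ≤ d) {K : Set (EuclideanSpace ℝ (Fin d))}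
    (hK : IsConvexBody K) (hs : IsCentrallySymmetric K) (k : ℕ) :
    (Real.sqrt 2 - 1) * Real.sqrt k ≤ coverConst K k := by
  obtain ⟨p, hp⟩ := hs
  have hw := minWidth_pos hd hK
  have hwr := symm_width hd hK p hp
  have hs2 : 0 ≤ Real.sqrt 2 - 1 := by
    have := Real.one_le_sqrt.mpr (by norm_num : (1 : ℝ) ≤ 2)
    linarith
  obtain ⟨e, he⟩ := exists_unit hd
  refine le_csInf (show Set.Nonempty {c : ℝ | ∃ (m : ℕ) (θ : Fin m → EuclideanSpace ℝ (Fin d))
    (a b : Fin m → ℝ), IsFoldCover K k θ a b ∧ c = (∑ i, (b i - a i)) / minWidth K} from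
    ⟨_, k, _, _, _, trivial_cover hK k e he, rfl⟩) ?_
  rintro _ ⟨m, θ, a, b, hc, rfl⟩
  have key : ∀ ρ : ℝ, 0 < ρ → ρ < inradius K →
      2 * (Real.sqrt 2 - 1) * ρ * Real.sqrt k ≤ ∑ i, (b i - a i) := by
    intro ρ h1 h2
    obtain ⟨g, hg⟩ := ball_of_lt hK h2
    exact hSQRT d m g ρ k θ a b hd h1 ⟨hc.1, hc.2.1, fun x hx => hc.2.2 x (hg hx)⟩
  have hpos := inradius_pos hd hK
  have hlim : 2 * (Real.sqrt 2 - 1) * inradius K * Real.sqrt k ≤ ∑ i, (b i - a i) := by
    have c1 : Tendsto (fun r : ℝ => 2 * (Real.sqrt 2 - 1) * r * Real.sqrt k) (𝓝[<] (inradius K))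
        (𝓝 (2 * (Real.sqrt 2 - 1) * inradius K * Real.sqrt k)) := by
      apply tendsto_nhdsWithin_of_tendsto_nhds
      have : Continuous (fun r : ℝ => 2 * (Real.sqrt 2 - 1) * r * Real.sqrt k) := by fun_prop
      exact this.tendsto _
    apply le_of_tendsto c1
    have : Ioo 0 (inradius K) ∈ 𝓝[<] (inradius K) := Ioo_mem_nhdsLT hpos
    filter_upwards [this] with r hr
    exact key r hr.1 hr.2
  rw [le_div_iff₀ hw, hwr]
  linarith

lemma vd_eq (hVGAM : S_VGAM) {d : ℕ} (hd : 2 ≤ d) : vd d = 2 * symConst d := by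
  rw [hVGAM d hd, symConst]
  have : Real.Gamma ((d : ℝ) / 2) ≠ 0 := by
    apply (Real.Gamma_pos_of_pos _).ne'
    have : (0 : ℝ) < d := by exact_mod_cast (by omega : 0 < d)
    linarith
  field_simp

lemma sym_lin (hINR : S_INR) (hVGAM : S_VGAM) {d : ℕ} (hd : 3 ≤ d)
    {K : Set (EuclideanSpace ℝ (Fin d))}
    (hK : IsConvexBody K) (hs : IsCentrallySymmetric K) (k : ℕ) :
    symConst d * k ≤ coverConst K k := by
  obtain ⟨p, hp⟩ := hs
  have hd1 : 1 ≤ d := by omega
  have hw := minWidth_pos hd1 hK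
  have hwr := symm_width hd1 hK p hp
  have h := hINR d K k hd hK
  rw [vd_eq hVGAM (by omega)] at h
  have e : 2 * symConst d * inradius K / minWidth K = symConst d := by
    have h2 : 2 * symConst d * inradius K = symConst d * minWidth K := by rw [hwr]; ring
    rw [h2, mul_div_assoc, div_self hw.ne', mul_one]
  rwa [e] at h

/-- Numerical lower bound for the constant. -/
lemma symConst_ge (hRATIO : S_RATIO) (hVGAM : S_VGAM) {d : ℕ} (hd : 3 ≤ d) :
    (Real.sqrt 2 - 1) / Real.sqrt d ≤ symConst d := by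
  have hv := vd_eq hVGAM (by omega : 2 ≤ d)
  obtain ⟨n, rfl⟩ : ∃ n, d = n + 1 := ⟨d - 1, by omega⟩
  have hn : 1 ≤ n := by omega
  have h := hRATIO n 1 hn one_pos
  set A := Real.sqrt (((n : ℝ) + 2) / (2 * Real.pi)) with hA
  have hApos : 0 < A := by
    apply Real.sqrt_pos.mpr
    have := Real.pi_pos
    positivity
  have hk1 : 0 < kap (n + 1) := by
    unfold kap
    apply ENNReal.toReal_pos
    · exact (measure_closedBall_pos volume _ one_pos).ne'
    · exact measure_closedBall_lt_top.ne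
  have hk0 : 0 < kap n := by
    unfold kap
    apply ENNReal.toReal_pos
    · exact (measure_closedBall_pos volume _ one_pos).ne'
    · exact measure_closedBall_lt_top.ne
  have h2 : kap n ≤ A * kap (n + 1) := by
    have h3 := ENNReal.toReal_mono (ENNReal.mul_ne_top ENNReal.ofReal_ne_top
      measure_closedBall_lt_top.ne) h
    rw [ENNReal.toReal_mul, ENNReal.toReal_ofReal (by positivity), div_one] at h3
    exact h3
  have hnpos : (0 : ℝ) < n := by exact_mod_cast hn
  have hvd : 1 / A ≤ vd (n + 1) := by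
    unfold vd
    have e : (n + 1 : ℕ) - 1 = n := by omega
    rw [e]
    push_cast
    rw [add_sub_cancel_right, div_le_div_iff₀ hApos (by positivity)]
    nlinarith [mul_pos hnpos hk0, mul_pos hnpos hk1, mul_pos hApos hk1]
  have hsym : 1 / (2 * A) ≤ symConst (n + 1) := by
    have : 1 / (2 * A) = (1 / A) / 2 := by field_simp
    rw [this]
    linarith
  refine le_trans ?_ hsym
  have hs2 : 0 < Real.sqrt 2 - 1 := by
    have : (1 : ℝ) < Real.sqrt 2 := by
      rw [Real.lt_sqrt] <;> norm_num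
    linarith
  push_cast
  have hdpos : (0 : ℝ) < (n : ℝ) + 1 := by positivity
  rw [div_le_div_iff₀ (Real.sqrt_pos.mpr hdpos) (by positivity), one_mul]
  -- (√2 - 1) * (2A) ≤ √(n+1)
  apply Real.le_sqrt_of_sq_le
  have hA2 : A ^ 2 = ((n : ℝ) + 2) / (2 * Real.pi) := by
    rw [hA, Real.sq_sqrt]
    have := Real.pi_pos
    positivity
  have hs3 : (Real.sqrt 2 - 1) ^ 2 ≤ 1 := by
    have h5 : Real.sqrt 2 ≤ 2 := by
      rw [Real.sqrt_le_left (by norm_num)]; norm_num
    nlinarith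
  calc ((Real.sqrt 2 - 1) * (2 * A)) ^ 2 = (Real.sqrt 2 - 1) ^ 2 * (4 * A ^ 2) := by ring
    _ ≤ 1 * (4 * A ^ 2) := mul_le_mul_of_nonneg_right hs3 (by positivity)
    _ = 2 * ((n : ℝ) + 2) / Real.pi := by
        rw [hA2]
        field_simp
        ring
    _ ≤ (n : ℝ) + 1 := by
        rw [div_le_iff₀ Real.pi_pos]
        have h6 : (1 : ℝ) ≤ n := by exact_mod_cast hn
        have h7 := mul_lt_mul_of_pos_left Real.pi_gt_three hdpos
        linarith

theorem partB (hINR : S_INR) (hVGAM : S_VGAM) (hBUP : S_BUP) (hSCALE : S_SCALE)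
    (hLIM : S_LIM) (d : ℕ) (hd : 3 ≤ d) : PartB d := by
  have hd1 : 1 ≤ d := by omega
  have hboth : ∀ K : Set (EuclideanSpace ℝ (Fin d)), IsConvexBody K → IsCentrallySymmetric K →
      ∀ k : ℕ, symConst d * k ≤ coverConst K k :=
    fun K hK hs k => sym_lin hINR hVGAM hd hK hs k
  -- the limit for the unit ball
  have hunit : Tendsto (fun k : ℕ => coverConst (closedBall (0 : EuclideanSpace ℝ (Fin d)) 1) k / k)
      atTop (𝓝 (symConst d)) := by
    obtain ⟨L, hL, hL2⟩ := hLIM d (closedBall (0 : EuclideanSpace ℝ (Fin d)) 1) hd1 ball_body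
    have h1 : symConst d ≤ L := lim_ge_of hL (fun k => hboth _ ball_body (ball_sym _ _) k)
    have h2 : L ≤ symConst d := by
      apply le_of_forall_pos_le_add
      intro ε hε
      obtain ⟨k, m, θ, a, b, hk, hc, hsum⟩ := hBUP d (2 * ε) hd (by linarith)
      have hkpos : (0 : ℝ) < k := by exact_mod_cast hk
      have hw2 : minWidth (closedBall (0 : EuclideanSpace ℝ (Fin d)) 1) = 2 := by
        have := (hSCALE d 0 1 k hd1 one_pos).2.1
        simpa using this
      have h3 := coverConst_le (by rw [hw2]; norm_num) hc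
      rw [hw2] at h3
      have h4 := hL2 k
      rw [vd_eq hVGAM (by omega)] at hsum
      have h5 : L * k ≤ (symConst d + ε) * k := by
        calc L * k ≤ (∑ i, (b i - a i)) / 2 := h4.trans h3
          _ ≤ ((2 * symConst d + 2 * ε) * k) / 2 := by linarith
          _ = _ := by ring
      exact le_of_mul_le_mul_right h5 hkpos
    rwa [le_antisymm h2 h1] at hL
  have hball : ∀ (c : EuclideanSpace ℝ (Fin d)) (ρ : ℝ), 0 < ρ →
      Tendsto (fun k : ℕ => coverConst (closedBall c ρ) k / k) atTop (𝓝 (symConst d)) := by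
    intro c ρ hρ
    have e : (fun k : ℕ => coverConst (closedBall c ρ) k / k) =
        (fun k : ℕ => coverConst (closedBall (0 : EuclideanSpace ℝ (Fin d)) 1) k / k) := by
      funext k
      rw [(hSCALE d c ρ k hd1 hρ).2.2.2]
    rw [e]
    exact hunit
  refine ⟨hboth, hball, ?_⟩
  apply tendsto_of_tendsto_of_tendsto_of_le_of_le' tendsto_const_nhds hunit
  · filter_upwards [eventually_ge_atTop 1] with k hk
    have hkpos : (0 : ℝ) < k := by exact_mod_cast hk
    rw [le_div_iff₀ hkpos]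
    exact sym_ge (fun K hK hs => hboth K hK hs k)
  · filter_upwards [eventually_ge_atTop 1] with k hk
    have hkpos : (0 : ℝ) < k := by exact_mod_cast hk
    exact div_le_div_of_nonneg_right (sym_le hd1 k) hkpos.le

theorem partC (hINR : S_INR) (hVGAM : S_VGAM) (hRATIO : S_RATIO) (hSCALE : S_SCALE)
    (hSQRT : S_SQRT) (hBALLUP : S_BALLUP) (d : ℕ) (hd : 2 ≤ d) : PartC d := by
  have hd1 : 1 ≤ d := by omega
  have hdpos : (0 : ℝ) < d := by exact_mod_cast hd1
  have hsd : 0 < Real.sqrt d := Real.sqrt_pos.mpr hdpos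
  have hs2 : 0 ≤ Real.sqrt 2 - 1 := by
    have := Real.one_le_sqrt.mpr (by norm_num : (1 : ℝ) ≤ 2)
    linarith
  have hs3 : Real.sqrt 2 - 1 ≤ 1 := by
    have h5 : Real.sqrt 2 ≤ 2 := by
      rw [Real.sqrt_le_left (by norm_num)]; norm_num
    linarith
  have hlin : ∀ K : Set (EuclideanSpace ℝ (Fin d)), IsConvexBody K → IsCentrallySymmetric K →
      ∀ k : ℕ, (Real.sqrt 2 - 1) / Real.sqrt d * k ≤ coverConst K k := by
    intro K hK hs k
    rcases Nat.lt_or_ge d 3 with h | h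
    · -- `d = 2`
      have hd2 : d = 2 := by omega
      obtain ⟨p, hp⟩ := hs
      have hw := minWidth_pos hd1 hK
      have hwr := symm_width hd1 hK p hp
      have h1 := coverConst_ge (Or.inl hd2) hK k
      have e : 2 * inradius K / minWidth K = 1 := by rw [← hwr, div_self hw.ne']
      rw [e, one_mul] at h1
      refine le_trans ?_ h1
      have h2 : (Real.sqrt 2 - 1) / Real.sqrt d ≤ 1 := by
        rw [div_le_one hsd]
        have : (1 : ℝ) ≤ Real.sqrt d := by
          rw [Real.one_le_sqrt]; exact_mod_cast hd1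
        linarith
      have h3 : (0 : ℝ) ≤ k := Nat.cast_nonneg k
      nlinarith
    · exact (mul_le_mul_of_nonneg_right (symConst_ge hRATIO hVGAM h) (Nat.cast_nonneg k)).trans
        (sym_lin hINR hVGAM h hK hs k)
  have hboth : ∀ K : Set (EuclideanSpace ℝ (Fin d)), IsConvexBody K → IsCentrallySymmetric K →
      ∀ k : ℕ, (Real.sqrt 2 - 1) * max (Real.sqrt k) (k / Real.sqrt d) ≤ coverConst K k := by
    intro K hK hs k
    rw [mul_max_of_nonneg _ _ hs2]
    apply max_le (sym_sqrt hSQRT hd1 hK hs k)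
    refine le_trans (le_of_eq ?_) (hlin K hK hs k)
    ring
  refine ⟨hboth, ?_, ?_⟩
  · intro c ρ hρ k hk
    rw [(hSCALE d c ρ k hd1 hρ).2.2.2]
    exact hBALLUP d k hd1 hk
  · intro k hk
    exact ⟨sym_ge (fun K hK hs => hboth K hK hs k), (sym_le hd1 k).trans (hBALLUP d k hd1 hk)⟩

end Pool.Agent.H508R2.PL
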