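import Pool.Agent.H508R2.PL.Stm2

/-!
BALLUP: upper bound for the covering constants of the unit ball.
-/

open MeasureTheory Metric Set Filter Topology
open Pool.Agent.Helper934.PlankDefs

namespace Pool.Agent.H508R2.PL

namespace BALLUP

open Classical in
/-- the number of coordinates of modulus larger than `τ` -/
theorem count_bad {d n : ℕ} (hn : n ≤ d) (τ : ℝ) (hτ : 0 ≤ τ) (x : E d) (hx : ‖x‖ ≤ 1) :
    ((Finset.univ.filter fun i : Fin n => τ < |x (Fin.castLE hn i)|).card : ℝ) * τ ^ 2 ≤ 1 := by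
  have h1 : ((Finset.univ.filter fun i : Fin n => τ < |x (Fin.castLE hn i)|).card : ℝ) * τ ^ 2 ≤
      ∑ i ∈ Finset.univ.filter (fun i : Fin n => τ < |x (Fin.castLE hn i)|),
        x (Fin.castLE hn i) ^ 2 := by
    rw [← nsmul_eq_mul, ← Finset.sum_const]
    refine Finset.sum_le_sum fun i hi => ?_
    have h2 : τ < |x (Fin.castLE hn i)| := (Finset.mem_filter.1 hi).2
    rw [← sq_abs (x (Fin.castLE hn i))]
    exact pow_le_pow_left₀ hτ h2.le 2
  have h2 : ∑ i ∈ Finset.univ.filter (fun i : Fin n => τ < |x (Fin.castLE hn i)|),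
        x (Fin.castLE hn i) ^ 2 ≤ ∑ i : Fin n, x (Fin.castLE hn i) ^ 2 :=
    Finset.sum_le_sum_of_subset_of_nonneg (Finset.filter_subset _ _) fun i _ _ => sq_nonneg _
  have h3 : ∑ i : Fin n, x (Fin.castLE hn i) ^ 2 ≤ ∑ i : Fin d, x i ^ 2 := by
    have h4 : ∑ i : Fin n, x (Fin.castLE hn i) ^ 2 =
        ∑ i ∈ (Finset.univ : Finset (Fin n)).map (Fin.castLEEmb hn), x i ^ 2 := by
      rw [Finset.sum_map]; rfl
    rw [h4]
    exact Finset.sum_le_sum_of_subset_of_nonneg (Finset.subset_univ _) fun i _ _ => sq_nonneg _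
  have h5 : ∑ i : Fin d, x i ^ 2 = ‖x‖ ^ 2 := (EuclideanSpace.real_norm_sq_eq x).symm
  have h6 : ‖x‖ ^ 2 ≤ 1 := pow_le_one₀ (norm_nonneg x) hx
  linarith

open Classical in
theorem card_prod {q n : ℕ} (P : Fin n → Prop) :
    Nat.card {j : Fin (q * n) // P (finProdFinEquiv.symm j).2} =
      q * (Finset.univ.filter P).card := by
  have h1 : Nat.card {j : Fin (q * n) // P (finProdFinEquiv.symm j).2} =
      Nat.card {p : Fin q × Fin n // P p.2} :=
    Nat.card_congr (finProdFinEquiv.symm.subtypeEquiv fun j => Iff.rfl)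
  rw [h1, Nat.card_eq_fintype_card, Fintype.card_subtype]
  have h2 : (Finset.univ.filter fun p : Fin q × Fin n => P p.2) =
      (Finset.univ : Finset (Fin q)) ×ˢ (Finset.univ.filter P) := by
    ext p
    simp
  rw [h2, Finset.card_product, Finset.card_univ, Fintype.card_fin]

theorem up_gen (hSCALE : S_SCALE) (d k n q : ℕ) (τ : ℝ) (hd : 1 ≤ d) (hn : n ≤ d) (hτ : 0 ≤ τ)
    (h : ∀ B : ℕ, B ≤ n → (B : ℝ) * τ ^ 2 ≤ 1 → k ≤ q * (n - B)) :
    coverConst (closedBall (0 : E d) 1) k ≤ q * n * τ := by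
  classical
  obtain ⟨-, hw, -, -⟩ := hSCALE d 0 1 k hd one_pos
  have hcov : IsFoldCover (closedBall (0 : E d) 1) k
      (fun j : Fin (q * n) => EuclideanSpace.single (Fin.castLE hn (finProdFinEquiv.symm j).2) (1 : ℝ))
      (fun _ => -τ) (fun _ => τ) := by
    refine ⟨fun j => by simp, fun _ => by linarith, fun x hx => ?_⟩
    have hx1 : ‖x‖ ≤ 1 := by simpa using hx
    have hmem : ∀ j : Fin (q * n), (x ∈ plank (EuclideanSpace.single
        (Fin.castLE hn (finProdFinEquiv.symm j).2) (1 : ℝ)) (-τ) τ ↔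
        (fun i : Fin n => |x (Fin.castLE hn i)| ≤ τ) (finProdFinEquiv.symm j).2) := by
      intro j
      unfold plank
      rw [Set.mem_ofPred_eq, EuclideanSpace.inner_single_right]
      simp only [one_mul, abs_le]
      rfl
    have hcard : Nat.card {j : Fin (q * n) // x ∈ plank (EuclideanSpace.single
        (Fin.castLE hn (finProdFinEquiv.symm j).2) (1 : ℝ)) (-τ) τ} =
        q * (Finset.univ.filter fun i : Fin n => |x (Fin.castLE hn i)| ≤ τ).card := by
      rw [← card_prod]
      exact Nat.card_congr (Equiv.subtypeEquivRight hmem)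
    rw [hcard]
    have hsplit := Finset.card_filter_add_card_filter_not (s := (Finset.univ : Finset (Fin n)))
      (fun i : Fin n => |x (Fin.castLE hn i)| ≤ τ)
    simp only [not_le, Finset.card_univ, Fintype.card_fin] at hsplit
    have hB := h (Finset.univ.filter fun i : Fin n => τ < |x (Fin.castLE hn i)|).card
      (by omega) (count_bad hn τ hτ x hx1)
    have hE : n - (Finset.univ.filter fun i : Fin n => τ < |x (Fin.castLE hn i)|).card =
        (Finset.univ.filter fun i : Fin n => |x (Fin.castLE hn i)| ≤ τ).card := by omega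
    rwa [hE] at hB
  have h1 := Pool.Agent.Helper934.PlankMain.coverConst_le (by rw [hw]; norm_num) hcov
  refine h1.trans (le_of_eq ?_)
  rw [hw, Finset.sum_const, Finset.card_univ, Fintype.card_fin, nsmul_eq_mul]
  push_cast
  ring

end BALLUP

open BALLUP in
theorem t_BALLUP (hSCALE : S_SCALE) : S_BALLUP := by
  intro d k hd hk
  have hk0 : (0 : ℝ) < k := by exact_mod_cast hk
  have hd0 : (0 : ℝ) < d := by exact_mod_cast hd
  have hsk : 0 < Real.sqrt k := Real.sqrt_pos.2 hk0
  have hsd : 0 < Real.sqrt d := Real.sqrt_pos.2 hd0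
  have hk2 : Real.sqrt k ^ 2 = k := Real.sq_sqrt hk0.le
  have hd2 : Real.sqrt d ^ 2 = d := Real.sq_sqrt hd0.le
  rcases le_or_gt (2 * k) d with hkd | hkd
  · -- few planks
    have h1 := up_gen hSCALE d k (2 * k) 1 (1 / Real.sqrt k) hd hkd (by positivity) (by
      intro B _ hB
      have h2 : (B : ℝ) ≤ k := by
        rw [div_pow, one_pow, hk2, mul_one_div, div_le_one hk0] at hB
        exact hB
      have h3 : B ≤ k := by exact_mod_cast h2
      omega)
    have h4 : ((1 : ℕ) : ℝ) * ((2 * k : ℕ) : ℝ) * (1 / Real.sqrt k) = 2 * Real.sqrt k := by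
      push_cast
      rw [one_mul, mul_one_div, div_eq_iff hsk.ne']
      nlinarith
    rw [h4] at h1
    refine h1.trans ?_
    have h5 : Real.sqrt k ≤ max (Real.sqrt k) (k / Real.sqrt d) := le_max_left _ _
    nlinarith
  · -- many planks
    set q : ℕ := ⌈(2 * k : ℝ) / d⌉₊ with hq
    have hq1 : (2 * k : ℝ) / d ≤ q := Nat.le_ceil _
    have hq2 : (q : ℝ) < 2 * k / d + 1 := Nat.ceil_lt_add_one (by positivity)
    have h2kd : (1 : ℝ) ≤ 2 * k / d := by
      rw [le_div_iff₀ hd0, one_mul]
      exact_mod_cast hkd.le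
    have hq3 : (q : ℝ) ≤ 4 * k / d := by
      have : (4 : ℝ) * k / d = 2 * k / d + 2 * k / d := by ring
      linarith
    have h1 := up_gen hSCALE d k d q (Real.sqrt (2 / d)) hd le_rfl (Real.sqrt_nonneg _) (by
      intro B hBn hB
      rw [Real.sq_sqrt (by positivity)] at hB
      have h2 : (B : ℝ) ≤ d / 2 := by
        rw [mul_div_assoc', div_le_one hd0] at hB
        linarith
      have h3 : (k : ℝ) ≤ q * ((d : ℝ) - B) := by
        calc (k : ℝ) = 2 * k / d * (d / 2) := by field_simp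
          _ ≤ q * ((d : ℝ) - B) := mul_le_mul hq1 (by linarith) (by positivity) (by positivity)
      have h4 : ((q * (d - B) : ℕ) : ℝ) = q * ((d : ℝ) - B) := by
        push_cast [Nat.cast_sub hBn]
        ring
      rw [← h4] at h3
      exact_mod_cast h3)
    refine h1.trans ?_
    have hs : Real.sqrt (2 / d) = Real.sqrt 2 / Real.sqrt d := Real.sqrt_div (by norm_num) _
    have hs2 : Real.sqrt 2 ≤ 3 / 2 := by
      rw [Real.sqrt_le_left (by norm_num)]
      norm_num
    have h5 : (q : ℝ) * d * Real.sqrt (2 / d) ≤ 6 * (k / Real.sqrt d) := by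
      rw [hs]
      have h6 : (q : ℝ) * d ≤ 4 * k := by
        rw [le_div_iff₀ hd0] at hq3
        exact hq3
      calc (q : ℝ) * d * (Real.sqrt 2 / Real.sqrt d) ≤ 4 * k * ((3 / 2) / Real.sqrt d) :=
            mul_le_mul h6 (div_le_div_of_nonneg_right hs2 hsd.le) (by positivity) (by positivity)
        _ = 6 * (k / Real.sqrt d) := by ring
    refine h5.trans ?_
    have h7 : k / Real.sqrt d ≤ max (Real.sqrt k) (k / Real.sqrt d) := le_max_right _ _
    linarith

end Pool.Agent.H508R2.PL
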