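import Pool.Agent.H508R2.PL.Stm
import Pool.Agent.Helper934.PlankCore

/-! BALLZ: total width of coverings of balls, sharp. -/

open MeasureTheory Metric Set Filter Topology
open Pool.Agent.Helper934.PlankDefs

namespace Pool.Agent.H508R2.PL

open Pool.Agent.Helper934.PlankCore

lemma BALLZ_kap_pos (n : ℕ) : 0 < kap n := by
  unfold kap
  exact ENNReal.toReal_pos (measure_closedBall_pos volume _ one_pos).ne'
    measure_closedBall_lt_top.ne

lemma BALLZ_vol (n : ℕ) (r : ℝ) (hr : 0 ≤ r) :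
    volume (closedBall (0 : E n) r) = ENNReal.ofReal (kap n * r ^ n) := by
  rw [Measure.addHaar_closedBall' volume (0 : E n) hr, finrank_euclideanSpace_fin, mul_comm,
    ENNReal.ofReal_mul (BALLZ_kap_pos n).le]
  congr 1
  unfold kap
  rw [ENNReal.ofReal_toReal measure_closedBall_lt_top.ne]

lemma BALLZ_zero (hSHELL : S_SHELL) {n m : ℕ} (hn : 2 ≤ n) (ρ : ℝ) (hρ : 0 < ρ) (k : ℕ)
    (θ : Fin m → E (n + 1)) (a b : Fin m → ℝ) (hθ : ∀ i, ‖θ i‖ = 1)
    (hab : ∀ i, a i ≤ b i)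
    (h : ∀ x ∈ closedBall (0 : E (n + 1)) ρ,
      k ≤ Nat.card {i : Fin m // x ∈ plank (θ i) (a i) (b i)}) :
    (k : ℝ) * (kap (n + 1) * ((n + 1) * ρ ^ n)) ≤ kap n * (n * ρ ^ (n - 1)) * ∑ i, (b i - a i) := by
  set W := ∑ i, (b i - a i) with hW
  have hW0 : 0 ≤ W := Finset.sum_nonneg (fun i _ => sub_nonneg.mpr (hab i))
  have hk1 := BALLZ_kap_pos n
  have hk2 := BALLZ_kap_pos (n + 1)
  have key : ∀ r : ℝ, 0 < r → r < ρ →
      (k : ℝ) * (kap (n + 1) * ∑ i ∈ Finset.range (n + 1), ρ ^ i * r ^ (n + 1 - 1 - i)) ≤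
        kap n * (n / 2 * ρ ^ (n - 2) * (ρ + r)) * W := by
    intro r hr hrρ
    set S : Set (E (n + 1)) := {x | r ^ 2 ≤ ‖x‖ ^ 2 ∧ ‖x‖ ^ 2 ≤ ρ ^ 2} with hS
    have hSm : MeasurableSet S := by
      have h1 : Measurable (fun x : E (n + 1) => ‖x‖ ^ 2) := by fun_prop
      exact (measurableSet_le measurable_const h1).inter (measurableSet_le h1 measurable_const)
    have hc := count_measure S hSm k θ a b (by
      intro x hx
      apply h
      simp only [mem_closedBall, dist_zero_right]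
      exact le_of_sq_le_sq hx.2 hρ.le)
    have hA : 0 ≤ kap n * (n / 2 * ρ ^ (n - 2) * (ρ ^ 2 - r ^ 2)) := by
      have : 0 ≤ ρ ^ 2 - r ^ 2 := by nlinarith
      positivity
    have hup : ∑ i, volume (plank (θ i) (a i) (b i) ∩ S) ≤
        ENNReal.ofReal (kap n * (n / 2 * ρ ^ (n - 2) * (ρ ^ 2 - r ^ 2)) * W) := by
      calc ∑ i, volume (plank (θ i) (a i) (b i) ∩ S)
          ≤ ∑ i, ENNReal.ofReal (kap n * (n / 2 * ρ ^ (n - 2) * (ρ ^ 2 - r ^ 2))) *
              ENNReal.ofReal (b i - a i) :=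
            Finset.sum_le_sum (fun i _ =>
              hSHELL n (θ i) (a i) (b i) r ρ hn (hθ i) (hab i) hr.le hrρ.le)
        _ = ENNReal.ofReal (kap n * (n / 2 * ρ ^ (n - 2) * (ρ ^ 2 - r ^ 2)) * W) := by
            rw [← Finset.mul_sum, ← ENNReal.ofReal_sum_of_nonneg
              (fun i _ => sub_nonneg.mpr (hab i)), ← ENNReal.ofReal_mul hA]
    have hlow : ENNReal.ofReal (kap (n + 1) * (ρ ^ (n + 1) - r ^ (n + 1))) ≤ volume S := by
      have hsub : ball (0 : E (n + 1)) r ⊆ closedBall 0 ρ :=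
        ball_subset_closedBall.trans (closedBall_subset_closedBall hrρ.le)
      have e1 : closedBall (0 : E (n + 1)) ρ \ ball 0 r ⊆ S := by
        intro x hx
        simp only [Set.mem_sdiff, mem_closedBall, dist_zero_right, mem_ball, not_lt] at hx
        exact ⟨by nlinarith [norm_nonneg x, hx.2], by nlinarith [norm_nonneg x, hx.1]⟩
      refine le_trans ?_ (measure_mono e1)
      rw [measure_sdiff hsub measurableSet_ball.nullMeasurableSet measure_ball_lt_top.ne,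
        ← Measure.addHaar_closedBall_eq_addHaar_ball, BALLZ_vol _ _ hρ.le, BALLZ_vol _ _ hr.le,
        ← ENNReal.ofReal_sub _ (by positivity)]
      apply ENNReal.ofReal_le_ofReal
      apply le_of_eq; ring
    have h3 : (k : ENNReal) * ENNReal.ofReal (kap (n + 1) * (ρ ^ (n + 1) - r ^ (n + 1))) ≤
        ENNReal.ofReal (kap n * (n / 2 * ρ ^ (n - 2) * (ρ ^ 2 - r ^ 2)) * W) :=
      (mul_le_mul_right hlow _).trans (hc.trans hup)
    have hcube : 0 ≤ ρ ^ (n + 1) - r ^ (n + 1) := by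
      have : r ^ (n + 1) ≤ ρ ^ (n + 1) := pow_le_pow_left₀ hr.le hrρ.le _
      linarith
    have hnn : 0 ≤ kap n * (n / 2 * ρ ^ (n - 2) * (ρ ^ 2 - r ^ 2)) * W := mul_nonneg hA hW0
    rw [show (k : ENNReal) = ENNReal.ofReal (k : ℝ) by simp,
      ← ENNReal.ofReal_mul (by positivity), ENNReal.ofReal_le_ofReal_iff hnn] at h3
    have hpos : 0 < ρ - r := by linarith
    have hgeo := geom_sum₂_mul ρ r (n + 1)
    have h4 : (ρ - r) * ((k : ℝ) *
        (kap (n + 1) * ∑ i ∈ Finset.range (n + 1), ρ ^ i * r ^ (n + 1 - 1 - i))) ≤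
        (ρ - r) * (kap n * (n / 2 * ρ ^ (n - 2) * (ρ + r)) * W) := by
      calc _ = (k : ℝ) * (kap (n + 1) *
            ((∑ i ∈ Finset.range (n + 1), ρ ^ i * r ^ (n + 1 - 1 - i)) * (ρ - r))) := by ring
        _ = (k : ℝ) * (kap (n + 1) * (ρ ^ (n + 1) - r ^ (n + 1))) := by rw [hgeo]
        _ ≤ _ := h3
        _ = _ := by ring
    exact le_of_mul_le_mul_left h4 hpos
  have hlim : (k : ℝ) * (kap (n + 1) * ∑ i ∈ Finset.range (n + 1), ρ ^ i * ρ ^ (n + 1 - 1 - i)) ≤
      kap n * (n / 2 * ρ ^ (n - 2) * (ρ + ρ)) * W := by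
    have c1 : Tendsto (fun r : ℝ => (k : ℝ) *
        (kap (n + 1) * ∑ i ∈ Finset.range (n + 1), ρ ^ i * r ^ (n + 1 - 1 - i))) (𝓝[<] ρ)
        (𝓝 ((k : ℝ) *
          (kap (n + 1) * ∑ i ∈ Finset.range (n + 1), ρ ^ i * ρ ^ (n + 1 - 1 - i)))) := by
      apply tendsto_nhdsWithin_of_tendsto_nhds
      have : Continuous (fun r : ℝ => (k : ℝ) *
        (kap (n + 1) * ∑ i ∈ Finset.range (n + 1), ρ ^ i * r ^ (n + 1 - 1 - i))) := by fun_prop
      exact this.tendsto ρ
    have c2 : Tendsto (fun r : ℝ => kap n * (n / 2 * ρ ^ (n - 2) * (ρ + r)) * W) (𝓝[<] ρ)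
        (𝓝 (kap n * (n / 2 * ρ ^ (n - 2) * (ρ + ρ)) * W)) := by
      apply tendsto_nhdsWithin_of_tendsto_nhds
      have : Continuous (fun r : ℝ => kap n * (n / 2 * ρ ^ (n - 2) * (ρ + r)) * W) := by fun_prop
      exact this.tendsto ρ
    apply le_of_tendsto_of_tendsto c1 c2
    have : Ioo 0 ρ ∈ 𝓝[<] ρ := Ioo_mem_nhdsLT hρ
    filter_upwards [this] with r hr
    exact key r hr.1 hr.2
  have hs : ∑ i ∈ Finset.range (n + 1), ρ ^ i * ρ ^ (n + 1 - 1 - i) = (n + 1) * ρ ^ n := by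
    rw [Finset.sum_congr rfl (g := fun _ => ρ ^ n)]
    · rw [Finset.sum_const, Finset.card_range, nsmul_eq_mul]
      push_cast
      ring
    · intro i hi
      have := Finset.mem_range.1 hi
      rw [← pow_add]
      congr 1
      omega
  rw [hs] at hlim
  have hp : ρ ^ (n - 1) = ρ ^ (n - 2) * ρ := by
    rw [← pow_succ]
    congr 1
    omega
  calc (k : ℝ) * (kap (n + 1) * ((n + 1) * ρ ^ n)) ≤
      kap n * (n / 2 * ρ ^ (n - 2) * (ρ + ρ)) * W := hlim
    _ = kap n * (n * ρ ^ (n - 1)) * W := by rw [hp]; ring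

theorem t_BALLZ (hSHELL : S_SHELL) : S_BALLZ := by
  intro d m c ρ k θ a b hd hρ hcov
  obtain ⟨hθ, hab, h⟩ := hcov
  obtain ⟨n, rfl⟩ : ∃ n, d = n + 1 := ⟨d - 1, by omega⟩
  have hn : 2 ≤ n := by omega
  have h0 := BALLZ_zero hSHELL hn ρ hρ k θ (fun i => a i - inner ℝ c (θ i))
    (fun i => b i - inner ℝ c (θ i)) hθ (fun i => by simpa using hab i) (by
      intro x hx
      have h1 := h (x + c) (by
        simp only [mem_closedBall, dist_zero_right] at hx
        simpa [mem_closedBall, dist_eq_norm] using hx)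
      refine h1.trans (le_of_eq ?_)
      apply Nat.card_congr
      apply Equiv.subtypeEquivRight
      intro i
      simp only [plank, mem_ofPred_eq, inner_add_left]
      constructor
      · rintro ⟨h1, h2⟩; exact ⟨by linarith, by linarith⟩
      · rintro ⟨h1, h2⟩; exact ⟨by linarith, by linarith⟩)
  have hk1 := BALLZ_kap_pos n
  have hk2 := BALLZ_kap_pos (n + 1)
  have hn0 : (0 : ℝ) < n := by exact_mod_cast (by omega : 0 < n)
  have hsum : ∑ i, ((b i - inner ℝ c (θ i)) - (a i - inner ℝ c (θ i))) = ∑ i, (b i - a i) := by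
    refine Finset.sum_congr rfl fun i _ => by ring
  rw [hsum] at h0
  unfold vd
  have e1 : (((n + 1 : ℕ) : ℝ) - 1) = n := by push_cast; ring
  have e2 : n + 1 - 1 = n := by omega
  rw [e1, e2, div_mul_eq_mul_div, div_mul_eq_mul_div, div_le_iff₀ (by positivity)]
  have hρn : 0 < ρ ^ (n - 1) := by positivity
  refine le_of_mul_le_mul_left ?_ hρn
  have hp : ρ ^ n = ρ ^ (n - 1) * ρ := by
    rw [← pow_succ]
    congr 1
    omega
  rw [hp] at h0
  push_cast
  linarith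

end Pool.Agent.H508R2.PL
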