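import Pool.Agent.H508R2.PL.Stm

open MeasureTheory Metric Set Filter Topology
open Pool.Agent.Helper934.PlankDefs

namespace Pool.Agent.H508R2.PL

theorem t_BCOV : S_BCOV := by
  classical
  intro n d s q hn hnd hs hsn
  have hs0 : (0 : ℝ) < s := by exact_mod_cast hs
  let θ : Fin (q * n) → E d := fun j =>
    EuclideanSpace.single (Fin.castLE hnd (finProdFinEquiv.symm j).2) (1 : ℝ)
  refine ⟨θ, fun _ => 0, fun _ => 1 / s, ⟨?_, ?_, ?_⟩, ?_⟩
  · intro i
    simp [θ]
  · intro i
    positivity
  · intro x hx
    obtain ⟨h1, h2, -⟩ := hx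
    have hinner : ∀ j, inner ℝ x (θ j) = x (Fin.castLE hnd (finProdFinEquiv.symm j).2) := by
      intro j
      simp [θ, EuclideanSpace.inner_single_right]
    have hpl : ∀ j, x ∈ plank (θ j) 0 (1 / (s : ℝ)) ↔
        x (Fin.castLE hnd (finProdFinEquiv.symm j).2) ≤ 1 / s := by
      intro j
      change (0 ≤ inner ℝ x (θ j) ∧ inner ℝ x (θ j) ≤ 1 / (s : ℝ)) ↔ _
      rw [hinner]
      exact ⟨fun h => h.2, fun h => ⟨h1 _ (by
        rw [Fin.val_castLE]
        exact Fin.is_lt _), h⟩⟩
    set B : Finset (Fin n) := Finset.univ.filter (fun i => ¬ x (Fin.castLE hnd i) ≤ 1 / s) with hB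
    set G : Finset (Fin n) := Finset.univ.filter (fun i => x (Fin.castLE hnd i) ≤ 1 / s) with hG
    have hBG : G.card + B.card = n := by
      have := Finset.card_filter_add_card_filter_not (s := (Finset.univ : Finset (Fin n)))
        (fun i => x (Fin.castLE hnd i) ≤ 1 / s)
      rw [Finset.card_univ, Fintype.card_fin] at this
      exact this
    have hBs : B.card < s := by
      by_contra hc
      push Not at hc
      have h3 : ∑ i ∈ B, x (Fin.castLE hnd i) ≤ 1 := by
        let f : Fin d → ℝ := fun i => if (i : ℕ) < n then x i else 0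
        have hf0 : ∀ i, 0 ≤ f i := by
          intro i
          simp only [f]
          split_ifs with h
          · exact h1 i h
          · exact le_rfl
        calc ∑ i ∈ B, x (Fin.castLE hnd i) = ∑ i ∈ B, f (Fin.castLE hnd i) := by
              refine Finset.sum_congr rfl fun i _ => ?_
              simp [f]
          _ = ∑ j ∈ B.map (Fin.castLEEmb hnd), f j := by
              rw [Finset.sum_map]
              rfl
          _ ≤ ∑ j, f j :=
              Finset.sum_le_sum_of_subset_of_nonneg (Finset.subset_univ _) fun i _ _ => hf0 i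
          _ ≤ 1 := h2
      have hne : B.Nonempty := by
        rw [← Finset.card_pos]
        omega
      have h4 : ∑ i ∈ B, (1 / (s : ℝ)) < ∑ i ∈ B, x (Fin.castLE hnd i) := by
        refine Finset.sum_lt_sum_of_nonempty hne fun i hi => ?_
        rw [hB, Finset.mem_filter] at hi
        exact not_le.mp hi.2
      rw [Finset.sum_const, nsmul_eq_mul] at h4
      have h5 : (1 : ℝ) ≤ (B.card : ℝ) * (1 / s) := by
        have : (s : ℝ) ≤ B.card := by exact_mod_cast hc
        rw [mul_one_div, le_div_iff₀ hs0]
        linarith
      linarith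
    have hGc : n + 1 - s ≤ G.card := by omega
    rw [Nat.card_eq_fintype_card, Fintype.card_subtype]
    have h6 : ((Finset.univ : Finset (Fin q)) ×ˢ G).card = q * G.card := by
      rw [Finset.card_product, Finset.card_univ, Fintype.card_fin]
    refine (Nat.mul_le_mul_left q hGc).trans ?_
    rw [← h6]
    refine Finset.card_le_card_of_injOn (fun p => finProdFinEquiv p) ?_ ?_
    · intro p hp
      rw [Finset.mem_coe, Finset.mem_product] at hp
      rw [Finset.mem_coe, Finset.mem_filter]
      refine ⟨Finset.mem_univ _, (hpl _).2 ?_⟩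
      rw [Equiv.symm_apply_apply]
      have := hp.2
      rw [hG, Finset.mem_filter] at this
      exact this.2
    · intro p _ p' _ h
      exact finProdFinEquiv.injective h
  · simp only [sub_zero, Finset.sum_const, Finset.card_univ, Fintype.card_fin, nsmul_eq_mul]
    push_cast
    rw [mul_one_div]

end Pool.Agent.H508R2.PL
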