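import Pool.Agent.H508R2.PL.Stm

/-!
# BOX: a corner simplex times a cube (helper666)
-/

set_option autoImplicit false

open MeasureTheory Metric Set Filter Topology
open Pool.Agent.Helper934.PlankDefs Pool.Agent.Helper934.PlankSupp

namespace Pool.Agent.H508R2.PL

namespace BOX

lemma abs_le_one {n d : ℕ} {x : E d} (hx : x ∈ boxBody n d) (i : Fin d) : |x i| ≤ 1 := by
  obtain ⟨h1, h2, h3⟩ := hx
  by_cases hi : (i : ℕ) < n
  · rw [abs_of_nonneg (h1 i hi)]
    refine le_trans ?_ h2
    have := Finset.single_le_sum (f := fun i : Fin d => if (i : ℕ) < n then x i else 0)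
      (fun j _ => by
        show (0 : ℝ) ≤ if (j : ℕ) < n then x j else 0
        split_ifs with hj
        · exact h1 j hj
        · exact le_rfl) (Finset.mem_univ i)
    simpa [hi] using this
  · exact h3 i (not_lt.1 hi)

lemma isClosed_box (n d : ℕ) : IsClosed (boxBody n d) := by
  have e : boxBody n d = (⋂ i : Fin d, {x : E d | (i : ℕ) < n → 0 ≤ x i}) ∩
      ({x : E d | ∑ i : Fin d, (if (i : ℕ) < n then x i else 0) ≤ 1} ∩
        ⋂ i : Fin d, {x : E d | n ≤ (i : ℕ) → |x i| ≤ 1}) := by
    ext x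
    simp [boxBody]
  rw [e]
  refine IsClosed.inter (isClosed_iInter fun i => ?_)
    (IsClosed.inter ?_ (isClosed_iInter fun i => ?_))
  · by_cases hi : (i : ℕ) < n
    · simp only [hi, forall_true_left]
      exact isClosed_le continuous_const (by fun_prop)
    · simp [hi]
  · refine isClosed_le ?_ continuous_const
    refine continuous_finsetSum _ fun i _ => ?_
    by_cases hi : (i : ℕ) < n
    · simp only [hi, if_true]
      fun_prop
    · simp only [hi, if_false]
      fun_prop
  · by_cases hi : n ≤ (i : ℕ)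
    · simp only [hi, forall_true_left]
      exact isClosed_le (by fun_prop) continuous_const
    · simp [hi]

lemma isBounded_box (n d : ℕ) : Bornology.IsBounded (boxBody n d) := by
  rw [isBounded_iff_forall_norm_le]
  refine ⟨Real.sqrt d, fun x hx => ?_⟩
  rw [EuclideanSpace.norm_eq]
  apply Real.sqrt_le_sqrt
  calc ∑ i : Fin d, ‖x i‖ ^ 2 ≤ ∑ _i : Fin d, (1 : ℝ) := by
        refine Finset.sum_le_sum fun i _ => ?_
        rw [Real.norm_eq_abs]
        exact pow_le_one₀ (abs_nonneg _) (abs_le_one hx i)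
    _ = d := by simp

lemma convex_box (n d : ℕ) : Convex ℝ (boxBody n d) := by
  rintro x ⟨hx1, hx2, hx3⟩ y ⟨hy1, hy2, hy3⟩ s t hs ht hst
  refine ⟨fun i hi => ?_, ?_, fun i hi => ?_⟩
  · simp only [PiLp.add_apply, PiLp.smul_apply, smul_eq_mul]
    exact add_nonneg (mul_nonneg hs (hx1 i hi)) (mul_nonneg ht (hy1 i hi))
  · have e : ∑ i : Fin d, (if (i : ℕ) < n then (s • x + t • y) i else 0) =
        s * ∑ i : Fin d, (if (i : ℕ) < n then x i else 0) +
          t * ∑ i : Fin d, (if (i : ℕ) < n then y i else 0) := by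
      rw [Finset.mul_sum, Finset.mul_sum, ← Finset.sum_add_distrib]
      refine Finset.sum_congr rfl fun i _ => ?_
      split_ifs
      · simp
      · simp
    rw [e]
    nlinarith
  · simp only [PiLp.add_apply, PiLp.smul_apply, smul_eq_mul]
    calc |s * x i + t * y i| ≤ |s * x i| + |t * y i| := abs_add_le _ _
      _ = s * |x i| + t * |y i| := by rw [abs_mul, abs_mul, abs_of_nonneg hs, abs_of_nonneg ht]
      _ ≤ s * 1 + t * 1 := add_le_add (mul_le_mul_of_nonneg_left (hx3 i hi) hs)
          (mul_le_mul_of_nonneg_left (hy3 i hi) ht)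
      _ = 1 := by rw [mul_one, mul_one, hst]

lemma interior_box (n d : ℕ) (hd : 1 ≤ d) : (interior (boxBody n d)).Nonempty := by
  have hd0 : (0 : ℝ) < d := by exact_mod_cast hd
  set U : Set (E d) := (⋂ i : Fin d, {x : E d | 0 < x i}) ∩
      ({x : E d | ∑ i : Fin d, (if (i : ℕ) < n then x i else 0) < 1} ∩
        ⋂ i : Fin d, {x : E d | |x i| < 1}) with hU
  have hUo : IsOpen U := by
    refine IsOpen.inter (isOpen_iInter_of_finite fun i => ?_)
      (IsOpen.inter ?_ (isOpen_iInter_of_finite fun i => ?_))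
    · exact isOpen_lt continuous_const (by fun_prop)
    · refine isOpen_lt ?_ continuous_const
      refine continuous_finsetSum _ fun i _ => ?_
      by_cases hi : (i : ℕ) < n
      · simp only [hi, if_true]
        fun_prop
      · simp only [hi, if_false]
        fun_prop
    · exact isOpen_lt (by fun_prop) continuous_const
  have hUs : U ⊆ boxBody n d := by
    rintro x ⟨h1, h2, h3⟩
    simp only [mem_iInter] at h1 h3
    exact ⟨fun i _ => le_of_lt (h1 i), le_of_lt h2, fun i _ => le_of_lt (h3 i)⟩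
  have hne : (WithLp.toLp 2 (fun _ : Fin d => 1 / (2 * (d : ℝ))) : E d) ∈ U := by
    refine ⟨?_, ?_, ?_⟩
    · simp only [mem_iInter]
      intro i
      show (0 : ℝ) < 1 / (2 * (d : ℝ))
      positivity
    · show ∑ i : Fin d, (if (i : ℕ) < n then 1 / (2 * (d : ℝ)) else 0) < 1
      calc ∑ i : Fin d, (if (i : ℕ) < n then 1 / (2 * (d : ℝ)) else 0)
          ≤ ∑ _i : Fin d, 1 / (2 * (d : ℝ)) := by
            refine Finset.sum_le_sum fun i _ => ?_
            split_ifs
            · exact le_rfl
            · positivity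
        _ = 1 / 2 := by
            rw [Finset.sum_const, Finset.card_univ, Fintype.card_fin, nsmul_eq_mul]
            field_simp
        _ < 1 := by norm_num
    · simp only [mem_iInter]
      intro i
      show |1 / (2 * (d : ℝ))| < 1
      have hd1 : (1 : ℝ) ≤ d := by exact_mod_cast hd
      rw [abs_of_pos (by positivity), div_lt_one (by positivity)]
      linarith
  exact ⟨_, interior_maximal hUs hUo hne⟩

lemma body (n d : ℕ) (hd : 1 ≤ d) : IsConvexBody (boxBody n d) :=
  ⟨isCompact_of_isClosed_isBounded (isClosed_box n d) (isBounded_box n d), convex_box n d,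
    interior_box n d hd⟩

lemma width (n d : ℕ) (hn : 1 ≤ n) (hnd : n ≤ d) (u : E d) (hu : ‖u‖ = 1) :
    1 / Real.sqrt n ≤ widthIn (boxBody n d) u := by
  classical
  have hd : 1 ≤ d := hn.trans hnd
  have hb := body n d hd
  obtain ⟨i0, hi0, hmax⟩ := Finset.exists_max_image (Finset.univ.filter fun i : Fin d => (i : ℕ) < n)
    (fun i => |u i|) ⟨⟨0, by omega⟩, by simp; omega⟩
  simp only [Finset.mem_filter, Finset.mem_univ, true_and] at hi0 hmax
  set X : E d := WithLp.toLp 2 (fun i => if (i : ℕ) < n then (if i = i0 ∧ 0 < u i0 then 1 else 0)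
    else (if 0 ≤ u i then 1 else -1)) with hX
  set Y : E d := WithLp.toLp 2 (fun i => if (i : ℕ) < n then (if i = i0 ∧ ¬ 0 < u i0 then 1 else 0)
    else -(if 0 ≤ u i then 1 else -1)) with hY
  have hXi : ∀ i, X i = if (i : ℕ) < n then (if i = i0 ∧ 0 < u i0 then 1 else 0)
    else (if 0 ≤ u i then 1 else -1) := fun i => rfl
  have hYi : ∀ i, Y i = if (i : ℕ) < n then (if i = i0 ∧ ¬ 0 < u i0 then 1 else 0)
    else -(if 0 ≤ u i then 1 else -1) := fun i => rfl
  have hXm : X ∈ boxBody n d := by
    refine ⟨fun i hi => ?_, ?_, fun i hi => ?_⟩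
    · rw [hXi, if_pos hi]
      split_ifs <;> norm_num
    · calc ∑ i : Fin d, (if (i : ℕ) < n then X i else 0)
          ≤ ∑ i : Fin d, (if i = i0 then (1 : ℝ) else 0) := by
            refine Finset.sum_le_sum fun i _ => ?_
            rw [hXi]
            by_cases h1 : (i : ℕ) < n <;> by_cases h2 : i = i0 <;> by_cases h3 : 0 < u i0 <;>
              simp [h1, h2, h3]
            all_goals (try split_ifs <;> norm_num)
        _ = 1 := by simp
    · rw [hXi, if_neg (not_lt.2 hi)]
      split_ifs <;> norm_num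
  have hYm : Y ∈ boxBody n d := by
    refine ⟨fun i hi => ?_, ?_, fun i hi => ?_⟩
    · rw [hYi, if_pos hi]
      split_ifs <;> norm_num
    · calc ∑ i : Fin d, (if (i : ℕ) < n then Y i else 0)
          ≤ ∑ i : Fin d, (if i = i0 then (1 : ℝ) else 0) := by
            refine Finset.sum_le_sum fun i _ => ?_
            rw [hYi]
            by_cases h1 : (i : ℕ) < n <;> by_cases h2 : i = i0 <;> by_cases h3 : 0 < u i0 <;>
              simp [h1, h2, h3]
            all_goals (try split_ifs <;> norm_num)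
        _ = 1 := by simp
    · rw [hYi, if_neg (not_lt.2 hi)]
      split_ifs <;> norm_num
  have hne : (boxBody n d).Nonempty := ⟨X, hXm⟩
  have hw : inner ℝ X u + inner ℝ Y (-u) ≤ widthIn (boxBody n d) u := by
    rw [widthIn_eq hb.1 hne]
    exact add_le_add (le_supp hb.1 hXm u) (le_supp hb.1 hYm (-u))
  refine le_trans ?_ hw
  set S : ℝ := ∑ i : Fin d, (if (i : ℕ) < n then 0 else |u i|) with hS
  have hin : inner ℝ X u + inner ℝ Y (-u) = |u i0| + 2 * S := by
    rw [inner_neg_right, PiLp.inner_apply, PiLp.inner_apply, ← sub_eq_add_neg,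
      ← Finset.sum_sub_distrib, hS, Finset.mul_sum]
    have e0 : |u i0| = ∑ i : Fin d, if i = i0 then |u i0| else 0 := by simp
    rw [e0, ← Finset.sum_add_distrib]
    refine Finset.sum_congr rfl fun i _ => ?_
    rw [hXi, hYi]
    simp only [RCLike.inner_apply, conj_trivial]
    by_cases h1 : (i : ℕ) < n
    · by_cases h2 : i = i0
      · subst h2
        by_cases h3 : 0 < u i
        · simp [h1, h3, abs_of_pos h3]
        · simp [h1, h3, abs_of_nonpos (not_lt.1 h3)]
      · simp [h1, h2]
    · have h2 : i ≠ i0 := by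
        rintro rfl
        exact h1 hi0
      by_cases h3 : 0 ≤ u i
      · simp [h1, h2, h3, abs_of_nonneg h3]
        ring
      · simp [h1, h2, h3, abs_of_neg (not_le.1 h3)]
        ring
  rw [hin]
  have hS0 : 0 ≤ S := Finset.sum_nonneg fun i _ => by
    split_ifs
    · exact le_rfl
    · exact abs_nonneg _
  have hsq : (1 : ℝ) ≤ n * |u i0| ^ 2 + S ^ 2 := by
    have h1 : ‖u‖ ^ 2 = ∑ i : Fin d, (u i) ^ 2 := by
      rw [EuclideanSpace.norm_sq_eq]
      simp
    rw [hu, one_pow] at h1
    have h2 : ∀ i : Fin d, (u i) ^ 2 ≤ (if (i : ℕ) < n then |u i0| ^ 2 else 0) +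
        (if (i : ℕ) < n then 0 else |u i|) * S := by
      intro i
      by_cases hi : (i : ℕ) < n
      · simp only [hi, if_true, zero_mul, add_zero]
        rw [← sq_abs]
        exact pow_le_pow_left₀ (abs_nonneg _) (hmax i hi) 2
      · simp only [hi, if_false, zero_add]
        have h3 : |u i| ≤ S := by
          have := Finset.single_le_sum (f := fun i : Fin d => if (i : ℕ) < n then 0 else |u i|)
            (fun j _ => by
              show (0 : ℝ) ≤ if (j : ℕ) < n then 0 else |u j|
              split_ifs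
              · exact le_rfl
              · exact abs_nonneg _) (Finset.mem_univ i)
          simpa [hi] using this
        rw [← sq_abs, sq]
        exact mul_le_mul_of_nonneg_left h3 (abs_nonneg _)
    have h4 : ∑ i : Fin d, (if (i : ℕ) < n then |u i0| ^ 2 else 0) ≤ n * |u i0| ^ 2 := by
      rw [← Finset.sum_filter, Finset.sum_const, nsmul_eq_mul]
      refine mul_le_mul_of_nonneg_right ?_ (by positivity)
      have : (Finset.univ.filter fun i : Fin d => (i : ℕ) < n).card ≤ (Finset.range n).card :=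
        Finset.card_le_card_of_injOn (fun i => (i : ℕ))
          (fun i hi => by simpa using hi) (fun i _ j _ hij => Fin.ext hij)
      rw [Finset.card_range] at this
      exact_mod_cast this
    calc (1 : ℝ) = ∑ i : Fin d, (u i) ^ 2 := h1
      _ ≤ ∑ i : Fin d, ((if (i : ℕ) < n then |u i0| ^ 2 else 0) +
        (if (i : ℕ) < n then 0 else |u i|) * S) := Finset.sum_le_sum fun i _ => h2 i
      _ = ∑ i : Fin d, (if (i : ℕ) < n then |u i0| ^ 2 else 0) + S ^ 2 := by
        rw [Finset.sum_add_distrib, ← Finset.sum_mul, ← hS, sq S]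
      _ ≤ n * |u i0| ^ 2 + S ^ 2 := by linarith
  have hn1 : (1 : ℝ) ≤ n := by exact_mod_cast hn
  have hr1 : 1 ≤ Real.sqrt n := Real.one_le_sqrt.2 hn1
  have hr2 : Real.sqrt n ^ 2 = n := Real.sq_sqrt (by linarith)
  have ha0 : 0 ≤ |u i0| := abs_nonneg _
  have h5 : 1 ≤ Real.sqrt n * |u i0| + S := by
    by_contra hlt
    rw [not_le] at hlt
    have h6 : 0 ≤ Real.sqrt n * |u i0| := by positivity
    nlinarith [mul_nonneg h6 hS0]
  rw [div_le_iff₀ (by linarith)]
  nlinarith [mul_nonneg ha0 hS0]

end BOX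

theorem t_BOX : S_BOX := by
  intro n d hn hnd
  have hd : 1 ≤ d := hn.trans hnd
  refine ⟨BOX.body n d hd, ?_⟩
  obtain ⟨e, he⟩ := Pool.Agent.Helper934.PlankMain.exists_unit hd
  refine le_csInf ⟨_, e, he, rfl⟩ ?_
  rintro _ ⟨u, hu, rfl⟩
  exact BOX.width n d hn hnd u hu

end Pool.Agent.H508R2.PL
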