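import Pool.Agent.H508R2.PL.Stm

/-!
BUP: nearly optimal coverings of the unit ball. (helper965)
-/

set_option autoImplicit false

open MeasureTheory Metric Set Filter Topology
open Pool.Agent.Helper934.PlankDefs

namespace Pool.Agent.H508R2.PL

private lemma bup_kap_pos (n : ℕ) : 0 < kap n := by
  unfold kap
  apply ENNReal.toReal_pos
  · exact (measure_closedBall_pos volume (0 : E n) one_pos).ne'
  · exact measure_closedBall_lt_top.ne

theorem t_BUP (hCONE : S_CONE) (hNET : S_NET) (hRAT : S_RAT) : S_BUP := by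
  intro d ε hd hε
  have hkd := bup_kap_pos d
  have hkd1 := bup_kap_pos (d - 1)
  have hdR : (3 : ℝ) ≤ d := by exact_mod_cast hd
  have hd1 : (0 : ℝ) < (d : ℝ) - 1 := by linarith
  -- the choice of `τ`
  have hlim : Tendsto (fun τ : ℝ => vd d * ((1 + τ) / (Real.sqrt (1 - τ ^ 2)) ^ d)) (𝓝[>] 0)
      (𝓝 (vd d * ((1 + 0) / (Real.sqrt (1 - 0 ^ 2)) ^ d))) := by
    have h1 : ContinuousAt
        (fun τ : ℝ => vd d * ((1 + τ) / (Real.sqrt (1 - τ ^ 2)) ^ d)) 0 := by
      refine ContinuousAt.mul continuousAt_const (ContinuousAt.div (by fun_prop) (by fun_prop) ?_)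
      simp
    exact h1.tendsto.mono_left nhdsWithin_le_nhds
  have hval : vd d * ((1 + 0) / (Real.sqrt (1 - 0 ^ 2)) ^ d) = vd d := by simp
  rw [hval] at hlim
  obtain ⟨τ, hτ, hτ0, hτ1⟩ := ((hlim.eventually_lt_const (show vd d < vd d + ε / 2 by linarith)).and
    (Ioo_mem_nhdsGT (by norm_num : (0 : ℝ) < 1))).exists
  have hs0 : 0 < Real.sqrt (1 - τ ^ 2) := by
    apply Real.sqrt_pos.2
    nlinarith
  set s := (Real.sqrt (1 - τ ^ 2)) ^ d with hs
  have hsd : 0 < s := pow_pos hs0 d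
  set G := 2 * τ * s * ((d - 1) * kap (d - 1) / d) with hG
  have hG0 : 0 < G := by
    rw [hG]
    have : (0 : ℝ) < d := by linarith
    positivity
  obtain ⟨N, θ, c, hθ, hc, hcs, hnet⟩ := hNET d (τ ^ 2) (by omega) (by positivity)
  have hcov : ∀ x : E d, ‖x‖ ≤ 1 →
      G ≤ ∑ j, (if |inner ℝ (θ j) x| ≤ τ + τ ^ 2 then c j else 0) := by
    intro x hx
    refine le_trans ?_ (hnet x τ hx hτ0.le)
    have h1 := hCONE d x τ (by omega) hx hτ0 hτ1
    have hfin : volume {z : E d | ‖z‖ ≤ 1 ∧ |inner ℝ z x| ≤ τ * ‖z‖} ≠ ⊤ := by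
      refine ne_top_of_le_ne_top (measure_closedBall_lt_top (x := (0 : E d)) (r := 1)).ne
        (measure_mono ?_)
      intro z hz
      rw [mem_closedBall_zero_iff]
      exact hz.1
    exact (ENNReal.ofReal_le_iff_le_toReal hfin).1 h1
  obtain ⟨k, m, θ', a, b, hk, hfold, hsum⟩ := hRAT d N θ c G (τ + τ ^ 2) hθ hc hG0
    (by positivity) hcov (ε / 2) (by positivity)
  refine ⟨k, m, θ', a, b, hk, hfold, hsum.trans ?_⟩
  apply mul_le_mul_of_nonneg_right _ (Nat.cast_nonneg k)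
  have h2 : 2 * (τ + τ ^ 2) * (∑ j, c j) / G ≤ 2 * (τ + τ ^ 2) * kap d / G := by
    apply div_le_div_of_nonneg_right _ hG0.le
    exact mul_le_mul_of_nonneg_left hcs (by positivity)
  have h3 : 2 * (τ + τ ^ 2) * kap d / G = vd d * ((1 + τ) / s) := by
    rw [hG]
    unfold vd
    have : (d : ℝ) ≠ 0 := by linarith
    have h5 : (d : ℝ) - 1 ≠ 0 := hd1.ne'
    have h6 := hkd1.ne'
    have h7 := hsd.ne'
    have h8 := hτ0.ne'
    field_simp
  linarith

end Pool.Agent.H508R2.PL
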