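import Pool.Agent.H508R2.PL.Stm

/-! Task CONE (helper796): volume of the double cone region in the unit ball. -/

open MeasureTheory Metric Set Filter Topology
open Pool.Agent.Helper934.PlankDefs

namespace Pool.Agent.H508R2.PL

/-- A measure preserving chart with first coordinate `⟨z, θ⟩`. -/
theorem cone_chart (n : ℕ) (θ : E (n + 1)) (hθ : ‖θ‖ = 1) :
    ∃ Φ : E (n + 1) → ℝ × E n, MeasurePreserving Φ ∧ (∀ z, (Φ z).1 = inner ℝ z θ) ∧
      ∀ z, ‖z‖ ^ 2 = (Φ z).1 ^ 2 + ‖(Φ z).2‖ ^ 2 := by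
  obtain ⟨B, hB⟩ : ∃ B : OrthonormalBasis (Fin (n + 1)) ℝ (E (n + 1)), B 0 = θ := by
    have hcard : Module.finrank ℝ (E (n + 1)) = Fintype.card (Fin (n + 1)) := by simp
    have horth : Orthonormal ℝ (({0} : Set (Fin (n + 1))).domRestrict (fun _ => θ)) := by
      rw [orthonormal_iff_ite]
      rintro ⟨i, hi⟩ ⟨j, hj⟩
      simp only [mem_singleton_iff] at hi hj
      subst hi; subst hj
      simp [Set.domRestrict, hθ]
    obtain ⟨B, hB⟩ := horth.exists_orthonormalBasis_extension_of_card_eq hcard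
    exact ⟨B, hB 0 rfl⟩
  have mp1 := B.measurePreserving_repr
  have mp2 := EuclideanSpace.volume_preserving_symm_measurableEquiv_toLp (Fin (n + 1))
  have mp3 := volume_preserving_piFinSuccAbove (fun _ : Fin (n + 1) => ℝ) 0
  have mp4 : MeasurePreserving (Prod.map (id : ℝ → ℝ)
      (fun y : Fin n → ℝ => (WithLp.toLp 2 y : E n))) :=
    (MeasurePreserving.id volume).prod (PiLp.volume_preserving_toLp (Fin n))
  refine ⟨_, mp4.comp (mp3.comp (mp2.comp mp1)), ?_, ?_⟩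
  · intro z
    show (B.repr z) 0 = inner ℝ z θ
    rw [B.repr_apply_apply, hB, real_inner_comm]
  · intro z
    have h1 : ‖z‖ = ‖B.repr z‖ := by simp
    rw [h1, EuclideanSpace.norm_sq_eq, EuclideanSpace.norm_sq_eq, Fin.sum_univ_succ]
    simp only [Real.norm_eq_abs, sq_abs]
    rfl

theorem cone_pow_int (n : ℕ) (R τ : ℝ) (hR : 0 ≤ R) :
    ∫ y in Ioi (0 : ℝ), y ^ n • (Iic R).indicator (fun r => 2 * τ * r) y =
      2 * τ * R ^ (n + 2) / (n + 2) := by
  have h1 : ∀ y : ℝ, y ^ n • (Iic R).indicator (fun r => 2 * τ * r) y =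
      (Iic R).indicator (fun r => 2 * τ * r ^ (n + 1)) y := by
    intro y
    by_cases hy : y ∈ Iic R
    · rw [indicator_of_mem hy, indicator_of_mem hy, smul_eq_mul]
      ring
    · rw [indicator_of_notMem hy, indicator_of_notMem hy, smul_zero]
  simp only [h1]
  rw [setIntegral_indicator measurableSet_Iic, Ioi_inter_Iic,
    ← intervalIntegral.integral_of_le hR, intervalIntegral.integral_const_mul, integral_pow]
  have h2 : ((n : ℝ) + 1 + 1) ≠ 0 := by positivity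
  push_cast
  field_simp
  ring

theorem cone_pow_integrable (n : ℕ) (R τ : ℝ) :
    IntegrableOn (fun y : ℝ => y ^ n • (Iic R).indicator (fun r => 2 * τ * r) y) (Ioi 0) := by
  have h1 : ∀ y : ℝ, y ^ n • (Iic R).indicator (fun r => 2 * τ * r) y =
      (Iic R).indicator (fun r => 2 * τ * r ^ (n + 1)) y := by
    intro y
    by_cases hy : y ∈ Iic R
    · rw [indicator_of_mem hy, indicator_of_mem hy, smul_eq_mul]
      ring
    · rw [indicator_of_notMem hy, indicator_of_notMem hy, smul_zero]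
  simp only [h1]
  rw [IntegrableOn, integrable_indicator_iff measurableSet_Iic, IntegrableOn,
    Measure.restrict_restrict measurableSet_Iic, Iic_inter_Ioi]
  have hc : Continuous (fun r : ℝ => 2 * τ * r ^ (n + 1)) := by fun_prop
  exact (hc.integrableOn_Icc (a := 0) (b := R)).mono_set Ioc_subset_Icc_self

/-- The volume of the truncated cone in coordinates. -/
theorem cone_vol (n : ℕ) (hn : 1 ≤ n) (R τ : ℝ) (hR : 0 ≤ R) (hτ : 0 < τ) :
    volume {p : ℝ × E n | ‖p.2‖ ≤ R ∧ |p.1| ≤ τ * ‖p.2‖} =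
      ENNReal.ofReal (n * kap n * (2 * τ * R ^ (n + 1) / (n + 1))) := by
  have : Nonempty (Fin n) := ⟨⟨0, hn⟩⟩
  have : Nontrivial (E n) := inferInstance
  have hmeas : MeasurableSet {p : ℝ × E n | ‖p.2‖ ≤ R ∧ |p.1| ≤ τ * ‖p.2‖} := by
    have e1 : Measurable (fun p : ℝ × E n => ‖p.2‖) := by fun_prop
    have e2 : Measurable (fun p : ℝ × E n => |p.1|) := by fun_prop
    have e3 : Measurable (fun p : ℝ × E n => τ * ‖p.2‖) := by fun_prop
    exact (measurableSet_le e1 measurable_const).inter (measurableSet_le e2 e3)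
  rw [Measure.volume_eq_prod, Measure.prod_apply_symm hmeas]
  have h1 : ∀ y : E n, volume ((fun x : ℝ => (x, y)) ⁻¹'
      {p : ℝ × E n | ‖p.2‖ ≤ R ∧ |p.1| ≤ τ * ‖p.2‖}) =
      ENNReal.ofReal ((Iic R).indicator (fun r => 2 * τ * r) ‖y‖) := by
    intro y
    by_cases hy : ‖y‖ ≤ R
    · rw [indicator_of_mem (show ‖y‖ ∈ Iic R from hy)]
      have h2 : ((fun x : ℝ => (x, y)) ⁻¹'
          {p : ℝ × E n | ‖p.2‖ ≤ R ∧ |p.1| ≤ τ * ‖p.2‖}) =
          Icc (-(τ * ‖y‖)) (τ * ‖y‖) := by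
        ext t
        simp only [mem_preimage, mem_ofPred_eq, mem_Icc, abs_le]
        tauto
      rw [h2, Real.volume_Icc]
      congr 1
      ring
    · rw [indicator_of_notMem (show ‖y‖ ∉ Iic R from hy)]
      have h2 : ((fun x : ℝ => (x, y)) ⁻¹'
          {p : ℝ × E n | ‖p.2‖ ≤ R ∧ |p.1| ≤ τ * ‖p.2‖}) = ∅ := by
        ext t
        simp only [mem_preimage, mem_ofPred_eq, mem_empty_iff_false, iff_false]
        tauto
      rw [h2]
      simp
  simp only [h1]
  have hfin : Module.finrank ℝ (E n) = n := by simp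
  obtain ⟨m, rfl⟩ : ∃ m, n = m + 1 := ⟨n - 1, by omega⟩
  have hint : Integrable (fun y : E (m + 1) => (Iic R).indicator (fun r => 2 * τ * r) ‖y‖) := by
    rw [integrable_fun_norm_addHaar (μ := (volume : Measure (E (m + 1))))
      (f := (Iic R).indicator (fun r => 2 * τ * r)), hfin, Nat.add_sub_cancel]
    exact cone_pow_integrable m R τ
  rw [← ofReal_integral_eq_lintegral_ofReal hint (Eventually.of_forall fun y => by
    show 0 ≤ (Iic R).indicator (fun r => 2 * τ * r) ‖y‖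
    apply indicator_apply_nonneg
    intro _
    positivity)]
  congr 1
  rw [integral_fun_norm_addHaar (μ := (volume : Measure (E (m + 1))))
      (f := (Iic R).indicator (fun r => 2 * τ * r)), hfin, Nat.add_sub_cancel,
      cone_pow_int m R τ hR]
  have hk : (volume : Measure (E (m + 1))).real (ball 0 1) = kap (m + 1) := by
    unfold kap Measure.real
    rw [Measure.addHaar_closedBall_eq_addHaar_ball]
  rw [hk, nsmul_eq_mul, smul_eq_mul]
  push_cast
  ring

/-- The case of a unit vector. -/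
theorem cone_unit (n : ℕ) (hn : 1 ≤ n) (θ : E (n + 1)) (hθ : ‖θ‖ = 1) (τ : ℝ) (hτ : 0 < τ)
    (hτ1 : τ < 1) :
    ENNReal.ofReal (n * kap n * (2 * τ * Real.sqrt (1 - τ ^ 2) ^ (n + 1) / (n + 1))) ≤
      volume {z : E (n + 1) | ‖z‖ ≤ 1 ∧ |inner ℝ z θ| ≤ τ * ‖z‖} := by
  obtain ⟨Φ, mp, h1, h2⟩ := cone_chart n θ hθ
  have hτ2 : 0 ≤ 1 - τ ^ 2 := by nlinarith
  rw [← cone_vol n hn _ τ (Real.sqrt_nonneg _) hτ]
  have hmeas : MeasurableSet {p : ℝ × E n | ‖p.2‖ ≤ Real.sqrt (1 - τ ^ 2) ∧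
      |p.1| ≤ τ * ‖p.2‖} := by
    have e1 : Measurable (fun p : ℝ × E n => ‖p.2‖) := by fun_prop
    have e2 : Measurable (fun p : ℝ × E n => |p.1|) := by fun_prop
    have e3 : Measurable (fun p : ℝ × E n => τ * ‖p.2‖) := by fun_prop
    exact (measurableSet_le e1 measurable_const).inter (measurableSet_le e2 e3)
  rw [← mp.measure_preimage hmeas.nullMeasurableSet]
  apply measure_mono
  rintro z ⟨hz1, hz2⟩
  have e1 := h2 z
  have e2 : (Φ z).1 ^ 2 ≤ τ ^ 2 * ‖(Φ z).2‖ ^ 2 := by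
    rw [← sq_abs, ← mul_pow]
    exact pow_le_pow_left₀ (abs_nonneg _) hz2 2
  have e3 : ‖(Φ z).2‖ ^ 2 ≤ 1 - τ ^ 2 := by
    have := pow_le_pow_left₀ (norm_nonneg _) hz1 2
    rwa [Real.sq_sqrt hτ2] at this
  constructor
  · have h3 : ‖z‖ ^ 2 ≤ 1 := by
      rw [e1]
      nlinarith [sq_nonneg τ, sq_nonneg (τ ^ 2)]
    nlinarith [norm_nonneg z]
  · rw [← h1 z]
    refine hz2.trans (mul_le_mul_of_nonneg_left ?_ hτ.le)
    apply le_of_sq_le_sq _ (norm_nonneg z)
    rw [e1]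
    nlinarith [sq_nonneg (Φ z).1]

theorem t_CONE : S_CONE := by
  intro d x τ hd hx hτ hτ1
  obtain ⟨n, rfl⟩ : ∃ n, d = n + 1 := ⟨d - 1, by omega⟩
  have hn : 1 ≤ n := by omega
  obtain ⟨θ, hθ, hsub⟩ : ∃ θ : E (n + 1), ‖θ‖ = 1 ∧ ∀ z : E (n + 1),
      |inner ℝ z x| ≤ |inner ℝ z θ| := by
    by_cases h0 : x = 0
    · refine ⟨EuclideanSpace.single 0 1, by simp, ?_⟩
      intro z
      rw [h0, inner_zero_right, abs_zero]
      exact abs_nonneg _
    · have hx0 : 0 < ‖x‖ := norm_pos_iff.mpr h0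
      refine ⟨(‖x‖)⁻¹ • x, ?_, ?_⟩
      · rw [norm_smul, norm_inv, norm_norm, inv_mul_cancel₀ hx0.ne']
      · intro z
        rw [inner_smul_right, abs_mul, abs_of_pos (inv_pos.mpr hx0)]
        have : 1 ≤ (‖x‖)⁻¹ := (one_le_inv₀ hx0).mpr hx
        nlinarith [abs_nonneg (inner ℝ z x : ℝ)]
  have h1 := cone_unit n hn θ hθ τ hτ hτ1
  refine le_trans (le_of_eq ?_) (h1.trans (measure_mono ?_))
  · congr 1
    have e1 : (((n + 1 : ℕ) : ℝ) - 1) = n := by push_cast; ring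
    rw [e1, Nat.add_sub_cancel]
    push_cast
    ring
  · rintro z ⟨hz1, hz2⟩
    exact ⟨hz1, (hsub z).trans hz2⟩

end Pool.Agent.H508R2.PL
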