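import Pool.Agent.H508R2.PL.Stm

/-!
DET: the deterministic inequality behind the lower bound.
-/

open MeasureTheory Metric Set Filter Topology
open Pool.Agent.Helper934.PlankDefs

namespace Pool.Agent.H508R2.PL

theorem DET_g_nonneg (p s : ℝ) (hp : 0 ≤ p) : 0 ≤ g p s := by
  unfold g
  split_ifs with h
  · norm_num
  · push Not at h
    have : 0 < s := by linarith
    positivity

theorem t_DET (hSTRIP : S_STRIP) : S_DET := by
  classical
  intro d K k m θ a b hK hcov x₁ hx₁ y₁ hy₁ x₂ hx₂ y₂ hy₂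
  obtain ⟨-, hab, hc⟩ := hcov
  set S : Set (ℝ × ℝ) := Icc (0 : ℝ) 1 ×ˢ Icc (0 : ℝ) 1 with hS
  have hSm : MeasurableSet S := measurableSet_Icc.prod measurableSet_Icc
  have hSv : volume S = 1 := by
    rw [hS, Measure.volume_eq_prod, Measure.prod_prod, Real.volume_Icc]
    simp
  obtain ⟨φ, hφ⟩ : ∃ φ : Fin m → ℝ × ℝ → ℝ, φ = fun i q =>
    (inner ℝ y₁ (θ i) + inner ℝ y₂ (θ i)) / 2 +
      (q.1 * inner ℝ (x₁ - y₁) (θ i) + q.2 * inner ℝ (x₂ - y₂) (θ i)) / 2 := ⟨_, rfl⟩
  obtain ⟨T, hT⟩ : ∃ T : Fin m → Set (ℝ × ℝ), T = fun i =>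
    {q | q.1 ∈ Icc (0 : ℝ) 1 ∧ q.2 ∈ Icc (0 : ℝ) 1 ∧ a i ≤ φ i q ∧ φ i q ≤ a i + (b i - a i)} :=
    ⟨_, rfl⟩
  have hTm : ∀ i, MeasurableSet (T i) := by
    intro i
    rw [hT]
    have h1 : Measurable (φ i) := by
      rw [hφ]
      fun_prop
    have h2 : MeasurableSet {q : ℝ × ℝ | q.1 ∈ Icc (0 : ℝ) 1} := measurable_fst measurableSet_Icc
    have h3 : MeasurableSet {q : ℝ × ℝ | q.2 ∈ Icc (0 : ℝ) 1} := measurable_snd measurableSet_Icc
    exact h2.inter (h3.inter ((measurableSet_le measurable_const h1).inter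
      (measurableSet_le h1 measurable_const)))
  have hcount : ∀ q ∈ S, (k : ENNReal) ≤ ∑ i, (T i).indicator (fun _ => (1 : ENNReal)) q := by
    rintro ⟨s, t⟩ ⟨hs, ht⟩
    simp only at hs ht
    have hX1 : y₁ + s • (x₁ - y₁) ∈ K := hK.add_smul_sub_mem hy₁ hx₁ hs
    have hX2 : y₂ + t • (x₂ - y₂) ∈ K := hK.add_smul_sub_mem hy₂ hx₂ ht
    have hX : (1 / 2 : ℝ) • (y₁ + s • (x₁ - y₁)) + (1 / 2 : ℝ) • (y₂ + t • (x₂ - y₂)) ∈ K :=
      hK hX1 hX2 (by norm_num) (by norm_num) (by norm_num)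
    have h1 := hc _ hX
    rw [Nat.card_eq_fintype_card, Fintype.card_subtype] at h1
    calc (k : ENNReal) ≤ ((Finset.univ.filter (fun i => (1 / 2 : ℝ) • (y₁ + s • (x₁ - y₁)) +
          (1 / 2 : ℝ) • (y₂ + t • (x₂ - y₂)) ∈ plank (θ i) (a i) (b i))).card : ENNReal) := by
          exact_mod_cast h1
      _ = ∑ i, (T i).indicator (fun _ => (1 : ENNReal)) (s, t) := by
          rw [Finset.card_filter]
          push_cast
          apply Finset.sum_congr rfl
          intro i _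
          have h2 : inner ℝ ((1 / 2 : ℝ) • (y₁ + s • (x₁ - y₁)) +
              (1 / 2 : ℝ) • (y₂ + t • (x₂ - y₂))) (θ i) = φ i (s, t) := by
            rw [hφ]
            simp only [inner_add_left, real_inner_smul_left]
            ring
          have h3 : ((1 / 2 : ℝ) • (y₁ + s • (x₁ - y₁)) + (1 / 2 : ℝ) • (y₂ + t • (x₂ - y₂)) ∈
              plank (θ i) (a i) (b i)) ↔ (s, t) ∈ T i := by
            rw [hT]
            unfold plank
            simp only [Set.mem_ofPred_eq, h2]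
            constructor
            · rintro ⟨h4, h5⟩
              exact ⟨hs, ht, h4, by linarith⟩
            · rintro ⟨-, -, h4, h5⟩
              exact ⟨h4, by linarith⟩
          by_cases hi : (s, t) ∈ T i
          · rw [if_pos (h3.2 hi), Set.indicator_of_mem hi]
          · rw [if_neg (fun h => hi (h3.1 h)), Set.indicator_of_notMem hi]
  have hmain : (k : ENNReal) ≤ ∑ i, volume (T i) := by
    calc (k : ENNReal) = (k : ENNReal) * volume S := by rw [hSv, mul_one]
      _ = ∫⁻ _ in S, (k : ENNReal) := by rw [setLIntegral_const]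
      _ ≤ ∫⁻ q in S, ∑ i, (T i).indicator (fun _ => (1 : ENNReal)) q :=
          setLIntegral_mono' hSm hcount
      _ ≤ ∫⁻ q, ∑ i, (T i).indicator (fun _ => (1 : ENNReal)) q := setLIntegral_le_lintegral _ _
      _ = ∑ i, ∫⁻ q, (T i).indicator (fun _ => (1 : ENNReal)) q := by
          rw [lintegral_finsetSum]
          intro i _
          exact measurable_const.indicator (hTm i)
      _ = ∑ i, volume (T i) := by
          apply Finset.sum_congr rfl
          intro i _
          rw [lintegral_indicator (hTm i), setLIntegral_const, one_mul]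
  have hbound : ∀ i, volume (T i) ≤ ENNReal.ofReal (g (b i - a i)
      (max |inner ℝ (x₁ - y₁) (θ i)| |inner ℝ (x₂ - y₂) (θ i)|)) := by
    intro i
    rw [hT, hφ]
    exact hSTRIP _ _ _ _ _ (sub_nonneg.2 (hab i))
  have h5 : ENNReal.ofReal k ≤ ENNReal.ofReal (∑ i, g (b i - a i)
      (max |inner ℝ (x₁ - y₁) (θ i)| |inner ℝ (x₂ - y₂) (θ i)|)) := by
    rw [ENNReal.ofReal_sum_of_nonneg (fun i _ => DET_g_nonneg _ _ (sub_nonneg.2 (hab i))),
      ENNReal.ofReal_natCast]
    exact hmain.trans (Finset.sum_le_sum fun i _ => hbound i)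
  rwa [ENNReal.ofReal_le_ofReal_iff
    (Finset.sum_nonneg fun i _ => DET_g_nonneg _ _ (sub_nonneg.2 (hab i)))] at h5

end Pool.Agent.H508R2.PL
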