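import Pool.Agent.H508R2.PL.Stm

set_option autoImplicit false

open MeasureTheory Metric Set Filter Topology
open Pool.Agent.Helper934.PlankDefs
open Pool.Agent.Helper934.PlankSupp
open scoped Pointwise

namespace Pool.Agent.H508R2.PL

theorem t_DIFF : S_DIFF := by
  intro d K hd hK z hz
  have hKc : IsCompact K := hK.1
  have hKconv : Convex ℝ K := hK.2.1
  have hKne : K.Nonempty := hK.2.2.mono interior_subset
  have hDc : IsCompact (K - K) := by
    rw [sub_eq_add_neg]
    exact hKc.add hKc.neg
  have hDconv : Convex ℝ (K - K) := hKconv.sub hKconv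
  have hDne : (K - K).Nonempty := hKne.sub hKne
  have h := ball_subset_of_supp hDc hDconv hDne 0 (minWidth K) (by
    intro n hn
    rw [inner_zero_left, zero_add]
    obtain ⟨x, hx, hxs⟩ := exists_supp hKc hKne n
    obtain ⟨y, hy, hys⟩ := exists_supp hKc hKne (-n)
    have h1 := minWidth_le hKc hKne n hn
    rw [widthIn_eq hKc hKne] at h1
    have h2 := le_supp hDc (Set.sub_mem_sub hx hy) n
    rw [inner_sub_left] at h2
    rw [inner_neg_right] at hys
    linarith)
  have hz' : z ∈ closedBall (0 : E d) (minWidth K) := by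
    rw [mem_closedBall, dist_zero_right]
    exact hz
  obtain ⟨x, hx, y, hy, hxy⟩ := Set.mem_sub.1 (h hz')
  exact ⟨x, hx, y, hy, hxy⟩

end Pool.Agent.H508R2.PL
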