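import Pool.Agent.H508R2.PL.Stm

open MeasureTheory Metric Set Filter Topology
open Pool.Agent.Helper934.PlankDefs

namespace Pool.Agent.H508R2.PL

theorem t_DIML (hLIM : S_LIM) : S_DIML := by
  intro d hd
  have hnn : ∀ (K : Set (E d)) (k : ℕ), IsConvexBody K → 0 ≤ coverConst K k := fun K k hK =>
    Pool.Agent.Helper934.PlankMain.coverConst_nonneg
      (Pool.Agent.Helper934.PlankMain.minWidth_pos hd hK).le k
  have hball : IsConvexBody (closedBall (0 : E d) 1) := by
    refine ⟨isCompact_closedBall 0 1, convex_closedBall 0 1, 0, ?_⟩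
    exact interior_mono ball_subset_closedBall
      (by rw [isOpen_ball.interior_eq]; exact mem_ball_self one_pos)
  have hdim : ∀ (K : Set (E d)) (k : ℕ), IsConvexBody K → coverConstDim d k ≤ coverConst K k := by
    intro K k hK
    refine csInf_le ⟨0, ?_⟩ ⟨K, hK, rfl⟩
    rintro _ ⟨K', hK', rfl⟩
    exact hnn K' k hK'
  set T : Set ℝ := {L | ∃ K : Set (E d), IsConvexBody K ∧
    Tendsto (fun k : ℕ => coverConst K k / k) atTop (𝓝 L)} with hT
  have hTne : T.Nonempty := by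
    obtain ⟨L, hL, _⟩ := hLIM d _ hd hball
    exact ⟨L, _, hball, hL⟩
  have hTbd : BddBelow T := by
    refine ⟨0, ?_⟩
    rintro L ⟨K, hK, hL⟩
    exact ge_of_tendsto' hL fun k => div_nonneg (hnn K k hK) (Nat.cast_nonneg k)
  have hlow : ∀ k : ℕ, sInf T * k ≤ coverConstDim d k := by
    intro k
    refine le_csInf ⟨_, _, hball, rfl⟩ ?_
    rintro _ ⟨K, hK, rfl⟩
    obtain ⟨L, hL, hLk⟩ := hLIM d K hd hK
    have h1 : sInf T ≤ L := csInf_le hTbd ⟨K, hK, hL⟩
    exact (mul_le_mul_of_nonneg_right h1 (Nat.cast_nonneg k)).trans (hLk k)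
  refine ⟨sInf T, ?_, hlow, fun K L' hK hL' => csInf_le hTbd ⟨K, hK, hL'⟩⟩
  rw [tendsto_order]
  refine ⟨fun a ha => ?_, fun a ha => ?_⟩
  · filter_upwards [eventually_ge_atTop 1] with k hk
    have hk0 : (0 : ℝ) < k := by exact_mod_cast hk
    exact ha.trans_le ((le_div_iff₀ hk0).mpr (hlow k))
  · obtain ⟨L', ⟨K, hK, hL'⟩, hlt⟩ := exists_lt_of_csInf_lt hTne ha
    filter_upwards [(tendsto_order.1 hL').2 a hlt] with k hk
    exact (div_le_div_of_nonneg_right (hdim K k hK) (Nat.cast_nonneg k)).trans_lt hk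

end Pool.Agent.H508R2.PL
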