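import Pool.Agent.H508R2.PL.Stm

/-! FRAME: the normals of the regular simplex (helper818). -/

open MeasureTheory Metric Set Filter Topology
open Pool.Agent.Helper934.PlankDefs

namespace Pool.Agent.H508R2.PL

namespace FRAMEaux

/-- the all ones vector -/
noncomputable def on (d : ℕ) : E (d + 1) := WithLp.toLp 2 (fun _ => (1 : ℝ))

/-- the projection of the `i`-th basis vector -/
noncomputable def vv (d : ℕ) (i : Fin (d + 1)) : E (d + 1) :=
  WithLp.toLp 2 (fun j => (if i = j then (1 : ℝ) else 0) - 1 / ((d : ℝ) + 1))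

theorem inner_sum {n : ℕ} (x y : E n) : (inner ℝ x y : ℝ) = ∑ i, x i * y i := by
  rw [PiLp.inner_apply]
  refine Finset.sum_congr rfl fun i _ => ?_
  simp [mul_comm]

theorem on_vv (d : ℕ) (i : Fin (d + 1)) : (inner ℝ (on d) (vv d i) : ℝ) = 0 := by
  rw [inner_sum]
  simp only [on, vv, one_mul]
  rw [Finset.sum_sub_distrib]
  simp only [Finset.sum_ite_eq, Finset.mem_univ, if_true, Finset.sum_const, Finset.card_univ,
    Fintype.card_fin, nsmul_eq_mul]
  push_cast
  have : (d : ℝ) + 1 ≠ 0 := by positivity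
  field_simp
  ring

theorem vv_vv (d : ℕ) (i j : Fin (d + 1)) : (inner ℝ (vv d i) (vv d j) : ℝ) =
    (if i = j then (1 : ℝ) else 0) - 1 / ((d : ℝ) + 1) := by
  have h1 : (inner ℝ (vv d i) (vv d j) : ℝ) = vv d j i - 1 / ((d : ℝ) + 1) *
      inner ℝ (on d) (vv d j) := by
    rw [inner_sum, inner_sum]
    simp only [on, one_mul]
    have h2 : ∀ k, vv d i k * vv d j k =
        (if i = k then vv d j k else 0) - 1 / ((d : ℝ) + 1) * vv d j k := by
      intro k
      have h3 : vv d i k = (if i = k then (1 : ℝ) else 0) - 1 / ((d : ℝ) + 1) := rfl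
      rw [h3]
      split_ifs <;> ring
    rw [Finset.sum_congr rfl fun k _ => h2 k, Finset.sum_sub_distrib, ← Finset.mul_sum]
    simp
  rw [h1, on_vv]
  have h3 : vv d j i = (if j = i then (1 : ℝ) else 0) - 1 / ((d : ℝ) + 1) := rfl
  rw [h3]
  by_cases h : i = j
  · subst h; simp
  · rw [if_neg h, if_neg (fun h' => h h'.symm)]; ring

theorem sum_vv (d : ℕ) : ∑ i, vv d i = 0 := by
  ext j
  have h1 : (∑ i, vv d i) j = ∑ i, vv d i j := by
    simp
  rw [h1]
  have h3 : ∀ i, vv d i j = (if i = j then (1 : ℝ) else 0) - 1 / ((d : ℝ) + 1) := fun i => rfl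
  rw [Finset.sum_congr rfl fun k _ => h3 k, Finset.sum_sub_distrib]
  simp only [Finset.sum_ite_eq', Finset.mem_univ, if_true, Finset.sum_const, Finset.card_univ,
    Fintype.card_fin, nsmul_eq_mul]
  push_cast
  have : (d : ℝ) + 1 ≠ 0 := by positivity
  field_simp
  simp

theorem inner_vv (d : ℕ) (x : E (d + 1)) (hx : (inner ℝ (on d) x : ℝ) = 0) (i : Fin (d + 1)) :
    (inner ℝ x (vv d i) : ℝ) = x i := by
  have h1 : (inner ℝ x (vv d i) : ℝ) = x i - 1 / ((d : ℝ) + 1) * inner ℝ (on d) x := by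
    rw [inner_sum, inner_sum]
    simp only [on, one_mul]
    have h2 : ∀ k, x k * vv d i k =
        (if i = k then x k else 0) - 1 / ((d : ℝ) + 1) * x k := by
      intro k
      have h3 : vv d i k = (if i = k then (1 : ℝ) else 0) - 1 / ((d : ℝ) + 1) := rfl
      rw [h3]
      split_ifs <;> ring
    rw [Finset.sum_congr rfl fun k _ => h2 k, Finset.sum_sub_distrib, ← Finset.mul_sum]
    simp
  rw [h1, hx]; ring

end FRAMEaux

open FRAMEaux

theorem t_FRAME : S_FRAME := by
  intro d _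
  have hon : on d ≠ 0 := by
    intro h
    have h1 : (on d) 0 = 0 := by rw [h]; rfl
    have h2 : (on d) 0 = 1 := rfl
    rw [h2] at h1
    exact one_ne_zero h1
  let H : Submodule ℝ (E (d + 1)) := (Submodule.span ℝ {on d})ᗮ
  haveI : Fact (Module.finrank ℝ (E (d + 1)) = d + 1) := ⟨by simp⟩
  have hfin : Module.finrank ℝ H = d := Submodule.finrank_orthogonal_span_singleton hon
  have hmem : ∀ x : E (d + 1), x ∈ H ↔ (inner ℝ (on d) x : ℝ) = 0 := fun x =>
    Submodule.mem_orthogonal_singleton_iff_inner_right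
  let b : OrthonormalBasis (Fin d) ℝ H := (stdOrthonormalBasis ℝ H).reindex (finCongr hfin)
  refine ⟨fun i => b.repr ⟨vv d i, (hmem _).2 (on_vv d i)⟩, ?_, ?_, ?_⟩
  · rw [← map_sum]
    have h1 : (∑ i, (⟨vv d i, (hmem _).2 (on_vv d i)⟩ : H)) = 0 := by
      apply Subtype.ext
      rw [Submodule.coe_sum]
      exact sum_vv d
    rw [h1, map_zero]
  · intro i j
    rw [LinearIsometryEquiv.inner_map_map]
    exact vv_vv d i j
  · intro u
    obtain ⟨x, rfl⟩ := b.repr.surjective u
    have h1 : ∀ i, (inner ℝ (b.repr x) (b.repr ⟨vv d i, (hmem _).2 (on_vv d i)⟩) : ℝ) =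
        (x : E (d + 1)) i := by
      intro i
      rw [LinearIsometryEquiv.inner_map_map]
      exact inner_vv d x ((hmem _).1 x.2) i
    simp only [h1]
    rw [LinearIsometryEquiv.norm_map]
    have h2 : ‖x‖ = ‖(x : E (d + 1))‖ := rfl
    rw [h2, EuclideanSpace.norm_sq_eq]
    refine Finset.sum_congr rfl fun i _ => ?_
    rw [Real.norm_eq_abs, sq_abs]

end Pool.Agent.H508R2.PL
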