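import Pool.Agent.H508R2.PL.Stm2

/-! GEXP: Gaussian exponential moments. -/

open MeasureTheory Metric Set Filter Topology ProbabilityTheory
open Pool.Agent.Helper934.PlankDefs
open H780GP (V Lf GG mu phi gam)

namespace Pool.Agent.H508R2.PL

theorem gexp_one (η : ℝ) (h1 : η < 1) :
    Integrable (fun x : ℝ => Real.exp (η / 2 * x ^ 2)) (gaussianReal 0 1) := by
  rw [gaussianReal_of_var_ne_zero _ one_ne_zero]
  have hm : Measurable (gaussianPDF 0 1) := measurable_gaussianPDF 0 1
  rw [integrable_withDensity_iff_integrable_smul' hm (ae_of_all _ fun x => gaussianPDF_lt_top)]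
  have h2 : (fun x : ℝ => (gaussianPDF 0 1 x).toReal • Real.exp (η / 2 * x ^ 2)) =
      fun x => (√(2 * Real.pi))⁻¹ * Real.exp (-((1 - η) / 2) * x ^ 2) := by
    funext x
    rw [toReal_gaussianPDF]
    unfold gaussianPDFReal
    rw [smul_eq_mul, mul_assoc, ← Real.exp_add]
    simp only [NNReal.coe_one, mul_one, sub_zero]
    congr 2
    ring
  rw [h2]
  exact (integrable_exp_neg_mul_sq (by linarith)).const_mul _

theorem gexp_pi (n : ℕ) (η : ℝ) (h1 : η < 1) :
    Integrable (fun x : Fin n → ℝ => Real.exp (η / 2 * ∑ i, x i ^ 2)) (gam n) := by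
  have h2 : (fun x : Fin n → ℝ => Real.exp (η / 2 * ∑ i, x i ^ 2)) =
      fun x => ∏ i, Real.exp (η / 2 * x i ^ 2) := by
    funext x
    rw [Finset.mul_sum, Real.exp_sum]
  rw [h2]
  unfold H780GP.gam
  exact Integrable.fintype_prod (f := fun _ (x : ℝ) => Real.exp (η / 2 * x ^ 2))
    (fun _ => gexp_one η h1)

theorem t_GEXP : S_GEXP := by
  intro n d η _ h1
  have h2 : (fun w : V n d => Real.exp (η / 2 * (∑ i, w.1 i ^ 2 + ∑ k, w.2 k ^ 2))) =
      fun w => Real.exp (η / 2 * ∑ i, w.1 i ^ 2) * Real.exp (η / 2 * ∑ k, w.2 k ^ 2) := by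
    funext w
    rw [mul_add, Real.exp_add]
  rw [h2]
  unfold H780GP.mu
  have : IsProbabilityMeasure (gam n) := by unfold H780GP.gam; infer_instance
  have : IsProbabilityMeasure (gam d) := by unfold H780GP.gam; infer_instance
  exact (gexp_pi n η h1).mul_prod (gexp_pi d η h1)

end Pool.Agent.H508R2.PL
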