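import Pool.Agent.H508R2.PL.Stm2
import Pool.Agent.H780R2.GP.GP

open MeasureTheory Metric Set Filter Topology ProbabilityTheory
open H780GP (V Lf GG mu phi gam gp_gam gp_eval gp_memLp_eval gp_memLp_lin gp_mean gp_sq)

namespace Pool.Agent.H508R2.PL

theorem GGV_cross (n : ℕ) (i j : Fin n) (hij : i ≠ j) : ∫ g, g i * g j ∂(gam n) = 0 := by
  have h := integral_fintype_prod_eq_prod (𝕜 := ℝ) (μ := fun _ : Fin n => gaussianReal 0 1)
    (f := fun k x => if k = i ∨ k = j then x else 1)
  have h1 : (fun g : Fin n → ℝ => ∏ k, (if k = i ∨ k = j then g k else 1)) =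
      fun g => g i * g j := by
    funext g
    rw [Finset.prod_ite, Finset.prod_const_one, mul_one]
    have : (Finset.univ.filter fun k => k = i ∨ k = j) = {i, j} := by
      ext k; simp
    rw [this, Finset.prod_pair hij]
  unfold gam
  rw [← h1]
  rw [h]
  apply Finset.prod_eq_zero (Finset.mem_univ i)
  simp only [true_or, if_true]
  exact integral_id_gaussianReal

theorem GGV_lin (n : ℕ) (l : (Fin n → ℝ) →ₗ[ℝ] ℝ) :
    ∫ g, (l g) ^ 2 ∂(gam n) = ∑ i, (l (Pi.single i 1)) ^ 2 := by
  have h : ∀ g : Fin n → ℝ, l g = ∑ i, l (Pi.single i 1) * g i := by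
    intro g
    conv_lhs => rw [LinearMap.pi_apply_eq_sum_univ l g]
    refine Finset.sum_congr rfl fun i _ => ?_
    rw [smul_eq_mul, mul_comm]
    congr 2
    funext j
    simp [Pi.single_apply, eq_comm]
  have h2 : (fun g : Fin n → ℝ => (l g) ^ 2) = fun g => ∑ i, ∑ j,
      (l (Pi.single i 1) * l (Pi.single j 1)) * (g i * g j) := by
    funext g
    rw [h g, sq, Finset.sum_mul_sum]
    refine Finset.sum_congr rfl fun i _ => Finset.sum_congr rfl fun j _ => ?_
    ring
  have := gp_gam n
  have hint : ∀ i j : Fin n, Integrable (fun g : Fin n → ℝ => g i * g j) (gam n) :=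
    fun i j => (gp_memLp_eval n i).integrable_mul (gp_memLp_eval n j)
  rw [h2, integral_finsetSum _ (fun i _ => integrable_finsetSum _
    fun j _ => (hint i j).const_mul _)]
  refine Finset.sum_congr rfl fun i _ => ?_
  rw [integral_finsetSum _ (fun j _ => (hint i j).const_mul _)]
  rw [Finset.sum_eq_single i]
  · rw [integral_const_mul]
    have : (fun g : Fin n → ℝ => g i * g i) = fun g => g i ^ 2 := by
      funext g; ring
    rw [this, gp_sq]
    ring
  · intro j _ hji
    rw [integral_const_mul, GGV_cross n i j (Ne.symm hji), mul_zero]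
  · intro h; exact absurd (Finset.mem_univ i) h

theorem t_GGV : S_GGV := by
  intro n d l ε k
  have := gp_gam n
  have := gp_gam d
  have hf : MemLp (fun w : V n d => l k w.1) 2 (mu n d) :=
    (gp_memLp_lin n (l k)).comp_measurePreserving measurePreserving_fst
  have hg : MemLp (fun w : V n d => w.2 k) 2 (mu n d) :=
    (gp_memLp_eval d k).comp_measurePreserving measurePreserving_snd
  have e1 : Integrable (fun w : V n d => (l k w.1) ^ 2) (mu n d) := hf.integrable_sq
  have e2 : Integrable (fun w : V n d => (w.2 k) ^ 2) (mu n d) := hg.integrable_sq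
  have e3 : Integrable (fun w : V n d => l k w.1 * w.2 k) (mu n d) := hf.integrable_mul hg
  have h3 : ∫ w : V n d, l k w.1 * w.2 k ∂(mu n d) = 0 := by
    unfold mu
    have h := integral_prod_mul (μ := gam n) (ν := gam d) (fun x => l k x)
      (fun y : Fin d → ℝ => y k)
    rw [h, gp_mean, mul_zero]
  have h2 : ∫ w : V n d, (w.2 k) ^ 2 ∂(mu n d) = 1 := by
    unfold mu
    have h := integral_prod_mul (μ := gam n) (ν := gam d) (fun _ => (1 : ℝ))
      (fun y : Fin d → ℝ => y k ^ 2)
    simp only [one_mul] at h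
    rw [h, gp_sq]
    simp
  have h1 : ∫ w : V n d, (l k w.1) ^ 2 ∂(mu n d) = ∑ i, (l k (Pi.single i 1)) ^ 2 := by
    unfold mu
    have h := integral_prod_mul (μ := gam n) (ν := gam d) (fun x => (l k x) ^ 2)
      (fun _ : Fin d → ℝ => (1 : ℝ))
    simp only [mul_one] at h
    rw [h, GGV_lin]
    simp
  have h : GG l ε k k = ∫ w : V n d, ((l k w.1) ^ 2 + (2 * ε) * (l k w.1 * w.2 k) +
      ε ^ 2 * (w.2 k) ^ 2) ∂(mu n d) := by
    unfold GG Lf
    refine integral_congr_ae (Filter.Eventually.of_forall fun w => ?_)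
    show _ = _
    ring
  have e4 : Integrable (fun w : V n d => (2 * ε) * (l k w.1 * w.2 k)) (mu n d) := e3.const_mul _
  have e5 : Integrable (fun w : V n d => ε ^ 2 * (w.2 k) ^ 2) (mu n d) := e2.const_mul _
  have e6 : Integrable (fun w : V n d => (l k w.1) ^ 2 + (2 * ε) * (l k w.1 * w.2 k))
      (mu n d) := e1.add e4
  rw [h, integral_add e6 e5, integral_add e1 e4, integral_const_mul, integral_const_mul, h3, h2,
    h1]
  ring

end Pool.Agent.H508R2.PL
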