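import Pool.Agent.H508R2.PL.Stm

/-!
# INR: the bound in terms of the inradius
-/

open MeasureTheory Metric Set Filter Topology
open Pool.Agent.Helper934.PlankDefs

namespace Pool.Agent.H508R2.PL

open Pool.Agent.Helper934.PlankMain in
theorem t_INR (hBALLZ : S_BALLZ) : S_INR := by
  intro d K k hd hb
  have hd1 : 1 ≤ d := by omega
  have hw := minWidth_pos hd1 hb
  obtain ⟨e, he⟩ := exists_unit hd1
  refine le_csInf (show Set.Nonempty {c : ℝ | ∃ (m : ℕ) (θ : Fin m → EuclideanSpace ℝ (Fin d))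
    (a b : Fin m → ℝ), IsFoldCover K k θ a b ∧ c = (∑ i, (b i - a i)) / minWidth K} from
    ⟨_, k, _, _, _, trivial_cover hb k e he, rfl⟩) ?_
  rintro _ ⟨m, θ, a, b, hc, rfl⟩
  have key : ∀ ρ : ℝ, 0 < ρ → ρ < inradius K → vd d * ρ * k ≤ ∑ i, (b i - a i) := by
    intro ρ h1 h2
    obtain ⟨g, hg⟩ := ball_of_lt hb h2
    exact hBALLZ d m g ρ k θ a b hd h1 ⟨hc.1, hc.2.1, fun x hx => hc.2.2 x (hg hx)⟩
  have hpos := inradius_pos hd1 hb
  have c1 : Tendsto (fun r : ℝ => vd d * r * k) (𝓝[<] (inradius K))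
      (𝓝 (vd d * inradius K * k)) := by
    apply tendsto_nhdsWithin_of_tendsto_nhds
    have : Continuous (fun r : ℝ => vd d * r * k) := by fun_prop
    exact this.tendsto _
  have total : vd d * inradius K * k ≤ ∑ i, (b i - a i) := by
    apply le_of_tendsto c1
    have : Ioo 0 (inradius K) ∈ 𝓝[<] (inradius K) := Ioo_mem_nhdsLT hpos
    filter_upwards [this] with r hr
    exact key r hr.1 hr.2
  rw [div_mul_eq_mul_div]
  exact div_le_div_of_nonneg_right total hw.le

end Pool.Agent.H508R2.PL
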