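import Pool.Agent.H508R2.PL.Stm2

set_option autoImplicit false
open MeasureTheory Metric Set Filter Topology
open Pool.Agent.Helper934.PlankDefs
open H780GP (V Lf GG mu phi)

namespace Pool.Agent.H508R2.PL

theorem JJ_left (a : ℝ) (ha : 0 < a) :
    Tendsto (fun M : ℕ => ((M + 1 : ℝ)) ^ ⌈(M + 1 : ℝ) * a⌉₊ *
      ((1 + (M + 1 : ℝ)) ^ ⌈(M + 1 : ℝ) * a⌉₊)⁻¹) atTop (𝓝 (Real.exp (-a))) := by
  have hM : Tendsto (fun M : ℕ => (M + 1 : ℝ)) atTop atTop :=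
    tendsto_atTop_add_const_right _ _ tendsto_natCast_atTop_atTop
  have e1 : Tendsto (fun M : ℕ => (⌈a * (M + 1 : ℝ)⌉₊ : ℝ) / (M + 1 : ℝ)) atTop (𝓝 a) :=
    (tendsto_nat_ceil_mul_div_atTop (R := ℝ) ha.le).comp hM
  have e2 : Tendsto (fun M : ℕ => (M + 1 : ℝ) * Real.log (1 + 1 / (M + 1 : ℝ))) atTop (𝓝 1) :=
    (Real.tendsto_mul_log_one_add_div_atTop 1).comp hM
  have e3 := (Real.continuous_exp.tendsto _).comp ((e1.mul e2).neg)
  rw [mul_one] at e3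
  refine e3.congr fun M => ?_
  have hM0 : (0 : ℝ) < M + 1 := by positivity
  have h1 : (M + 1 : ℝ) ^ ⌈(M + 1 : ℝ) * a⌉₊ * ((1 + (M + 1 : ℝ)) ^ ⌈(M + 1 : ℝ) * a⌉₊)⁻¹ =
      (Real.exp (-Real.log (1 + 1 / (M + 1 : ℝ)))) ^ ⌈(M + 1 : ℝ) * a⌉₊ := by
    rw [Real.exp_neg, Real.exp_log (by positivity), ← inv_pow, ← mul_pow]
    congr 1
    field_simp
    ring
  rw [h1, ← Real.exp_nat_mul]
  simp only [Function.comp]
  congr 1
  rw [mul_comm a]
  field_simp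

theorem t_JJ (hMM : S_MM) (hPHIL : S_PHIL) (hPB : H780GP.S_PB) (hNZ : H780GP.S_NZ)
    (hGP : H780GP.S_GP) : S_JJ := by
  intro n d l ε hε a ha
  haveI : IsProbabilityMeasure (mu n d) := by
    unfold mu H780GP.gam
    infer_instance
  have hG := hGP n d l ε hε
  have hp : ∀ (M : ℕ) (k : Fin d), 1 ≤ ⌈(M + 1 : ℝ) * a k⌉₊ := fun M k => by
    rw [Nat.one_le_ceil_iff]
    have := ha k
    positivity
  have hLm : ∀ k, Measurable (fun w : V n d => Lf l ε k w) := by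
    intro k
    have hc : Continuous (l k) := (l k).continuous_of_finiteDimensional
    unfold Lf
    have h1 : Continuous fun w : V n d => l k w.1 := hc.comp continuous_fst
    have h2 : Continuous fun w : V n d => ε * w.2 k := by fun_prop
    exact (h1.add h2).measurable
  let F : ℕ → V n d → ℝ := fun M w => ∏ k, ((M + 1 : ℝ) ^ ⌈(M + 1 : ℝ) * a k⌉₊ *
    phi (M + 1 : ℝ) ⌈(M + 1 : ℝ) * a k⌉₊ (GG l ε k k) (Lf l ε k w))
  have hfac : ∀ (M : ℕ) (k : Fin d) (x : ℝ),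
      0 ≤ (M + 1 : ℝ) ^ ⌈(M + 1 : ℝ) * a k⌉₊ *
        phi (M + 1 : ℝ) ⌈(M + 1 : ℝ) * a k⌉₊ (GG l ε k k) x ∧
      (M + 1 : ℝ) ^ ⌈(M + 1 : ℝ) * a k⌉₊ *
        phi (M + 1 : ℝ) ⌈(M + 1 : ℝ) * a k⌉₊ (GG l ε k k) x ≤ 1 := by
    intro M k x
    have hM0 : (0 : ℝ) < M + 1 := by positivity
    obtain ⟨h1, h2⟩ := (hPB (M + 1 : ℝ) ⌈(M + 1 : ℝ) * a k⌉₊ (GG l ε k k) hM0 (hp M k) (hG k)).2 x
    refine ⟨mul_nonneg (by positivity) h1, ?_⟩
    have h3 : (0 : ℝ) < (M + 1 : ℝ) ^ ⌈(M + 1 : ℝ) * a k⌉₊ := by positivity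
    calc _ ≤ (M + 1 : ℝ) ^ ⌈(M + 1 : ℝ) * a k⌉₊ * ((M + 1 : ℝ) ^ ⌈(M + 1 : ℝ) * a k⌉₊)⁻¹ :=
          mul_le_mul_of_nonneg_left h2 h3.le
      _ = 1 := mul_inv_cancel₀ h3.ne'
  have hlim : Tendsto (fun M => ∫ w, F M w ∂(mu n d)) atTop
      (𝓝 (∫ w, Real.exp (-(1 / 2) * ∑ k, GG l ε k k * (a k / Lf l ε k w) ^ 2) ∂(mu n d))) := by
    refine tendsto_integral_of_dominated_convergence (fun _ => (1 : ℝ)) (fun M => ?_)
      (integrable_const 1) (fun M => ?_) ?_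
    · refine Measurable.aestronglyMeasurable ?_
      refine Finset.measurable_fun_prod _ fun k _ => ?_
      have hM0 : (0 : ℝ) < M + 1 := by positivity
      exact measurable_const.mul ((hPB (M + 1 : ℝ) ⌈(M + 1 : ℝ) * a k⌉₊ (GG l ε k k) hM0
        (hp M k) (hG k)).1.comp (hLm k))
    · refine Filter.Eventually.of_forall fun w => ?_
      have h0 : 0 ≤ F M w := Finset.prod_nonneg fun k _ => (hfac M k _).1
      rw [Real.norm_eq_abs, abs_of_nonneg h0]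
      exact Finset.prod_le_one (fun k _ => (hfac M k _).1) fun k _ => (hfac M k _).2
    · filter_upwards [hNZ n d l ε hε] with w hw
      have h1 : Tendsto (fun M => F M w) atTop
          (𝓝 (∏ k, Real.exp (-(1 / 2) * (GG l ε k k * (a k / Lf l ε k w) ^ 2)))) := by
        refine tendsto_finsetProd _ fun k _ => ?_
        have h2 := (hPHIL (a k) (GG l ε k k) (Lf l ε k w) (ha k) (hG k) (hw k)).comp
          (tendsto_add_atTop_nat 1)
        refine h2.congr fun M => ?_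
        simp only [Function.comp, Nat.cast_add, Nat.cast_one]
      have h3 : ∏ k, Real.exp (-(1 / 2) * (GG l ε k k * (a k / Lf l ε k w) ^ 2)) =
          Real.exp (-(1 / 2) * ∑ k, GG l ε k k * (a k / Lf l ε k w) ^ 2) := by
        rw [← Real.exp_sum, Finset.mul_sum]
      rw [h3] at h1
      exact h1
  have hleft : Tendsto (fun M : ℕ => ∏ k, ((M + 1 : ℝ) ^ ⌈(M + 1 : ℝ) * a k⌉₊ *
      ((1 + (M + 1 : ℝ)) ^ ⌈(M + 1 : ℝ) * a k⌉₊)⁻¹)) atTop (𝓝 (Real.exp (-∑ k, a k))) := by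
    have h1 := tendsto_finsetProd (Finset.univ : Finset (Fin d))
      (fun k _ => JJ_left (a k) (ha k))
    have h2 : ∏ k, Real.exp (-a k) = Real.exp (-∑ k, a k) := by
      rw [← Real.exp_sum, Finset.sum_neg_distrib]
    rw [h2] at h1
    exact h1
  refine le_of_tendsto_of_tendsto' hleft hlim fun M => ?_
  have hM0 : (0 : ℝ) < M + 1 := by positivity
  have h1 := hMM n d l ε (M + 1 : ℝ) hε hM0 (fun k => ⌈(M + 1 : ℝ) * a k⌉₊) (hp M)
  rw [Finset.prod_mul_distrib]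
  have h2 : ∫ w, F M w ∂(mu n d) = (∏ k, (M + 1 : ℝ) ^ ⌈(M + 1 : ℝ) * a k⌉₊) *
      ∫ w, (∏ k, phi (M + 1 : ℝ) ⌈(M + 1 : ℝ) * a k⌉₊ (GG l ε k k) (Lf l ε k w)) ∂(mu n d) := by
    rw [← integral_const_mul]
    refine integral_congr_ae (Filter.Eventually.of_forall fun w => ?_)
    simp only [F]
    rw [Finset.prod_mul_distrib]
  rw [h2]
  exact mul_le_mul_of_nonneg_left h1 (Finset.prod_nonneg fun k _ => by positivity)

end Pool.Agent.H508R2.PL
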