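import Pool.Agent.H508R2.PL.Stm

/-!
Task LAYER: the integral of `g p (max f f)` against a product measure.
-/

open MeasureTheory Metric Set Filter Topology

namespace Pool.Agent.H508R2.PL

/-- the tail integral of `t ^ (-2)` -/
theorem LAYER_tail (c : ℝ) (hc : 0 < c) :
    ∫⁻ t in Ioi c, ENNReal.ofReal (t ^ (-2 : ℝ)) = ENNReal.ofReal c⁻¹ := by
  have h1 : IntegrableOn (fun t : ℝ => t ^ (-2 : ℝ)) (Ioi c) :=
    integrableOn_Ioi_rpow_of_lt (by norm_num) hc
  have h2 : ∫ t in Ioi c, t ^ (-2 : ℝ) = c⁻¹ := by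
    rw [integral_Ioi_rpow_of_lt (by norm_num) hc]
    have h3 : (-2 : ℝ) + 1 = -1 := by norm_num
    rw [h3, Real.rpow_neg_one]
    ring
  rw [← h2, ofReal_integral_eq_lintegral_ofReal h1]
  refine (ae_restrict_iff' measurableSet_Ioi).mpr (Eventually.of_forall fun t ht => ?_)
  exact Real.rpow_nonneg (le_of_lt (lt_trans hc ht)) _

/-- the indicator of `f x < t` -/
noncomputable def LAYER_ind {Ω : Type} (f : Ω → ℝ) (x : Ω) (t : ℝ) : ENNReal :=
  if f x < t then 1 else 0

theorem LAYER_ind_meas {Ω : Type} [MeasurableSpace Ω] (f : Ω → ℝ) (hf : Measurable f) :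
    Measurable (fun q : Ω × ℝ => LAYER_ind f q.1 q.2) := by
  unfold LAYER_ind
  refine Measurable.ite ?_ measurable_const measurable_const
  exact measurableSet_lt (hf.comp measurable_fst) measurable_snd

theorem LAYER_ind_meas1 {Ω : Type} [MeasurableSpace Ω] (f : Ω → ℝ) (hf : Measurable f) (t : ℝ) :
    Measurable (fun x : Ω => LAYER_ind f x t) :=
  (LAYER_ind_meas f hf).comp (measurable_id.prodMk measurable_const)

theorem LAYER_ind_meas2 {Ω : Type} (f : Ω → ℝ) (x : Ω) :
    Measurable (fun t : ℝ => LAYER_ind f x t) := by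
  unfold LAYER_ind
  refine Measurable.ite ?_ measurable_const measurable_const
  exact measurableSet_lt measurable_const measurable_id

theorem LAYER_ind_int {Ω : Type} [MeasurableSpace Ω] (μ : Measure Ω) (f : Ω → ℝ)
    (hf : Measurable f) (t : ℝ) : ∫⁻ x, LAYER_ind f x t ∂μ = μ {x | f x < t} := by
  have h1 : MeasurableSet {x | f x < t} := measurableSet_lt hf measurable_const
  rw [← lintegral_indicator_one h1]
  refine lintegral_congr fun x => ?_
  unfold LAYER_ind
  by_cases h : f x < t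
  · rw [if_pos h, indicator_of_mem (by exact h)]; rfl
  · rw [if_neg h, indicator_of_notMem (by exact h)]

/-- pointwise bound -/
theorem LAYER_point {Ω : Type} (f : Ω → ℝ) (p : ℝ) (hp : 0 < p) (x y : Ω) :
    ENNReal.ofReal (g p (max (f x) (f y))) ≤
      ∫⁻ t in Ioi (0 : ℝ), ENNReal.ofReal (2 * p) * ENNReal.ofReal (t ^ (-2 : ℝ))
        * LAYER_ind f x t * LAYER_ind f y t := by
  set s := max (f x) (f y) with hs
  set c := max s (2 * p) with hc
  have hc0 : 0 < c := lt_of_lt_of_le (by linarith) (le_max_right s (2 * p))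
  have h1 : g p s = 2 * p * c⁻¹ := by
    unfold g
    by_cases h : s ≤ 2 * p
    · rw [if_pos h, hc, max_eq_right h, mul_inv_cancel₀ (by positivity : (2 * p) ≠ 0)]
    · rw [if_neg h, hc, max_eq_left (le_of_lt (not_le.mp h)), div_eq_mul_inv]
  rw [h1, ENNReal.ofReal_mul (by linarith), ← LAYER_tail c hc0, ← lintegral_const_mul']
  · calc ∫⁻ t in Ioi c, ENNReal.ofReal (2 * p) * ENNReal.ofReal (t ^ (-2 : ℝ))
        = ∫⁻ t in Ioi c, ENNReal.ofReal (2 * p) * ENNReal.ofReal (t ^ (-2 : ℝ))
          * LAYER_ind f x t * LAYER_ind f y t := by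
          refine setLIntegral_congr_fun measurableSet_Ioi fun t ht => ?_
          have hx : f x < t := lt_of_le_of_lt (le_trans (le_max_left _ _) (le_max_left _ _)) ht
          have hy : f y < t := lt_of_le_of_lt (le_trans (le_max_right _ _) (le_max_left _ _)) ht
          unfold LAYER_ind
          simp only [if_pos hx, if_pos hy, mul_one]
      _ ≤ _ := lintegral_mono_set (Ioi_subset_Ioi hc0.le)
  · exact ENNReal.ofReal_ne_top

/-- the final one-dimensional integral -/
theorem LAYER_num (l : ℝ) (hl : 0 < l) :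
    ∫⁻ t in Ioi (0 : ℝ), ENNReal.ofReal (t ^ (-2 : ℝ)) * ENNReal.ofReal (min 1 (l * t)) ^ 2
      ≤ ENNReal.ofReal (2 * l) := by
  have hu : Ioi (0 : ℝ) = Ioc 0 l⁻¹ ∪ Ioi l⁻¹ := by
    rw [Ioc_union_Ioi_eq_Ioi (inv_pos.mpr hl).le]
  rw [hu]
  refine le_trans (lintegral_union_le _ _ _) ?_
  have h1 : ∫⁻ t in Ioc 0 l⁻¹, ENNReal.ofReal (t ^ (-2 : ℝ)) * ENNReal.ofReal (min 1 (l * t)) ^ 2
      ≤ ENNReal.ofReal l := by
    calc ∫⁻ t in Ioc 0 l⁻¹, ENNReal.ofReal (t ^ (-2 : ℝ)) * ENNReal.ofReal (min 1 (l * t)) ^ 2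
        ≤ ∫⁻ _ in Ioc 0 l⁻¹, ENNReal.ofReal (l ^ 2) := by
          refine setLIntegral_mono measurable_const fun t ht => ?_
          have ht0 : 0 < t := ht.1
          rw [← ENNReal.ofReal_pow (le_min zero_le_one (by positivity)),
            ← ENNReal.ofReal_mul (Real.rpow_nonneg ht0.le _)]
          apply ENNReal.ofReal_le_ofReal
          have h2 : t ^ (-2 : ℝ) = (t ^ 2)⁻¹ := by
            rw [Real.rpow_neg ht0.le]
            norm_num
          rw [h2]
          have h3 : min 1 (l * t) ^ 2 ≤ (l * t) ^ 2 :=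
            pow_le_pow_left₀ (le_min zero_le_one (by positivity)) (min_le_right _ _) 2
          calc (t ^ 2)⁻¹ * min 1 (l * t) ^ 2 ≤ (t ^ 2)⁻¹ * (l * t) ^ 2 :=
                mul_le_mul_of_nonneg_left h3 (by positivity)
            _ = l ^ 2 := by field_simp
      _ = ENNReal.ofReal l := by
          rw [setLIntegral_const, Real.volume_Ioc, sub_zero, ← ENNReal.ofReal_mul (by positivity)]
          congr 1
          field_simp
  have h2 : ∫⁻ t in Ioi l⁻¹, ENNReal.ofReal (t ^ (-2 : ℝ)) * ENNReal.ofReal (min 1 (l * t)) ^ 2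
      ≤ ENNReal.ofReal l := by
    calc ∫⁻ t in Ioi l⁻¹, ENNReal.ofReal (t ^ (-2 : ℝ)) * ENNReal.ofReal (min 1 (l * t)) ^ 2
        ≤ ∫⁻ t in Ioi l⁻¹, ENNReal.ofReal (t ^ (-2 : ℝ)) := by
          refine lintegral_mono fun t => ?_
          calc ENNReal.ofReal (t ^ (-2 : ℝ)) * ENNReal.ofReal (min 1 (l * t)) ^ 2
              ≤ ENNReal.ofReal (t ^ (-2 : ℝ)) * 1 := by
                refine mul_le_mul_right (pow_le_one₀ zero_le ?_) _
                exact le_trans (ENNReal.ofReal_le_ofReal (min_le_left _ _))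
                  (le_of_eq ENNReal.ofReal_one)
            _ = _ := mul_one _
      _ = ENNReal.ofReal l := by
          rw [LAYER_tail _ (inv_pos.mpr hl), inv_inv]
  calc _ ≤ ENNReal.ofReal l + ENNReal.ofReal l := add_le_add h1 h2
    _ = ENNReal.ofReal (2 * l) := by
        rw [← ENNReal.ofReal_add hl.le hl.le, two_mul]

theorem t_LAYER : S_LAYER := by
  intro Ω _ μ _ f hf h0 l p hl hp hμ
  rcases hp.eq_or_lt with hp0 | hp0
  · -- `p = 0`
    subst hp0
    have h1 : μ {x | f x ≤ 0} = 0 := by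
      have h2 := hμ 0 le_rfl
      rw [mul_zero, ENNReal.ofReal_zero, zero_mul] at h2
      exact le_antisymm h2 zero_le
    have h3 : ∀ x, ∫⁻ y, ENNReal.ofReal (g 0 (max (f x) (f y))) ∂μ = 0 := by
      intro x
      rw [← h1, ← lintegral_indicator_one (measurableSet_le hf measurable_const)]
      rw [lintegral_indicator_one (measurableSet_le hf measurable_const), h1]
      apply le_antisymm _ zero_le
      rw [← h1, ← lintegral_indicator_one (measurableSet_le hf measurable_const)]
      refine lintegral_mono fun y => ?_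
      unfold g
      by_cases h : max (f x) (f y) ≤ 2 * 0
      · rw [if_pos h, indicator_of_mem (by
          show f y ≤ 0
          rw [mul_zero] at h
          exact le_trans (le_max_right _ _) h)]
        simp
      · rw [if_neg h]
        simp
    rw [lintegral_congr h3]
    simp
  -- `p > 0`
  set H : ℝ → ENNReal := fun t => ENNReal.ofReal (2 * p) * ENNReal.ofReal (t ^ (-2 : ℝ)) with hH
  set m : ℝ → ENNReal := fun t => ENNReal.ofReal (min 1 (l * t)) * μ univ with hm
  have hHm : Measurable H := by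
    refine measurable_const.mul (ENNReal.measurable_ofReal.comp ?_)
    exact measurable_id.pow_const _
  have hmm : Measurable m := by
    refine (ENNReal.measurable_ofReal.comp ?_).mul measurable_const
    exact measurable_const.min (measurable_const.mul measurable_id)
  have hmb : ∀ t ∈ Ioi (0 : ℝ), ∫⁻ x, LAYER_ind f x t ∂μ ≤ m t := by
    intro t ht
    have ht' : (0 : ℝ) < t := ht
    rw [LAYER_ind_int μ f hf t, hm]
    show μ {x | f x < t} ≤ ENNReal.ofReal (min 1 (l * t)) * μ univ
    rcases le_total 1 (l * t) with h | h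
    · rw [min_eq_left h, ENNReal.ofReal_one, one_mul]
      exact measure_mono (subset_univ _)
    · rw [min_eq_right h]
      refine le_trans (measure_mono fun x hx => ?_) (hμ t ht'.le)
      exact le_of_lt (show f x < t from hx)
  have hstep : ∀ K : ℝ → ENNReal, Measurable K →
      ∫⁻ y, (∫⁻ t in Ioi (0 : ℝ), K t * LAYER_ind f y t) ∂μ ≤ ∫⁻ t in Ioi (0 : ℝ), K t * m t := by
    intro K hK
    rw [lintegral_lintegral_swap]
    · refine setLIntegral_mono' measurableSet_Ioi fun t ht => ?_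
      rw [lintegral_const_mul _ (LAYER_ind_meas1 f hf t)]
      exact mul_le_mul_right (hmb t ht) _
    · exact ((hK.comp measurable_snd).mul (LAYER_ind_meas f hf)).aemeasurable
  calc ∫⁻ x, ∫⁻ y, ENNReal.ofReal (g p (max (f x) (f y))) ∂μ ∂μ
      ≤ ∫⁻ x, ∫⁻ y, (∫⁻ t in Ioi (0 : ℝ), (H t * LAYER_ind f x t) * LAYER_ind f y t) ∂μ ∂μ :=
        lintegral_mono fun x => lintegral_mono fun y => LAYER_point f p hp0 x y
    _ ≤ ∫⁻ x, (∫⁻ t in Ioi (0 : ℝ), (H t * LAYER_ind f x t) * m t) ∂μ :=
        lintegral_mono fun x => hstep _ (hHm.mul (LAYER_ind_meas2 f x))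
    _ = ∫⁻ x, (∫⁻ t in Ioi (0 : ℝ), (H t * m t) * LAYER_ind f x t) ∂μ := by
        refine lintegral_congr fun x => lintegral_congr fun t => ?_
        ring
    _ ≤ ∫⁻ t in Ioi (0 : ℝ), (H t * m t) * m t := hstep _ (hHm.mul hmm)
    _ = ENNReal.ofReal (2 * p) * μ univ ^ 2 *
        ∫⁻ t in Ioi (0 : ℝ), ENNReal.ofReal (t ^ (-2 : ℝ)) * ENNReal.ofReal (min 1 (l * t)) ^ 2 := by
        rw [← lintegral_const_mul']
        · refine lintegral_congr fun t => ?_
          simp only [hH, hm]
          ring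
        · exact ENNReal.mul_ne_top ENNReal.ofReal_ne_top
            (ENNReal.pow_ne_top (measure_ne_top μ univ))
    _ ≤ ENNReal.ofReal (2 * p) * μ univ ^ 2 * ENNReal.ofReal (2 * l) :=
        mul_le_mul_right (LAYER_num l hl) _
    _ = ENNReal.ofReal (4 * l * p) * μ univ ^ 2 := by
        rw [mul_right_comm, ← ENNReal.ofReal_mul (by linarith)]
        congr 2
        ring

end Pool.Agent.H508R2.PL
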