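import Pool.Agent.H508R2.PL.Stm
import Pool.Agent.Helper934.PlankMain

/-!
Multiple plank coverings (MP_4043ba_gt): `c_K(k)/k` converges to its infimum.
-/

open MeasureTheory Metric Set Filter Topology
open Pool.Agent.Helper934.PlankDefs

namespace Pool.Agent.H508R2.PL

theorem t_LIM (hSUB : S_SUB) : S_LIM := by
  intro d K hd hK
  have hw := (Pool.Agent.Helper934.PlankMain.minWidth_pos hd hK).le
  have h : Subadditive (fun k : ℕ => coverConst K k) := fun k l => hSUB d K k l hd hK
  have hb : BddBelow (range fun n : ℕ => coverConst K n / (n : ℝ)) := by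
    refine ⟨0, ?_⟩
    rintro _ ⟨n, rfl⟩
    exact div_nonneg (Pool.Agent.Helper934.PlankMain.coverConst_nonneg hw n) (Nat.cast_nonneg n)
  refine ⟨h.lim, h.tendsto_lim hb, ?_⟩
  intro k
  rcases Nat.eq_zero_or_pos k with rfl | hk
  · simpa using Pool.Agent.Helper934.PlankMain.coverConst_nonneg hw 0
  · have h1 := h.lim_le_div hb hk.ne'
    rwa [le_div_iff₀ (by exact_mod_cast hk)] at h1

end Pool.Agent.H508R2.PL
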