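import Pool.Agent.H508R2.PL.Stm

open MeasureTheory Metric Set Filter Topology
open Pool.Agent.Helper934.PlankDefs
open Pool.Agent.Helper934.PlankSupp Pool.Agent.Helper934.PlankMain

namespace Pool.Agent.H508R2.PL

namespace LowerAux

lemma measurable_g (p : ℝ) : Measurable (g p) := by
  unfold g
  exact Measurable.ite (measurableSet_le measurable_id measurable_const) measurable_const
    (measurable_const.div measurable_id)

lemma measurable_absinner {n : ℕ} (θ : E n) : Measurable (fun z : E n => |inner ℝ z θ|) := by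
  have : Continuous (fun z : E n => |inner ℝ z θ|) := by fun_prop
  exact this.measurable

lemma lint_sum {α ι : Type*} [MeasurableSpace α] (μ : Measure α) [SFinite μ] [Fintype ι]
    (F : ι → α × α → ENNReal) (hF : ∀ i, Measurable (F i)) :
    ∫⁻ x, ∫⁻ y, ∑ i, F i (x, y) ∂μ ∂μ = ∑ i, ∫⁻ x, ∫⁻ y, F i (x, y) ∂μ ∂μ := by
  rw [← lintegral_finsetSum]
  · apply lintegral_congr
    intro x
    rw [lintegral_finsetSum]
    intro i _
    exact (hF i).comp measurable_prodMk_left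
  · intro i _
    exact Measurable.lintegral_prod_right' (hF i)

end LowerAux

open LowerAux

theorem t_LOWER (hDIFF : S_DIFF) (hDET : S_DET) (hLAYER : S_LAYER) (hSLAB : S_SLAB)
    (hRATIO : S_RATIO) : S_LOWER := by
  intro d K k hd hb
  obtain ⟨n, rfl⟩ : ∃ n, d = n + 1 := ⟨d - 1, by omega⟩
  have hn : 1 ≤ n := by omega
  have hd1 : 1 ≤ n + 1 := by omega
  have hw : 0 < minWidth K := minWidth_pos hd1 hb
  set w := minWidth K with hwdef
  set B : Set (E (n + 1)) := closedBall 0 w with hB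
  set μ : Measure (E (n + 1)) := volume.restrict B with hμ
  have hvfin : volume B < ⊤ := (isCompact_closedBall _ _).measure_lt_top
  have hvpos : 0 < volume B := (measure_ball_pos volume (0 : E (n + 1)) hw).trans_le
    (measure_mono ball_subset_closedBall)
  have hμuniv : μ univ = volume B := by rw [hμ, Measure.restrict_apply_univ]
  have : IsFiniteMeasure μ := ⟨by rw [hμuniv]; exact hvfin⟩
  have hBmeas : MeasurableSet B := measurableSet_closedBall
  set l : ℝ := 2 * Real.sqrt ((n + 2) / (2 * Real.pi)) / w with hl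
  have hpi := Real.pi_pos
  have hlpos : 0 < l := by
    rw [hl]; positivity
  -- total width
  have key : ∀ (m : ℕ) (θ : Fin m → E (n + 1)) (a b : Fin m → ℝ), IsFoldCover K k θ a b →
      (k : ℝ) ≤ 4 * l * ∑ i, (b i - a i) := by
    intro m θ a b hc
    have hp : ∀ i, 0 ≤ b i - a i := fun i => sub_nonneg.mpr (hc.2.1 i)
    have h1 : ∀ z₁ ∈ B, ∀ z₂ ∈ B,
        (k : ℝ) ≤ ∑ i, g (b i - a i) (max |inner ℝ z₁ (θ i)| |inner ℝ z₂ (θ i)|) := by
      intro z₁ hz₁ z₂ hz₂
      rw [hB, mem_closedBall_zero_iff] at hz₁ hz₂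
      obtain ⟨x₁, hx₁, y₁, hy₁, e1⟩ := hDIFF (n + 1) K hd1 hb z₁ hz₁
      obtain ⟨x₂, hx₂, y₂, hy₂, e2⟩ := hDIFF (n + 1) K hd1 hb z₂ hz₂
      have := hDET (n + 1) K k m θ a b hb.2.1 hc x₁ hx₁ y₁ hy₁ x₂ hx₂ y₂ hy₂
      rwa [e1, e2] at this
    have hg0 : ∀ p s : ℝ, 0 ≤ p → 0 ≤ g p s := by
      intro p s hp
      unfold g
      split_ifs with h
      · norm_num
      · exact div_nonneg (by linarith) (by linarith)
    have h2 : ∀ z₁ ∈ B, ∀ z₂ ∈ B, (k : ENNReal) ≤
        ∑ i, ENNReal.ofReal (g (b i - a i) (max |inner ℝ z₁ (θ i)| |inner ℝ z₂ (θ i)|)) := by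
      intro z₁ hz₁ z₂ hz₂
      rw [← ENNReal.ofReal_sum_of_nonneg (fun i _ => hg0 _ _ (hp i)), ← ENNReal.ofReal_natCast]
      exact ENNReal.ofReal_le_ofReal (h1 z₁ hz₁ z₂ hz₂)
    have hae : ∀ᵐ x ∂μ, x ∈ B := ae_restrict_mem hBmeas
    have hmeas2 : ∀ i, Measurable (fun q : E (n + 1) × E (n + 1) =>
        ENNReal.ofReal (g (b i - a i) (max |inner ℝ q.1 (θ i)| |inner ℝ q.2 (θ i)|))) := by
      intro i
      apply ENNReal.measurable_ofReal.comp
      apply (measurable_g _).comp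
      exact ((measurable_absinner (θ i)).comp measurable_fst).max
        ((measurable_absinner (θ i)).comp measurable_snd)
    have h3 : ∫⁻ _x, ∫⁻ _y, (k : ENNReal) ∂μ ∂μ ≤
        ∫⁻ x, ∫⁻ y, ∑ i, ENNReal.ofReal (g (b i - a i) (max |inner ℝ x (θ i)| |inner ℝ y (θ i)|))
          ∂μ ∂μ := by
      apply lintegral_mono_ae
      filter_upwards [hae] with x hx
      apply lintegral_mono_ae
      filter_upwards [hae] with y hy
      exact h2 x hx y hy
    have h4 : ∫⁻ x, ∫⁻ y, ∑ i, ENNReal.ofReal (g (b i - a i) (max |inner ℝ x (θ i)| |inner ℝ y (θ i)|))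
          ∂μ ∂μ = ∑ i, ∫⁻ x, ∫⁻ y, ENNReal.ofReal
            (g (b i - a i) (max |inner ℝ x (θ i)| |inner ℝ y (θ i)|)) ∂μ ∂μ := by
      exact lint_sum μ (fun i (q : E (n + 1) × E (n + 1)) =>
        ENNReal.ofReal (g (b i - a i) (max |inner ℝ q.1 (θ i)| |inner ℝ q.2 (θ i)|))) hmeas2
    have h5 : ∀ i, ∫⁻ x, ∫⁻ y, ENNReal.ofReal
            (g (b i - a i) (max |inner ℝ x (θ i)| |inner ℝ y (θ i)|)) ∂μ ∂μ ≤
          ENNReal.ofReal (4 * l * (b i - a i)) * μ univ ^ 2 := by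
      intro i
      apply hLAYER (E (n + 1)) μ (fun z => |inner ℝ z (θ i)|) (measurable_absinner (θ i))
        (fun x => abs_nonneg _) l (b i - a i) hlpos (hp i)
      intro s hs
      have e1 : μ {x | |inner ℝ x (θ i)| ≤ s} =
          volume (closedBall (0 : E (n + 1)) w ∩ {z | |inner ℝ z (θ i)| ≤ s}) := by
        rw [hμ, Measure.restrict_apply' hBmeas, inter_comm]
      rw [e1, hμuniv]
      refine (hSLAB n (θ i) w s (hc.1 i) hw.le hs).trans ?_
      have hR := hRATIO n w hn hw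
      calc ENNReal.ofReal (2 * s) * volume (closedBall (0 : E n) w)
          ≤ ENNReal.ofReal (2 * s) * (ENNReal.ofReal (Real.sqrt ((n + 2) / (2 * Real.pi)) / w) *
            volume (closedBall (0 : E (n + 1)) w)) := by gcongr
        _ = ENNReal.ofReal (l * s) * volume B := by
            rw [← mul_assoc, ← ENNReal.ofReal_mul (by positivity)]
            congr 2
            rw [hl]; ring
    have h6 : ∫⁻ _x, ∫⁻ _y, (k : ENNReal) ∂μ ∂μ = (k : ENNReal) * μ univ ^ 2 := by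
      simp only [lintegral_const]
      ring
    have h7 : (k : ENNReal) * μ univ ^ 2 ≤ ENNReal.ofReal (4 * l * ∑ i, (b i - a i)) * μ univ ^ 2 := by
      rw [← h6]
      refine h3.trans ?_
      rw [h4]
      refine (Finset.sum_le_sum fun i _ => h5 i).trans ?_
      rw [← Finset.sum_mul, ← ENNReal.ofReal_sum_of_nonneg (fun i _ => by
        have := hp i; positivity), ← Finset.mul_sum]
    have hne0 : μ univ ^ 2 ≠ 0 := pow_ne_zero _ (by rw [hμuniv]; exact hvpos.ne')
    have hnet : μ univ ^ 2 ≠ ⊤ := ENNReal.pow_ne_top (by rw [hμuniv]; exact hvfin.ne)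
    have h8 : (k : ENNReal) ≤ ENNReal.ofReal (4 * l * ∑ i, (b i - a i)) :=
      (ENNReal.mul_le_mul_iff_left hne0 hnet).mp h7
    rw [← ENNReal.ofReal_natCast] at h8
    have hnn : 0 ≤ 4 * l * ∑ i, (b i - a i) := by
      have := Finset.sum_nonneg (fun i (_ : i ∈ Finset.univ) => hp i)
      positivity
    exact (ENNReal.ofReal_le_ofReal_iff hnn).mp h8
  obtain ⟨e, he⟩ := exists_unit hd1
  refine le_csInf (show Set.Nonempty {c : ℝ | ∃ (m : ℕ) (θ : Fin m → EuclideanSpace ℝ (Fin (n + 1)))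
    (a b : Fin m → ℝ), IsFoldCover K k θ a b ∧ c = (∑ i, (b i - a i)) / minWidth K} from
    ⟨_, k, _, _, _, trivial_cover hb k e he, rfl⟩) ?_
  rintro _ ⟨m, θ, a, b, hc, rfl⟩
  have h := key m θ a b hc
  set P := ∑ i, (b i - a i) with hP
  have hP0 : 0 ≤ P := Finset.sum_nonneg (fun i _ => sub_nonneg.mpr (hc.2.1 i))
  have hn1 : (1 : ℝ) ≤ n := by exact_mod_cast hn
  have hsq : 2 * Real.sqrt ((n + 2) / (2 * Real.pi)) ≤ Real.sqrt ((n + 1 : ℕ) : ℝ) := by
    apply Real.le_sqrt_of_sq_le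
    rw [mul_pow, Real.sq_sqrt (by positivity), mul_div_assoc', div_le_iff₀ (by positivity)]
    have := Real.pi_gt_three
    push_cast
    nlinarith
  have hs0 : 0 < Real.sqrt ((n + 1 : ℕ) : ℝ) := Real.sqrt_pos.mpr (by positivity)
  rw [div_le_div_iff₀ (by positivity) hw]
  have h9 : (k : ℝ) * w ≤ 4 * (2 * Real.sqrt ((n + 2) / (2 * Real.pi))) * P := by
    calc (k : ℝ) * w ≤ (4 * l * P) * w := by gcongr
      _ = _ := by rw [hl]; field_simp
  calc (k : ℝ) * w ≤ 4 * (2 * Real.sqrt ((n + 2) / (2 * Real.pi))) * P := h9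
    _ ≤ 4 * Real.sqrt ((n + 1 : ℕ) : ℝ) * P := by gcongr
    _ = _ := by ring

end Pool.Agent.H508R2.PL
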