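import Pool.Agent.H780R2.GP.Main
import Pool.Agent.H508R2.PL.Stm2

set_option autoImplicit false
open MeasureTheory ProbabilityTheory

namespace H508MM

open H780GP

/-- `S_AB` for all `δ > 0`. -/
def S_AB2 : Prop := ∀ (n d : ℕ) (l : Fin d → ((Fin n → ℝ) →ₗ[ℝ] ℝ)) (ε δ : ℝ), 0 < ε → 0 < δ →
  ∀ p q : Fin d → ℕ, Integrable (FF l ε δ p q) (PP n d) →
  ∫ Z, FF l ε δ p q Z ∂(PP n d) = ∏ k, (if q k = 0 then (((1 + δ : ℝ) : ℂ) ^ (p k))⁻¹ else 0)

open ABaux in
lemma den_ne2 {δ : ℝ} (hδ : 0 < δ) {x : ℝ} (θ : ℝ) (hx : x ≠ 0) {v : ℂ}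
    (hv : ‖v‖ ≤ 1) :
    (1 + (δ : ℂ)) * ((x : ℂ) + Complex.I * (θ : ℂ)) - (1 - (δ : ℂ)) *
          v ^ 2 * ((x : ℂ) - Complex.I * (θ : ℂ)) ≠ 0 := by
  intro h
  rw [sub_eq_zero] at h
  have h2 := congrArg norm h
  rw [norm_mul, norm_mul, norm_mul, norm_pow, normz] at h2
  have hz : 0 < ‖(x : ℂ) + Complex.I * (θ : ℂ)‖ := norm_pos_iff.mpr (z_ne θ hx)
  have h3 : ‖(1 + (δ : ℂ))‖ = 1 + δ := by
    have : (1 + (δ : ℂ)) = ((1 + δ : ℝ) : ℂ) := by push_cast; ring
    rw [this, Complex.norm_real, Real.norm_of_nonneg (by linarith)]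
  have h4 : ‖(1 - (δ : ℂ))‖ = |1 - δ| := by
    have : (1 - (δ : ℂ)) = ((1 - δ : ℝ) : ℂ) := by push_cast; ring
    rw [this, Complex.norm_real, Real.norm_eq_abs]
  rw [h3, h4] at h2
  have h5 : ‖v‖ ^ 2 ≤ 1 := pow_le_one₀ (norm_nonneg _) hv
  have h7 : |1 - δ| < 1 + δ := by
    rw [abs_lt]; constructor <;> linarith
  have h6 : |1 - δ| * ‖v‖ ^ 2 ≤ |1 - δ| := by nlinarith [abs_nonneg (1 - δ)]
  nlinarith [mul_le_mul_of_nonneg_right h6 hz.le]

open ABaux in
lemma HH_diff2 {δ : ℝ} (hδ : 0 < δ) (p q : ℕ) {x : ℝ} (θ : ℝ) (hx : x ≠ 0) :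
    DiffContOnCl ℂ (HH δ p q x θ) (Metric.ball 0 1) := by
  have hcl : closure (Metric.ball (0 : ℂ) 1) = Metric.closedBall 0 1 :=
    closure_ball _ one_ne_zero
  apply DifferentiableOn.diffContOnCl
  rw [hcl]
  intro v hv
  have hv' : ‖v‖ ≤ 1 := by simpa using hv
  have hd := den_ne2 hδ θ hx hv'
  unfold HH
  apply DifferentiableAt.differentiableWithinAt
  refine DifferentiableAt.div ?_ ?_ (pow_ne_zero _ hd)
  · fun_prop
  · fun_prop


open ABaux in
theorem t_AB2 (hMV : S_MV) (hNZ : S_NZ) : S_AB2 := by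
  intro n d l ε δ hε hδ p q hint
  have hnz : ∀ᵐ Z ∂(PP n d), ∀ k, Lf l ε k Z.1 ≠ 0 := by
    have h1 := hNZ n d l ε hε
    have h2 : Filter.Tendsto (Prod.fst : V n d × V n d → V n d) (ae (PP n d)) (ae (mu n d)) := by
      unfold PP
      exact Measure.quasiMeasurePreserving_fst.tendsto_ae
    exact h2.eventually h1
  have key := hMV n d (FF l ε δ p q)
    (fun Z v => ∏ k, HH δ (p k) (q k) (Lf l ε k Z.1) (Lf l ε k Z.2) v)
    (meas_FF l ε δ p q) hint ?_
  · rw [key]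
    have : ∀ᵐ Z ∂(PP n d), (∏ k, HH δ (p k) (q k) (Lf l ε k Z.1) (Lf l ε k Z.2) 0)
        = ∏ k, (if q k = 0 then (((1 + δ : ℝ) : ℂ) ^ (p k))⁻¹ else 0) := by
      filter_upwards [hnz] with Z hZ
      exact Finset.prod_congr rfl (fun k _ => HH_zero hδ _ _ _ (hZ k))
    rw [integral_congr_ae this]
    have hp : IsProbabilityMeasure (PP n d) := by
      unfold PP mu gam
      infer_instance
    rw [integral_const]
    simp
  · filter_upwards [hnz] with Z hZ
    refine ⟨?_, ?_⟩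
    · have hall : ∀ k, DiffContOnCl ℂ (HH δ (p k) (q k) (Lf l ε k Z.1) (Lf l ε k Z.2))
          (Metric.ball 0 1) := fun k => HH_diff2 hδ _ _ _ (hZ k)
      constructor
      · have := fun k => (hall k).differentiableOn
        exact DifferentiableOn.fun_finsetProd (fun k _ => this k)
      · exact continuousOn_finsetProd _ (fun k _ => (hall k).continuousOn)
    · intro t
      unfold FF
      refine Finset.prod_congr rfl (fun k _ => ?_)
      rw [Lf_rot1, Lf_rot2, fac_rot]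
      rfl


open P_M1 in
theorem t_MM (hKEY : S_KEY) (hAB : S_AB2) (hI0 : S_I0) (hI2 : S_I2) (hNZ : S_NZ) (hPB : S_PB)
    (hGP : S_GP) : Pool.Agent.H508R2.PL.S_MM := by
  intro n d l ε δ hε hδ p hp
  haveI := prob_mu n d
  let A : (Fin d → ℕ) → V n d → ℂ := fun q w =>
    ∫ h, (∏ k, fac δ (p k) (q k) (Lf l ε k w) (Lf l ε k h)) ∂(mu n d)
  have hA : ∀ q, Integrable (FF l ε δ p q) (PP n d) → Integrable (fun w => (A q w).re) (mu n d) ∧
      ∫ w, (A q w).re ∂(mu n d) = (∏ k, (if q k = 0 then (((1 + δ : ℝ) : ℂ) ^ (p k))⁻¹ else 0) : ℂ).re := by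
    intro q hq
    have h1 : Integrable (A q) (mu n d) := by
      have h2 : Integrable (FF l ε δ p q) ((mu n d).prod (mu n d)) := hq
      exact h2.integral_prod_left
    have h3 : ∫ Z, FF l ε δ p q Z ∂(PP n d) = ∫ w, A q w ∂(mu n d) := by
      have h2 : Integrable (FF l ε δ p q) ((mu n d).prod (mu n d)) := hq
      unfold PP
      rw [integral_prod _ h2]
      rfl
    refine ⟨h1.re, ?_⟩
    rw [← hAB n d l ε δ hε hδ p q hq, h3]
    exact integral_re h1
  obtain ⟨h0i, h0v⟩ := hA (fun _ => 0) (hI0 n d l ε δ hε hδ p)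
  have h0v' : ∫ w, (A (fun _ => 0) w).re ∂(mu n d) = ∏ k, ((1 + δ) ^ (p k))⁻¹ := by
    rw [h0v]
    simp only [if_true]
    have : (∏ k, (((1 + δ : ℝ) : ℂ) ^ (p k))⁻¹ : ℂ) = ((∏ k, ((1 + δ) ^ (p k))⁻¹ : ℝ) : ℂ) := by
      push_cast
      rfl
    rw [this, Complex.ofReal_re]
  have h2 : ∀ i j : Fin d, i ≠ j → Integrable (fun w => (A (qq i j) w).re) (mu n d) ∧
      ∫ w, (A (qq i j) w).re ∂(mu n d) = 0 := by
    intro i j hij
    obtain ⟨h3, h4⟩ := hA (qq i j) (hI2 n d l ε δ hε hδ p hp i j hij)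
    refine ⟨h3, ?_⟩
    rw [h4, Finset.prod_eq_zero (Finset.mem_univ i)]
    · simp
    · rw [if_neg]
      simp [qq]
  -- the left hand side
  let c : Fin d → Fin d → ℝ := fun i j => GG l ε i j * p i * p j
  let T : Fin d → Fin d → V n d → ℝ := fun i j w =>
    if i = j then 0 else c i j * (A (qq i j) w).re
  have hT : ∀ i j, Integrable (T i j) (mu n d) ∧ ∫ w, T i j w ∂(mu n d) = 0 := by
    intro i j
    by_cases hij : i = j
    · have : T i j = fun _ => 0 := by
        funext w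
        simp only [T]
        rw [if_pos hij]
      rw [this]
      exact ⟨integrable_zero _ _ _, integral_zero _ _⟩
    · have : T i j = fun w => c i j * (A (qq i j) w).re := by
        funext w
        simp only [T]
        rw [if_neg hij]
      rw [this]
      refine ⟨(h2 i j hij).1.const_mul _, ?_⟩
      rw [integral_const_mul, (h2 i j hij).2, mul_zero]
  have hS : Integrable (fun w => ∑ i, ∑ j, T i j w) (mu n d) :=
    integrable_finsetSum _ fun i _ => integrable_finsetSum _ fun j _ => (hT i j).1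
  have hSv : ∫ w, ∑ i, ∑ j, T i j w ∂(mu n d) = 0 := by
    rw [integral_finsetSum _ fun i _ => integrable_finsetSum _ fun j _ => (hT i j).1]
    apply Finset.sum_eq_zero
    intro i _
    rw [integral_finsetSum _ fun j _ => (hT i j).1]
    exact Finset.sum_eq_zero fun j _ => (hT i j).2
  have hL : Integrable (fun w => (A (fun _ => 0) w).re + (1 / 2) * ∑ i, ∑ j, T i j w) (mu n d) :=
    h0i.add (hS.const_mul _)
  have hLv : ∫ w, ((A (fun _ => 0) w).re + (1 / 2) * ∑ i, ∑ j, T i j w) ∂(mu n d) =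
      ∏ k, ((1 + δ) ^ (p k))⁻¹ := by
    rw [integral_add h0i (hS.const_mul _), integral_const_mul, hSv, h0v']
    ring
  -- the right hand side
  have hR : Integrable (fun w => ∏ k, phi δ (p k) (GG l ε k k) (Lf l ε k w)) (mu n d) := by
    have hm : Measurable (fun w : V n d => ∏ k, phi δ (p k) (GG l ε k k) (Lf l ε k w)) := by
      apply Finset.measurable_fun_prod
      intro k _
      exact (hPB δ (p k) (GG l ε k k) hδ (hp k) (hGP n d l ε hε k)).1.comp (cont_Lf l ε k).measurable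
    refine Integrable.of_bound hm.aestronglyMeasurable (∏ k, (δ ^ (p k))⁻¹) ?_
    refine Filter.Eventually.of_forall fun w => ?_
    rw [Real.norm_eq_abs, Finset.abs_prod]
    apply Finset.prod_le_prod
    · intro k _
      exact abs_nonneg _
    · intro k _
      have h := (hPB δ (p k) (GG l ε k k) hδ (hp k) (hGP n d l ε hε k)).2 (Lf l ε k w)
      rw [abs_of_nonneg h.1]
      exact h.2
  rw [← hLv]
  apply integral_mono_ae hL hR
  filter_upwards [hNZ n d l ε hε] with w hw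
  have h := hKEY n d l ε δ hε hδ p hp (fun k => Lf l ε k w) hw
  exact h



theorem mm : Pool.Agent.H508R2.PL.S_MM :=
  t_MM (t_KEY (t_FH t_CHF t_VN) t_VN) (t_AB2 (t_MV t_ROT) t_NZ) t_I0 t_I2 t_NZ t_PB t_GP

end H508MM

namespace Pool.Agent.H508R2.PL
theorem t_MM : S_MM := H508MM.mm
end Pool.Agent.H508R2.PL
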