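import Pool.Agent.H508R2.PL.Stm

/-!
NET: discretisation of the uniform distribution of directions.
-/

open MeasureTheory Metric Set Filter Topology

namespace Pool.Agent.H508R2.PL

private theorem net_cover {d : ℕ} {η : ℝ} (hη : 0 < η) :
    ∃ (N : ℕ) (θ : Fin N → E d), (∀ j, ‖θ j‖ = 1) ∧
      ∀ z : E d, 0 < ‖z‖ → ∃ j, ‖z - ‖z‖ • θ j‖ < η * ‖z‖ := by
  obtain ⟨t, hts, htf, hcov⟩ := (isCompact_sphere (0 : E d) 1).finite_cover_balls hη
  refine ⟨htf.toFinset.card, fun j => (htf.toFinset.equivFin.symm j : E d), ?_, ?_⟩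
  · intro j
    have h1 : ((htf.toFinset.equivFin.symm j : htf.toFinset) : E d) ∈ t :=
      htf.mem_toFinset.1 (htf.toFinset.equivFin.symm j).2
    have h2 := hts h1
    rwa [mem_sphere_zero_iff_norm] at h2
  · intro z hz
    have h1 : ‖z‖⁻¹ • z ∈ sphere (0 : E d) 1 := by
      rw [mem_sphere_zero_iff_norm, norm_smul, norm_inv, norm_norm, inv_mul_cancel₀ hz.ne']
    have h2 := hcov h1
    rw [mem_iUnion₂] at h2
    obtain ⟨y, hy, hzy⟩ := h2
    refine ⟨htf.toFinset.equivFin ⟨y, htf.mem_toFinset.2 hy⟩, ?_⟩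
    simp only [Equiv.symm_apply_apply]
    rw [mem_ball, dist_eq_norm] at hzy
    have h3 : z - ‖z‖ • y = ‖z‖ • (‖z‖⁻¹ • z - y) := by
      rw [smul_sub, smul_smul, mul_inv_cancel₀ hz.ne', one_smul]
    show ‖z - ‖z‖ • y‖ < η * ‖z‖
    rw [h3, norm_smul, norm_norm, mul_comm]
    exact mul_lt_mul_of_pos_right hzy hz

theorem t_NET : S_NET := by
  classical
  intro d η hd hη
  obtain ⟨N, θ, hθ, hcov⟩ := net_cover (d := d) hη
  have : Nonempty (Fin d) := ⟨⟨0, hd⟩⟩
  let B : Fin N → Set (E d) := fun j =>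
    {z | ‖z‖ ≤ 1 ∧ 0 < ‖z‖ ∧ ‖z - ‖z‖ • θ j‖ < η * ‖z‖}
  let A : Fin N → Set (E d) := fun j => B j ∩ ⋂ i : {i : Fin N // i < j}, (B i)ᶜ
  have hBm : ∀ j, MeasurableSet (B j) := by
    intro j
    have e : B j = {z | ‖z‖ ≤ 1} ∩ ({z | 0 < ‖z‖} ∩ {z | ‖z - ‖z‖ • θ j‖ < η * ‖z‖}) := by
      ext z; rfl
    rw [e]
    refine MeasurableSet.inter ?_ (MeasurableSet.inter ?_ ?_)
    · exact (isClosed_le continuous_norm continuous_const).measurableSet
    · exact (isOpen_lt continuous_const continuous_norm).measurableSet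
    · exact (isOpen_lt (by fun_prop) (by fun_prop)).measurableSet
  have hAm : ∀ j, MeasurableSet (A j) := fun j =>
    (hBm j).inter (MeasurableSet.iInter fun i => (hBm i).compl)
  have hAsub : ∀ j, A j ⊆ closedBall (0 : E d) 1 := by
    intro j z hz
    rw [mem_closedBall_zero_iff]
    exact hz.1.1
  have hfin : ∀ j, volume (A j) ≠ ⊤ := fun j =>
    ne_top_of_le_ne_top measure_closedBall_lt_top.ne (measure_mono (hAsub j))
  have hdis : Pairwise (Function.onFun Disjoint A) := by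
    have key : ∀ i j, i < j → Disjoint (A i) (A j) := by
      intro i j hij
      rw [Set.disjoint_left]
      intro z hz hz'
      have h1 := mem_iInter.1 hz'.2 ⟨i, hij⟩
      exact h1 hz.1
    intro i j hij
    rcases lt_or_gt_of_ne hij with h | h
    · exact key i j h
    · exact (key j i h).symm
  refine ⟨N, θ, fun j => (volume (A j)).toReal, hθ, fun j => ENNReal.toReal_nonneg, ?_, ?_⟩
  · rw [← ENNReal.toReal_sum (fun j _ => hfin j)]
    unfold kap
    refine ENNReal.toReal_mono measure_closedBall_lt_top.ne ?_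
    have h1 : volume (⋃ j, A j) = ∑ j, volume (A j) := by
      rw [measure_iUnion hdis hAm, tsum_fintype]
    rw [← h1]
    exact measure_mono (iUnion_subset hAsub)
  · intro x τ hx hτ
    set F : Finset (Fin N) := Finset.univ.filter (fun j => |inner ℝ (θ j) x| ≤ τ + η) with hF
    have hsub : {z : E d | ‖z‖ ≤ 1 ∧ |inner ℝ z x| ≤ τ * ‖z‖} ⊆ {0} ∪ ⋃ j ∈ F, A j := by
      intro z hz
      obtain ⟨hz1, hz2⟩ := hz
      by_cases hz0 : z = 0
      · exact Or.inl hz0
      · right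
        have hzp : 0 < ‖z‖ := norm_pos_iff.2 hz0
        have hex : ∃ j, z ∈ B j := by
          obtain ⟨j, hj⟩ := hcov z hzp
          exact ⟨j, hz1, hzp, hj⟩
        have hne : (Finset.univ.filter (fun j => z ∈ B j)).Nonempty := by
          obtain ⟨j, hj⟩ := hex
          exact ⟨j, Finset.mem_filter.2 ⟨Finset.mem_univ _, hj⟩⟩
        obtain ⟨j, hj, hjmin⟩ := Finset.exists_min_image _ (fun j : Fin N => j) hne
        have hjB := (Finset.mem_filter.1 hj).2
        have hjA : z ∈ A j := by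
          refine ⟨hjB, mem_iInter.2 ?_⟩
          rintro ⟨i, hi⟩ hzi
          have h2 := hjmin i (Finset.mem_filter.2 ⟨Finset.mem_univ _, hzi⟩)
          exact absurd h2 (not_le.2 hi)
        refine mem_iUnion₂.2 ⟨j, ?_, hjA⟩
        rw [hF, Finset.mem_filter]
        refine ⟨Finset.mem_univ _, ?_⟩
        have h3 : ‖z‖ * inner ℝ (θ j) x = inner ℝ z x - inner ℝ (z - ‖z‖ • θ j) x := by
          rw [inner_sub_left, real_inner_smul_left]; ring
        have h4 : |inner ℝ (z - ‖z‖ • θ j) x| ≤ η * ‖z‖ := by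
          refine le_trans (abs_real_inner_le_norm _ _) ?_
          calc ‖z - ‖z‖ • θ j‖ * ‖x‖ ≤ ‖z - ‖z‖ • θ j‖ * 1 :=
                mul_le_mul_of_nonneg_left hx (norm_nonneg _)
            _ ≤ η * ‖z‖ := by rw [mul_one]; exact hjB.2.2.le
        have h5 : ‖z‖ * |inner ℝ (θ j) x| ≤ ‖z‖ * (τ + η) := by
          rw [← abs_of_pos hzp, ← abs_mul, abs_of_pos hzp, h3]
          refine le_trans (abs_sub _ _) ?_
          nlinarith [hz2, h4]
        exact le_of_mul_le_mul_left h5 hzp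
    have hv0 : volume ({0} : Set (E d)) = 0 := measure_singleton _
    have h1 : volume {z : E d | ‖z‖ ≤ 1 ∧ |inner ℝ z x| ≤ τ * ‖z‖} ≤ ∑ j ∈ F, volume (A j) := by
      refine le_trans (measure_mono hsub) ?_
      refine le_trans (measure_union_le _ _) ?_
      rw [hv0, zero_add]
      exact measure_biUnion_finset_le _ _
    have h2 : (∑ j ∈ F, volume (A j)) ≠ ⊤ := ENNReal.sum_ne_top.2 (fun j _ => hfin j)
    refine le_trans (ENNReal.toReal_mono h2 h1) (le_of_eq ?_)
    rw [ENNReal.toReal_sum (fun j _ => hfin j), hF, Finset.sum_filter]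

end Pool.Agent.H508R2.PL
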