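import Pool.Agent.H508R2.PL.Stm2

/-! PHIL: concentration of the Gamma distribution. -/

set_option autoImplicit false

open MeasureTheory Metric Set Filter Topology
open H780GP (V Lf GG mu phi)

namespace Pool.Agent.H508R2.PL

namespace PHIL

lemma gamma_int (M : ℝ) (hM : 0 < M) (n : ℕ) :
    ∫ t in Ioi (0 : ℝ), t ^ n * Real.exp (-(M * t)) = (Nat.factorial n : ℝ) / M ^ (n + 1) := by
  have h := Real.integral_rpow_mul_exp_neg_mul_Ioi (a := (n : ℝ) + 1) (r := M) (by positivity) hM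
  rw [Real.Gamma_nat_eq_factorial, show ((n : ℝ) + 1) = ((n + 1 : ℕ) : ℝ) by push_cast; ring,
    Real.rpow_natCast] at h
  rw [show (Nat.factorial n : ℝ) / M ^ (n + 1) = (1 / M) ^ (n + 1) * (Nat.factorial n : ℝ) by
    rw [one_div, inv_pow]; field_simp, ← h]
  refine setIntegral_congr_fun measurableSet_Ioi fun t _ => ?_
  rw [show (((n + 1 : ℕ) : ℝ) - 1) = (n : ℝ) by push_cast; ring, Real.rpow_natCast]

lemma gamma_integrable (M : ℝ) (hM : 0 < M) (n : ℕ) :
    IntegrableOn (fun t : ℝ => t ^ n * Real.exp (-(M * t))) (Ioi 0) := by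
  by_contra h
  have h1 := gamma_int M hM n
  rw [integral_undef h] at h1
  have h2 : 0 < (Nat.factorial n : ℝ) / M ^ (n + 1) := by positivity
  linarith

/-- the estimate for a fixed `M` -/
lemma est (M : ℝ) (hM : 0 < M) (n : ℕ) (a c ε : ℝ) (ha : 0 < a) (hc : 0 < c) (hε : 0 < ε) :
    |M ^ (n + 1) / (Nat.factorial n : ℝ) *
        (∫ t in Ioi (0 : ℝ), t ^ n * Real.exp (-(M * t)) * Real.exp (-(c * t ^ 2))) -
      Real.exp (-(c * a ^ 2))| ≤
    c * (1 + a / ε) * (((n : ℝ) + 1) / M ^ 2 + (((n : ℝ) + 1) / M - a) ^ 2) + c * a * ε := by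
  set K : ℝ := M ^ (n + 1) / (Nat.factorial n : ℝ) with hK
  have hKpos : 0 < K := by positivity
  set h0 : ℝ := Real.exp (-(c * a ^ 2)) with hh0
  have i0 := gamma_integrable M hM n
  have i1 := gamma_integrable M hM (n + 1)
  have i2 := gamma_integrable M hM (n + 2)
  have v0 := gamma_int M hM n
  have v1 := gamma_int M hM (n + 1)
  have v2 := gamma_int M hM (n + 2)
  have ih : IntegrableOn (fun t : ℝ => t ^ n * Real.exp (-(M * t)) * Real.exp (-(c * t ^ 2)))
      (Ioi 0) := by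
    refine Integrable.mono i0 ?_ ?_
    · exact (by fun_prop : Continuous (fun t : ℝ =>
        t ^ n * Real.exp (-(M * t)) * Real.exp (-(c * t ^ 2)))).aestronglyMeasurable
    · refine Filter.Eventually.of_forall fun t => ?_
      rw [norm_mul]
      refine mul_le_of_le_one_right (norm_nonneg _) ?_
      rw [Real.norm_eq_abs, abs_of_pos (Real.exp_pos _)]
      exact Real.exp_le_one_iff.2 (by have := mul_nonneg hc.le (sq_nonneg t); linarith)
  -- the difference as one integral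
  have e1 : K * (∫ t in Ioi (0 : ℝ), t ^ n * Real.exp (-(M * t)) * Real.exp (-(c * t ^ 2))) - h0 =
      ∫ t in Ioi (0 : ℝ), K * (t ^ n * Real.exp (-(M * t))) * (Real.exp (-(c * t ^ 2)) - h0) := by
    have e2 : (fun t : ℝ => K * (t ^ n * Real.exp (-(M * t))) * (Real.exp (-(c * t ^ 2)) - h0)) =
        fun t : ℝ => K * (t ^ n * Real.exp (-(M * t)) * Real.exp (-(c * t ^ 2))) -
          K * h0 * (t ^ n * Real.exp (-(M * t))) := by
      funext t; ring
    rw [e2, integral_sub (ih.const_mul K) (i0.const_mul (K * h0)), integral_const_mul,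
      integral_const_mul, v0]
    have e3 : K * h0 * ((Nat.factorial n : ℝ) / M ^ (n + 1)) = h0 := by
      rw [hK]; field_simp
    rw [e3]
  rw [e1]
  -- the bound
  set g : ℝ → ℝ := fun t => K * (t ^ n * Real.exp (-(M * t))) *
    (c * (1 + a / ε) * (t - a) ^ 2 + c * a * ε) with hg
  have hgeq : g = fun t => K * c * (1 + a / ε) * (t ^ (n + 2) * Real.exp (-(M * t))) -
      K * c * (1 + a / ε) * (2 * a) * (t ^ (n + 1) * Real.exp (-(M * t))) +
      (K * c * (1 + a / ε) * a ^ 2 + K * (c * a * ε)) * (t ^ n * Real.exp (-(M * t))) := by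
    funext t
    rw [hg]
    ring
  have hgint : IntegrableOn g (Ioi 0) := by
    rw [hgeq]
    exact ((i2.const_mul _).sub (i1.const_mul _)).add (i0.const_mul _)
  have hgval : ∫ t in Ioi (0 : ℝ), g t =
      c * (1 + a / ε) * (((n : ℝ) + 1) / M ^ 2 + (((n : ℝ) + 1) / M - a) ^ 2) + c * a * ε := by
    have s1 : ∫ t in Ioi (0 : ℝ), g t = (∫ t in Ioi (0 : ℝ),
        (K * c * (1 + a / ε) * (t ^ (n + 2) * Real.exp (-(M * t))) -
        K * c * (1 + a / ε) * (2 * a) * (t ^ (n + 1) * Real.exp (-(M * t))))) +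
        ∫ t in Ioi (0 : ℝ), (K * c * (1 + a / ε) * a ^ 2 + K * (c * a * ε)) *
          (t ^ n * Real.exp (-(M * t))) := by
      rw [hgeq]
      exact integral_add ((i2.const_mul _).sub (i1.const_mul _)) (i0.const_mul _)
    rw [s1, integral_sub (i2.const_mul _) (i1.const_mul _), integral_const_mul, integral_const_mul,
      integral_const_mul, v0, v1, v2, hK, Nat.factorial_succ (n + 1), Nat.factorial_succ n]
    push_cast
    have hf : (Nat.factorial n : ℝ) ≠ 0 := by positivity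
    field_simp
    ring
  rw [← hgval, ← Real.norm_eq_abs]
  refine norm_integral_le_of_norm_le hgint ?_
  refine (ae_restrict_iff' measurableSet_Ioi).2 (Filter.Eventually.of_forall fun t ht => ?_)
  have ht0 : (0 : ℝ) < t := ht
  rw [norm_mul, Real.norm_of_nonneg (by positivity)]
  refine mul_le_mul_of_nonneg_left ?_ (by positivity)
  rw [Real.norm_eq_abs]
  -- |exp(-u) - exp(-v)| ≤ |u - v| for u, v ≥ 0
  have k1 : |Real.exp (-(c * t ^ 2)) - h0| ≤ c * |t ^ 2 - a ^ 2| := by
    have key : ∀ u v : ℝ, 0 ≤ u → u ≤ v → Real.exp (-u) - Real.exp (-v) ≤ v - u := by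
      intro u v hu huv
      have q1 : Real.exp (-v) = Real.exp (-u) * Real.exp (-(v - u)) := by
        rw [← Real.exp_add]; congr 1; ring
      have q2 : 1 - (v - u) ≤ Real.exp (-(v - u)) := by
        have := Real.add_one_le_exp (-(v - u)); linarith
      have q3 : Real.exp (-u) ≤ 1 := Real.exp_le_one_iff.2 (by linarith)
      have q4 : Real.exp (-(v - u)) ≤ 1 := Real.exp_le_one_iff.2 (by linarith)
      have q5 : 0 < Real.exp (-u) := Real.exp_pos _
      rw [q1]
      have q6 : Real.exp (-u) * (1 - Real.exp (-(v - u))) ≤ 1 * (v - u) :=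
        mul_le_mul q3 (by linarith) (by linarith) (by norm_num)
      linarith
    have hmono : ∀ u v : ℝ, u ≤ v → Real.exp (-v) ≤ Real.exp (-u) := fun u v h =>
      Real.exp_le_exp.2 (by linarith)
    have nt : 0 ≤ c * t ^ 2 := by positivity
    have na : 0 ≤ c * a ^ 2 := by positivity
    have habs : c * |t ^ 2 - a ^ 2| = |c * t ^ 2 - c * a ^ 2| := by
      rw [← mul_sub, abs_mul, abs_of_pos hc]
    rw [habs]
    rcases le_total (c * t ^ 2) (c * a ^ 2) with h | h
    · rw [abs_of_nonneg (by rw [hh0]; linarith [hmono _ _ h]), abs_of_nonpos (by linarith)]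
      have := key _ _ nt h
      linarith
    · rw [abs_of_nonpos (by rw [hh0]; linarith [hmono _ _ h]), abs_of_nonneg (by linarith)]
      have := key _ _ na h
      linarith
  have k2 : |t ^ 2 - a ^ 2| ≤ (1 + a / ε) * (t - a) ^ 2 + a * ε := by
    have k3 : |t ^ 2 - a ^ 2| = |t - a| * (t + a) := by
      rw [show t ^ 2 - a ^ 2 = (t - a) * (t + a) by ring, abs_mul, abs_of_pos (by linarith : 0 < t + a)]
    have k4 : t + a ≤ |t - a| + 2 * a := by linarith [le_abs_self (t - a)]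
    have k5 : |t - a| ^ 2 = (t - a) ^ 2 := sq_abs _
    have k6 : 2 * |t - a| ≤ (t - a) ^ 2 / ε + ε := by
      have : 0 ≤ (|t - a| - ε) ^ 2 / ε := by positivity
      rw [← k5]
      have e3 : (|t - a| - ε) ^ 2 / ε = |t - a| ^ 2 / ε - 2 * |t - a| + ε := by
        field_simp; ring
      linarith
    calc |t ^ 2 - a ^ 2| = |t - a| * (t + a) := k3
      _ ≤ |t - a| * (|t - a| + 2 * a) := mul_le_mul_of_nonneg_left k4 (abs_nonneg _)
      _ = (t - a) ^ 2 + a * (2 * |t - a|) := by rw [← k5]; ring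
      _ ≤ (t - a) ^ 2 + a * ((t - a) ^ 2 / ε + ε) := by
          have := mul_le_mul_of_nonneg_left k6 ha.le; linarith
      _ = _ := by ring
  calc |Real.exp (-(c * t ^ 2)) - h0| ≤ c * |t ^ 2 - a ^ 2| := k1
    _ ≤ c * ((1 + a / ε) * (t - a) ^ 2 + a * ε) := mul_le_mul_of_nonneg_left k2 hc.le
    _ = _ := by ring

end PHIL

theorem t_PHIL : S_PHIL := by
  intro a G x ha hG hx
  set c : ℝ := G / (2 * x ^ 2) with hc
  have hx2 : 0 < x ^ 2 := by positivity
  have hcpos : 0 < c := by positivity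
  have hexp : ∀ t : ℝ, -(1 / 2) * (G * (t / x) ^ 2) = -(c * t ^ 2) := by
    intro t
    rw [hc]
    field_simp
  rw [hexp a]
  rw [Metric.tendsto_atTop]
  intro η hη
  set ε : ℝ := η / (4 * (c * a)) with hε
  have hεpos : 0 < ε := by positivity
  set B : ℝ := c * (1 + a / ε) * (a + 2) with hB
  have hBpos : 0 < B := by positivity
  obtain ⟨N, hN⟩ := exists_nat_gt (2 * B / η)
  refine ⟨max N 1, fun M hM => ?_⟩
  have hM1 : 1 ≤ M := le_trans (le_max_right _ _) hM
  have hMN : N ≤ M := le_trans (le_max_left _ _) hM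
  have hMr : (1 : ℝ) ≤ M := by exact_mod_cast hM1
  have hMpos : (0 : ℝ) < M := by linarith
  have hp : 1 ≤ ⌈(M : ℝ) * a⌉₊ := Nat.one_le_ceil_iff.2 (by positivity)
  obtain ⟨n, hn⟩ := Nat.exists_eq_succ_of_ne_zero (by omega : ⌈(M : ℝ) * a⌉₊ ≠ 0)
  have hn' : ⌈(M : ℝ) * a⌉₊ = n + 1 := hn
  rw [hn']
  have hval : (M : ℝ) ^ (n + 1) * phi M (n + 1) G x = (M : ℝ) ^ (n + 1) / (Nat.factorial n : ℝ) *
        (∫ t in Ioi (0 : ℝ), t ^ n * Real.exp (-(M * t)) * Real.exp (-(c * t ^ 2))) := by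
    unfold phi H780GP.wt
    rw [← integral_const_mul, ← integral_const_mul]
    refine setIntegral_congr_fun measurableSet_Ioi fun t _ => ?_
    rw [hexp t, Nat.add_sub_cancel, show ((n + 1 : ℕ) : ℝ) = (n : ℝ) + 1 by push_cast; ring,
      Real.Gamma_nat_eq_factorial]
    ring
  rw [hval, Real.dist_eq]
  refine lt_of_le_of_lt (PHIL.est M hMpos n a c ε ha hcpos hεpos) ?_
  -- bounds of n + 1
  have c1 : (M : ℝ) * a ≤ (n : ℝ) + 1 := by
    have := Nat.le_ceil ((M : ℝ) * a)
    rw [hn'] at this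
    push_cast at this
    exact this
  have c2 : (n : ℝ) + 1 < (M : ℝ) * a + 1 := by
    have := Nat.ceil_lt_add_one (show 0 ≤ (M : ℝ) * a by positivity)
    rw [hn'] at this
    push_cast at this
    exact this
  have d1 : ((n : ℝ) + 1) / (M : ℝ) ^ 2 ≤ (a + 1) / M := by
    rw [div_le_div_iff₀ (by positivity) hMpos]
    nlinarith
  have d2 : (((n : ℝ) + 1) / M - a) ^ 2 ≤ 1 / M := by
    have d3 : 0 ≤ ((n : ℝ) + 1) / M - a := by
      rw [sub_nonneg, le_div_iff₀ hMpos]; linarith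
    have d4 : ((n : ℝ) + 1) / M - a ≤ 1 / M := by
      rw [sub_le_iff_le_add, div_le_iff₀ hMpos, add_mul, one_div, inv_mul_cancel₀ hMpos.ne']
      linarith
    have d5 : 1 / (M : ℝ) ≤ 1 := by rw [div_le_one hMpos]; exact hMr
    calc (((n : ℝ) + 1) / M - a) ^ 2 ≤ (1 / M) ^ 2 := pow_le_pow_left₀ d3 d4 2
      _ = (1 / M) * (1 / M) := by ring
      _ ≤ (1 / M) * 1 := mul_le_mul_of_nonneg_left d5 (by positivity)
      _ = 1 / M := mul_one _
  have d6 : c * (1 + a / ε) * (((n : ℝ) + 1) / (M : ℝ) ^ 2 + (((n : ℝ) + 1) / M - a) ^ 2) ≤ B / M := by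
    have : ((n : ℝ) + 1) / (M : ℝ) ^ 2 + (((n : ℝ) + 1) / M - a) ^ 2 ≤ (a + 2) / M := by
      have : (a + 2) / (M : ℝ) = (a + 1) / M + 1 / M := by ring
      linarith
    calc _ ≤ c * (1 + a / ε) * ((a + 2) / M) := mul_le_mul_of_nonneg_left this (by positivity)
      _ = B / M := by rw [hB]; ring
  have d7 : B / M < η / 2 := by
    have e1 : 2 * B / η < M := lt_of_lt_of_le hN (by exact_mod_cast hMN)
    rw [div_lt_iff₀ hη] at e1
    rw [div_lt_iff₀ hMpos]
    linarith
  have d8 : c * a * ε = η / 4 := by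
    rw [hε]; field_simp
  linarith

end Pool.Agent.H508R2.PL
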