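import Pool.Agent.H508R2.PL.Stm

/-! Task RAT: from weights to coverings. -/

open MeasureTheory Metric Set Filter Topology
open Pool.Agent.Helper934.PlankDefs

namespace Pool.Agent.H508R2.PL

open Pool.Agent.Helper934.PlankUpper in
theorem t_RAT : S_RAT := by
  classical
  intro d N θ c G t hθ hc hG ht hcov ε hε
  set S : ℝ := ∑ j, c j with hS
  have hS0 : 0 ≤ S := Finset.sum_nonneg fun j _ => hc j
  obtain ⟨M, hM1, hM2⟩ : ∃ M : ℕ, (2 * t * N + 2 * t * S / G + ε) ≤ ε * G * M ∧
      1 ≤ (M : ℝ) * G := by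
    obtain ⟨M, hM⟩ := exists_nat_ge (max ((2 * t * N + 2 * t * S / G + ε) / (ε * G)) (1 / G))
    refine ⟨M, ?_, ?_⟩
    · have h1 := (le_max_left _ _).trans hM
      rw [div_le_iff₀ (by positivity)] at h1
      linarith
    · have h1 := (le_max_right _ _).trans hM
      rwa [div_le_iff₀ hG] at h1
  set n : Fin N → ℕ := fun j => ⌈(M : ℝ) * c j⌉₊ with hn
  have hn1 : ∀ j, (M : ℝ) * c j ≤ n j := fun j => Nat.le_ceil _
  have hn2 : ∀ j, (n j : ℝ) ≤ (M : ℝ) * c j + 1 := fun j =>
    (Nat.ceil_lt_add_one (mul_nonneg (Nat.cast_nonneg M) (hc j))).le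
  obtain ⟨m, θ', a', b', hc', hs'⟩ := exists_fin (ι := Σ j, Fin (n j))
    (closedBall (0 : E d) 1) ⌊(M : ℝ) * G⌋₊ (fun p => θ p.1) (fun _ => -t) (fun _ => t)
    (fun p => hθ p.1) (fun _ => by linarith)
    (by
      intro x hx
      have hx1 : ‖x‖ ≤ 1 := by simpa using hx
      have hcard : Nat.card {p : (Σ j, Fin (n j)) // x ∈ plank (θ p.1) (-t) t} =
          ∑ j, Nat.card {s : Fin (n j) // x ∈ plank (θ j) (-t) t} := by
        rw [← Nat.card_sigma]
        apply Nat.card_congr
        exact ⟨fun p => ⟨p.1.1, ⟨p.1.2, p.2⟩⟩, fun q => ⟨⟨q.1, q.2.1⟩, q.2.2⟩,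
          by rintro ⟨⟨_, _⟩, _⟩; rfl, by rintro ⟨_, ⟨_, _⟩⟩; rfl⟩
      have hj : ∀ j, (M : ℝ) * (if |inner ℝ (θ j) x| ≤ t then c j else 0) ≤
          (Nat.card {s : Fin (n j) // x ∈ plank (θ j) (-t) t} : ℝ) := by
        intro j
        by_cases h : |inner ℝ (θ j) x| ≤ t
        · rw [if_pos h]
          have hall : ∀ s : Fin (n j), x ∈ plank (θ j) (-t) t := by
            intro _
            rw [real_inner_comm, abs_le] at h
            exact h
          have e : Nat.card {s : Fin (n j) // x ∈ plank (θ j) (-t) t} = n j := by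
            have h2 : Nat.card {s : Fin (n j) // x ∈ plank (θ j) (-t) t} =
                Nat.card (Fin (n j)) :=
              Nat.card_congr (Equiv.subtypeUnivEquiv hall)
            rw [h2, Nat.card_eq_fintype_card, Fintype.card_fin]
          rw [e]
          exact hn1 j
        · rw [if_neg h, mul_zero]
          exact Nat.cast_nonneg _
      have hreal : (M : ℝ) * G ≤
          ((∑ j, Nat.card {s : Fin (n j) // x ∈ plank (θ j) (-t) t} : ℕ) : ℝ) := by
        push_cast
        calc (M : ℝ) * G ≤ M * ∑ j, (if |inner ℝ (θ j) x| ≤ t then c j else 0) :=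
              mul_le_mul_of_nonneg_left (hcov x hx1) (Nat.cast_nonneg M)
          _ = ∑ j, (M : ℝ) * (if |inner ℝ (θ j) x| ≤ t then c j else 0) := by
              rw [Finset.mul_sum]
          _ ≤ _ := Finset.sum_le_sum fun j _ => hj j
      rw [hcard]
      exact Nat.floor_le_of_le hreal)
  refine ⟨⌊(M : ℝ) * G⌋₊, m, θ', a', b', ?_, hc', ?_⟩
  · exact Nat.le_floor (by exact_mod_cast hM2)
  · rw [hs']
    have hsum : ∑ _p : (Σ j, Fin (n j)), (t - -t) = 2 * t * ∑ j, (n j : ℝ) := by
      rw [Finset.sum_const, Finset.card_univ, Fintype.card_sigma, nsmul_eq_mul]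
      simp only [Fintype.card_fin]
      push_cast
      ring
    rw [hsum]
    have h1 : ∑ j, (n j : ℝ) ≤ M * S + N := by
      calc ∑ j, (n j : ℝ) ≤ ∑ j, ((M : ℝ) * c j + 1) := Finset.sum_le_sum fun j _ => hn2 j
        _ = M * S + N := by
          rw [Finset.sum_add_distrib, ← Finset.mul_sum, Finset.sum_const, Finset.card_univ,
            Fintype.card_fin, nsmul_eq_mul, mul_one]
    have h2 : (M : ℝ) * G - 1 ≤ (⌊(M : ℝ) * G⌋₊ : ℝ) := by
      have := Nat.lt_floor_add_one ((M : ℝ) * G)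
      linarith
    have h3 : 0 ≤ 2 * t * S / G + ε := by positivity
    calc 2 * t * ∑ j, (n j : ℝ) ≤ 2 * t * (M * S + N) :=
          mul_le_mul_of_nonneg_left h1 (by positivity)
      _ ≤ (2 * t * S / G + ε) * (M * G - 1) := by
          have e : (2 * t * S / G + ε) * (M * G - 1) =
              2 * t * (M * S) + ε * G * M - (2 * t * S / G + ε) := by
            field_simp
          rw [e]
          linarith
      _ ≤ (2 * t * S / G + ε) * (⌊(M : ℝ) * G⌋₊ : ℝ) := mul_le_mul_of_nonneg_left h2 h3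

end Pool.Agent.H508R2.PL
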