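import Pool.Agent.H508R2.PL.Stm

set_option autoImplicit false

open MeasureTheory Metric Set Filter Topology
open Pool.Agent.Helper934.PlankDefs

namespace Pool.Agent.H508R2.PL

namespace RATIOx

lemma gamma_half {s : ℝ} (hs : 0 < s) :
    Real.Gamma (s + 1 / 2) ≤ Real.sqrt s * Real.Gamma s := by
  have h := Real.Gamma_mul_add_mul_le_rpow_Gamma_mul_rpow_Gamma (s := s) (t := s + 1)
    (a := 1 / 2) (b := 1 / 2) hs (by linarith) (by norm_num) (by norm_num) (by norm_num)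
  have h1 : 1 / 2 * s + 1 / 2 * (s + 1) = s + 1 / 2 := by ring
  rw [h1, Real.Gamma_add_one hs.ne', ← Real.sqrt_eq_rpow, ← Real.sqrt_eq_rpow] at h
  have hG : 0 < Real.Gamma s := Real.Gamma_pos_of_pos hs
  rw [Real.sqrt_mul hs.le] at h
  have h2 : Real.sqrt (Real.Gamma s) * (Real.sqrt s * Real.sqrt (Real.Gamma s)) =
      Real.sqrt s * Real.Gamma s := by
    calc Real.sqrt (Real.Gamma s) * (Real.sqrt s * Real.sqrt (Real.Gamma s)) =
        Real.sqrt s * (Real.sqrt (Real.Gamma s) * Real.sqrt (Real.Gamma s)) := by ring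
      _ = _ := by rw [Real.mul_self_sqrt hG.le]
  rw [h2] at h
  exact h

end RATIOx

theorem t_RATIO : S_RATIO := by
  intro n R hn hR
  have : Nonempty (Fin n) := ⟨⟨0, hn⟩⟩
  rw [EuclideanSpace.volume_closedBall, EuclideanSpace.volume_closedBall]
  simp only [Fintype.card_fin]
  have hG1 : 0 < Real.Gamma ((n : ℝ) / 2 + 1) := Real.Gamma_pos_of_pos (by positivity)
  have hG2 : 0 < Real.Gamma (((n + 1 : ℕ) : ℝ) / 2 + 1) := Real.Gamma_pos_of_pos (by positivity)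
  rw [← ENNReal.ofReal_pow hR.le, ← ENNReal.ofReal_pow hR.le,
    ← ENNReal.ofReal_mul (by positivity), ← ENNReal.ofReal_mul (by positivity),
    ← ENNReal.ofReal_mul (by positivity)]
  apply ENNReal.ofReal_le_ofReal
  have h1 := RATIOx.gamma_half (s := (n : ℝ) / 2 + 1) (by positivity)
  have h2 : ((n + 1 : ℕ) : ℝ) / 2 + 1 = (n : ℝ) / 2 + 1 + 1 / 2 := by push_cast; ring
  rw [h2] at hG2 ⊢
  have hpi : 0 < Real.sqrt Real.pi := Real.sqrt_pos.mpr Real.pi_pos
  have h3 : Real.sqrt (((n : ℝ) + 2) / (2 * Real.pi)) =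
      Real.sqrt ((n : ℝ) / 2 + 1) / Real.sqrt Real.pi := by
    rw [← Real.sqrt_div' _ Real.pi_pos.le]
    congr 1
    field_simp
  rw [h3]
  have h4 : Real.sqrt ((n : ℝ) / 2 + 1) / Real.sqrt Real.pi / R * (R ^ (n + 1) *
      (Real.sqrt Real.pi ^ (n + 1) / Real.Gamma ((n : ℝ) / 2 + 1 + 1 / 2))) =
      R ^ n * Real.sqrt Real.pi ^ n *
        (Real.sqrt ((n : ℝ) / 2 + 1) / Real.Gamma ((n : ℝ) / 2 + 1 + 1 / 2)) := by
    rw [pow_succ, pow_succ]
    field_simp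
  have h5 : R ^ n * (Real.sqrt Real.pi ^ n / Real.Gamma ((n : ℝ) / 2 + 1)) =
      R ^ n * Real.sqrt Real.pi ^ n * (1 / Real.Gamma ((n : ℝ) / 2 + 1)) := by ring
  rw [h4, h5]
  refine mul_le_mul_of_nonneg_left ?_ (by positivity)
  rw [div_le_div_iff₀ hG1 hG2, one_mul]
  exact h1

end Pool.Agent.H508R2.PL
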