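import Pool.Agent.H508R2.PL.Stm

/-!
Task SCALE of `h508p_tasks`: all balls have the same covering constants.
-/

open MeasureTheory Metric Set Filter Topology
open Pool.Agent.Helper934.PlankDefs Pool.Agent.Helper934.PlankSupp
  Pool.Agent.Helper934.PlankMain

namespace Pool.Agent.H508R2.PL

namespace SCALE

lemma isConvexBody {d : ℕ} (c : E d) {ρ : ℝ} (hρ : 0 < ρ) : IsConvexBody (closedBall c ρ) := by
  refine ⟨isCompact_closedBall c ρ, convex_closedBall c ρ, ⟨c, ?_⟩⟩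
  exact ball_subset_interior_closedBall (mem_ball_self hρ)

lemma supp_ball {d : ℕ} (c : E d) {ρ : ℝ} (hρ : 0 < ρ) (u : E d) (hu : ‖u‖ = 1) :
    supp (closedBall c ρ) u = inner ℝ c u + ρ := by
  have hne : (closedBall c ρ).Nonempty := ⟨c, mem_closedBall_self hρ.le⟩
  apply le_antisymm
  · apply supp_le hne
    intro x hx
    rw [mem_closedBall, dist_eq_norm] at hx
    have h1 : inner ℝ (x - c) u ≤ ‖x - c‖ * ‖u‖ := real_inner_le_norm _ _
    rw [hu, mul_one, inner_sub_left] at h1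
    linarith
  · have h1 : c + ρ • u ∈ closedBall c ρ := by
      rw [mem_closedBall, dist_eq_norm]
      simp [norm_smul, hu, abs_of_pos hρ]
    have h2 := le_supp (isCompact_closedBall c ρ) h1 u
    rw [inner_add_left, real_inner_smul_left, real_inner_self_eq_norm_sq, hu] at h2
    linarith

lemma widthIn_ball {d : ℕ} (c : E d) {ρ : ℝ} (hρ : 0 < ρ) (u : E d) (hu : ‖u‖ = 1) :
    widthIn (closedBall c ρ) u = 2 * ρ := by
  have hne : (closedBall c ρ).Nonempty := ⟨c, mem_closedBall_self hρ.le⟩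
  rw [widthIn_eq (isCompact_closedBall c ρ) hne, supp_ball c hρ u hu,
    supp_ball c hρ (-u) (by rw [norm_neg, hu]), inner_neg_right]
  ring

lemma minWidth_ball {d : ℕ} (hd : 1 ≤ d) (c : E d) {ρ : ℝ} (hρ : 0 < ρ) :
    minWidth (closedBall c ρ) = 2 * ρ := by
  obtain ⟨e, he⟩ := exists_unit hd
  have : {w : ℝ | ∃ u : E d, ‖u‖ = 1 ∧ w = widthIn (closedBall c ρ) u} = {2 * ρ} := by
    ext w
    constructor
    · rintro ⟨u, hu, rfl⟩
      exact widthIn_ball c hρ u hu
    · rintro rfl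
      exact ⟨e, he, (widthIn_ball c hρ e he).symm⟩
  show sInf {w : ℝ | ∃ u : E d, ‖u‖ = 1 ∧ w = widthIn (closedBall c ρ) u} = 2 * ρ
  rw [this, csInf_singleton]

lemma radius_le {d : ℕ} (hd : 1 ≤ d) (c c' : E d) {ρ r : ℝ} (hr : 0 ≤ r)
    (h : closedBall c' r ⊆ closedBall c ρ) : r ≤ ρ := by
  obtain ⟨e, he⟩ := exists_unit hd
  have h1 := h (show c' + r • e ∈ closedBall c' r by
    simp [mem_closedBall, dist_eq_norm, norm_smul, he, abs_of_nonneg hr])
  have h2 := h (show c' - r • e ∈ closedBall c' r by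
    simp [mem_closedBall, dist_eq_norm, norm_smul, he, abs_of_nonneg hr])
  rw [mem_closedBall] at h1 h2
  have h3 : dist (c' + r • e) (c' - r • e) ≤ ρ + ρ :=
    (dist_triangle_right _ _ c).trans (add_le_add h1 h2)
  rw [dist_eq_norm] at h3
  have h4 : (c' + r • e) - (c' - r • e) = (2 * r) • e := by
    rw [two_mul, add_smul]; abel
  rw [h4, norm_smul, he, mul_one, Real.norm_eq_abs, abs_of_nonneg (by linarith)] at h3
  linarith

lemma inradius_ball {d : ℕ} (hd : 1 ≤ d) (c : E d) {ρ : ℝ} (hρ : 0 < ρ) :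
    inradius (closedBall c ρ) = ρ := by
  apply le_antisymm
  · apply csSup_le
    · exact ⟨ρ, hρ.le, c, Subset.rfl⟩
    · rintro r ⟨hr, c', hc'⟩
      exact radius_le hd c c' hr hc'
  · exact le_csSup ⟨ρ, by
      rintro r ⟨hr, c', hc'⟩
      exact radius_le hd c c' hr hc'⟩ ⟨hρ.le, c, Subset.rfl⟩

lemma cover_affine {d m : ℕ} (c c' : E d) {ρ ρ' : ℝ} (hρ : 0 < ρ) (hρ' : 0 < ρ') {k : ℕ}
    {θ : Fin m → E d} {a b : Fin m → ℝ} (h : IsFoldCover (closedBall c ρ) k θ a b) :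
    IsFoldCover (closedBall c' ρ') k θ
      (fun i => ρ' / ρ * (a i - inner ℝ c (θ i)) + inner ℝ c' (θ i))
      (fun i => ρ' / ρ * (b i - inner ℝ c (θ i)) + inner ℝ c' (θ i)) := by
  obtain ⟨h1, h2, h3⟩ := h
  have hq : 0 < ρ' / ρ := div_pos hρ' hρ
  refine ⟨h1, fun i => ?_, fun x hx => ?_⟩
  · have := mul_le_mul_of_nonneg_left (sub_le_sub_right (h2 i) (inner ℝ c (θ i))) hq.le
    simpa using this
  · have hy : c + (ρ / ρ') • (x - c') ∈ closedBall c ρ := by
      rw [mem_closedBall, dist_eq_norm] at hx ⊢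
      rw [add_sub_cancel_left, norm_smul, Real.norm_eq_abs, abs_of_pos (div_pos hρ hρ')]
      calc ρ / ρ' * ‖x - c'‖ ≤ ρ / ρ' * ρ' :=
            mul_le_mul_of_nonneg_left hx (div_pos hρ hρ').le
        _ = ρ := by field_simp
    refine (h3 _ hy).trans (le_of_eq ?_)
    apply Nat.card_congr
    apply Equiv.subtypeEquivRight
    intro i
    have e1 : inner ℝ (c + (ρ / ρ') • (x - c')) (θ i) =
        inner ℝ c (θ i) + ρ / ρ' * (inner ℝ x (θ i) - inner ℝ c' (θ i)) := by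
      rw [inner_add_left, real_inner_smul_left, inner_sub_left]
    have e2 : inner ℝ x (θ i) =
        ρ' / ρ * (inner ℝ (c + (ρ / ρ') • (x - c')) (θ i) - inner ℝ c (θ i)) +
          inner ℝ c' (θ i) := by
      rw [e1]
      field_simp
      ring
    simp only [plank, mem_setOf_eq]
    rw [e2]
    constructor
    · rintro ⟨g1, g2⟩
      refine ⟨?_, ?_⟩
      · have := mul_le_mul_of_nonneg_left (sub_le_sub_right g1 (inner ℝ c (θ i))) hq.le
        linarith
      · have := mul_le_mul_of_nonneg_left (sub_le_sub_right g2 (inner ℝ c (θ i))) hq.le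
        linarith
    · rintro ⟨g1, g2⟩
      refine ⟨?_, ?_⟩
      · have := le_of_mul_le_mul_left (show ρ' / ρ * (a i - inner ℝ c (θ i)) ≤
          ρ' / ρ * (inner ℝ (c + (ρ / ρ') • (x - c')) (θ i) - inner ℝ c (θ i)) by linarith) hq
        linarith
      · have := le_of_mul_le_mul_left (show
          ρ' / ρ * (inner ℝ (c + (ρ / ρ') • (x - c')) (θ i) - inner ℝ c (θ i)) ≤
          ρ' / ρ * (b i - inner ℝ c (θ i)) by linarith) hq
        linarith

lemma costs_subset {d : ℕ} (hd : 1 ≤ d) (c c' : E d) {ρ ρ' : ℝ} (hρ : 0 < ρ) (hρ' : 0 < ρ')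
    (k : ℕ) :
    {q : ℝ | ∃ (m : ℕ) (θ : Fin m → E d) (a b : Fin m → ℝ),
      IsFoldCover (closedBall c ρ) k θ a b ∧
        q = (∑ i, (b i - a i)) / minWidth (closedBall c ρ)} ⊆
    {q : ℝ | ∃ (m : ℕ) (θ : Fin m → E d) (a b : Fin m → ℝ),
      IsFoldCover (closedBall c' ρ') k θ a b ∧
        q = (∑ i, (b i - a i)) / minWidth (closedBall c' ρ')} := by
  rintro q ⟨m, θ, a, b, h, rfl⟩
  refine ⟨m, θ, _, _, cover_affine c c' hρ hρ' h, ?_⟩
  rw [minWidth_ball hd c hρ, minWidth_ball hd c' hρ']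
  have : ∀ i, (ρ' / ρ * (b i - inner ℝ c (θ i)) + inner ℝ c' (θ i)) -
      (ρ' / ρ * (a i - inner ℝ c (θ i)) + inner ℝ c' (θ i)) = ρ' / ρ * (b i - a i) := by
    intro i; ring
  rw [Finset.sum_congr rfl fun i _ => this i, ← Finset.mul_sum]
  field_simp

lemma coverConst_ball {d : ℕ} (hd : 1 ≤ d) (c c' : E d) {ρ ρ' : ℝ} (hρ : 0 < ρ) (hρ' : 0 < ρ')
    (k : ℕ) : coverConst (closedBall c ρ) k = coverConst (closedBall c' ρ') k := by
  unfold coverConst
  rw [Subset.antisymm (costs_subset hd c c' hρ hρ' k) (costs_subset hd c' c hρ' hρ k)]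

end SCALE

theorem t_SCALE : S_SCALE := by
  intro d c ρ k hd hρ
  exact ⟨SCALE.isConvexBody c hρ, SCALE.minWidth_ball hd c hρ, SCALE.inradius_ball hd c hρ,
    SCALE.coverConst_ball hd c 0 hρ one_pos k⟩

end Pool.Agent.H508R2.PL
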