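import Pool.Agent.H508R2.PL.Stm

/-! SHELL: plank in a spherical shell (helper879), after `PlankCore.shell_plank`. -/

open MeasureTheory Metric Set Filter Topology
open Pool.Agent.Helper934.PlankDefs

namespace Pool.Agent.H508R2.PL

namespace SHELLh

theorem slice (hANN : S_ANN) (n : ℕ) (c C ρ : ℝ) (hn : 2 ≤ n) (hcC : c ≤ C) (hC : C ≤ ρ ^ 2)
    (hρ : 0 ≤ ρ) :
    volume {y : Fin n → ℝ | c ≤ ∑ i, y i ^ 2 ∧ ∑ i, y i ^ 2 ≤ C} ≤
      ENNReal.ofReal (kap n * (n / 2 * ρ ^ (n - 2) * (C - c))) := by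
  have hvp := (EuclideanSpace.volume_preserving_symm_measurableEquiv_toLp (Fin n))
  set S : Set (Fin n → ℝ) := {y : Fin n → ℝ | c ≤ ∑ i, y i ^ 2 ∧ ∑ i, y i ^ 2 ≤ C} with hS
  have hmeas : MeasurableSet S := by
    have h1 : Measurable (fun y : Fin n → ℝ => ∑ i, y i ^ 2) := by fun_prop
    exact (measurableSet_le measurable_const h1).inter (measurableSet_le h1 measurable_const)
  have hpre : volume S = volume ((MeasurableEquiv.toLp 2 (Fin n → ℝ)).symm ⁻¹' S) := by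
    rw [hvp.measure_preimage hmeas.nullMeasurableSet]
  rw [hpre]
  have hset : ((MeasurableEquiv.toLp 2 (Fin n → ℝ)).symm ⁻¹' S) =
      {x : E n | c ≤ ‖x‖ ^ 2 ∧ ‖x‖ ^ 2 ≤ C} := by
    ext x
    simp only [mem_preimage, hS, mem_ofPred_eq, EuclideanSpace.norm_sq_eq,
      Real.norm_eq_abs, sq_abs]
    rfl
  rw [hset]
  exact hANN n c C ρ hn hcC hC hρ

end SHELLh

theorem t_SHELL (hANN : S_ANN) : S_SHELL := by
  intro n θ a b r ρ hn hθ hab hr hrρ
  have hρ0 : 0 ≤ ρ := hr.trans hrρ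
  have hrr : r ^ 2 ≤ ρ ^ 2 := pow_le_pow_left₀ hr hrρ 2
  obtain ⟨B, hB⟩ : ∃ B : OrthonormalBasis (Fin (n + 1)) ℝ (E (n + 1)), B 0 = θ := by
    have hcard : Module.finrank ℝ (E (n + 1)) = Fintype.card (Fin (n + 1)) := by simp
    have horth : Orthonormal ℝ (({0} : Set (Fin (n + 1))).domRestrict (fun _ => θ)) := by
      rw [orthonormal_iff_ite]
      rintro ⟨i, hi⟩ ⟨j, hj⟩
      simp only [mem_singleton_iff] at hi hj
      subst hi; subst hj
      simp [Set.domRestrict, hθ]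
    obtain ⟨B, hB⟩ := horth.exists_orthonormalBasis_extension_of_card_eq hcard
    exact ⟨B, hB 0 rfl⟩
  set S : Set (E (n + 1)) :=
    {x : E (n + 1) | a ≤ inner ℝ x θ ∧ inner ℝ x θ ≤ b} ∩
      {x | r ^ 2 ≤ ‖x‖ ^ 2 ∧ ‖x‖ ^ 2 ≤ ρ ^ 2} with hS
  set S1 : Set (ℝ × (Fin n → ℝ)) :=
    {p | a ≤ p.1 ∧ p.1 ≤ b ∧ r ^ 2 - p.1 ^ 2 ≤ ∑ i, p.2 i ^ 2 ∧
      ∑ i, p.2 i ^ 2 ≤ ρ ^ 2 - p.1 ^ 2} with hS1
  have hmeas1 : MeasurableSet S1 := by
    have e1 : Measurable (fun p : ℝ × (Fin n → ℝ) => p.1) := measurable_fst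
    have e2 : Measurable (fun p : ℝ × (Fin n → ℝ) => ∑ i, p.2 i ^ 2) := by fun_prop
    have e3 : Measurable (fun p : ℝ × (Fin n → ℝ) => r ^ 2 - p.1 ^ 2) := by fun_prop
    have e4 : Measurable (fun p : ℝ × (Fin n → ℝ) => ρ ^ 2 - p.1 ^ 2) := by fun_prop
    have : S1 = {p | a ≤ p.1} ∩ ({p | p.1 ≤ b} ∩ ({p | r ^ 2 - p.1 ^ 2 ≤ ∑ i, p.2 i ^ 2} ∩
        {p | ∑ i, p.2 i ^ 2 ≤ ρ ^ 2 - p.1 ^ 2})) := by
      ext p; simp [hS1]
    rw [this]
    exact (measurableSet_le measurable_const e1).inter ((measurableSet_le e1 measurable_const).inter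
      ((measurableSet_le e3 e2).inter (measurableSet_le e2 e4)))
  have mp1 := B.measurePreserving_repr
  have mp2 := EuclideanSpace.volume_preserving_symm_measurableEquiv_toLp (Fin (n + 1))
  have mp3 := volume_preserving_piFinSuccAbove (fun _ : Fin (n + 1) => ℝ) 0
  have mp := mp3.comp (mp2.comp mp1)
  have hpre : S = (⇑(MeasurableEquiv.piFinSuccAbove (fun _ : Fin (n + 1) => ℝ) 0) ∘
      ⇑(MeasurableEquiv.toLp 2 (Fin (n + 1) → ℝ)).symm ∘ ⇑B.repr) ⁻¹' S1 := by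
    ext x
    have hnorm : ‖x‖ ^ 2 = (B.repr x) 0 ^ 2 + ∑ i : Fin n, (B.repr x) i.succ ^ 2 := by
      have : ‖x‖ = ‖B.repr x‖ := by simp
      rw [this, EuclideanSpace.norm_sq_eq, Fin.sum_univ_succ]
      simp only [Real.norm_eq_abs, sq_abs]
    have hinner : inner ℝ x θ = (B.repr x) 0 := by
      rw [B.repr_apply_apply, hB, real_inner_comm]
    have h0 : ((MeasurableEquiv.piFinSuccAbove (fun _ : Fin (n + 1) => ℝ) 0)
        ((MeasurableEquiv.toLp 2 (Fin (n + 1) → ℝ)).symm (B.repr x))).1 = (B.repr x) 0 := rfl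
    have h1 : ∀ i : Fin n, ((MeasurableEquiv.piFinSuccAbove (fun _ : Fin (n + 1) => ℝ) 0)
        ((MeasurableEquiv.toLp 2 (Fin (n + 1) → ℝ)).symm (B.repr x))).2 i =
          (B.repr x) i.succ := by
      intro i
      have : ((MeasurableEquiv.piFinSuccAbove (fun _ : Fin (n + 1) => ℝ) 0)
        ((MeasurableEquiv.toLp 2 (Fin (n + 1) → ℝ)).symm (B.repr x))).2 i =
          (B.repr x) ((0 : Fin (n + 1)).succAbove i) := rfl
      rw [this, Fin.zero_succAbove]
    simp only [hS, hS1, mem_inter_iff, mem_ofPred_eq, mem_preimage, Function.comp_apply, hnorm,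
      hinner, h0, h1]
    constructor
    · rintro ⟨⟨h1, h2⟩, h3, h4⟩
      exact ⟨h1, h2, by linarith, by linarith⟩
    · rintro ⟨h1, h2, h3, h4⟩
      exact ⟨⟨h1, h2⟩, by linarith, by linarith⟩
  have hvol : volume S = volume S1 := by
    rw [hpre]
    exact mp.measure_preimage hmeas1.nullMeasurableSet
  rw [hvol, Measure.volume_eq_prod, Measure.prod_apply hmeas1]
  calc ∫⁻ t, volume (Prod.mk t ⁻¹' S1)
      ≤ ∫⁻ t, (Icc a b).indicator
          (fun _ => ENNReal.ofReal (kap n * (n / 2 * ρ ^ (n - 2) * (ρ ^ 2 - r ^ 2)))) t := by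
        apply lintegral_mono
        intro t
        by_cases ht : t ∈ Icc a b
        · rw [indicator_of_mem ht]
          have hsub : Prod.mk t ⁻¹' S1 ⊆ {y : Fin n → ℝ | r ^ 2 - t ^ 2 ≤ ∑ i, y i ^ 2 ∧
              ∑ i, y i ^ 2 ≤ ρ ^ 2 - t ^ 2} := by
            intro y hy
            simp only [hS1, mem_preimage, mem_ofPred_eq] at hy
            exact ⟨hy.2.2.1, hy.2.2.2⟩
          refine (measure_mono hsub).trans ?_
          refine (SHELLh.slice hANN n _ _ ρ hn (by linarith) (by nlinarith [sq_nonneg t])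
            hρ0).trans ?_
          apply le_of_eq; congr 1; ring
        · rw [indicator_of_notMem ht]
          have : Prod.mk t ⁻¹' S1 = ∅ := by
            ext y
            simp only [hS1, mem_preimage, mem_ofPred_eq, mem_empty_iff_false, iff_false]
            intro hy
            exact ht ⟨hy.1, hy.2.1⟩
          show volume (Prod.mk t ⁻¹' S1) ≤ 0
          rw [this]; simp
    _ = ENNReal.ofReal (kap n * (n / 2 * ρ ^ (n - 2) * (ρ ^ 2 - r ^ 2))) *
          ENNReal.ofReal (b - a) := by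
        rw [lintegral_indicator measurableSet_Icc, setLIntegral_const, Real.volume_Icc]

end Pool.Agent.H508R2.PL
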