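import Pool.Agent.H508R2.PL.Stm
import Pool.Agent.Helper934.PlankMain

/-!
Multiple plank coverings (MP_4043ba_gt): the regular simplex.
-/

open MeasureTheory Metric Set Filter Topology
open Pool.Agent.Helper934.PlankDefs

namespace Pool.Agent.H508R2.PL

theorem t_SIMPLEX (hFRAME : S_FRAME) : S_SIMPLEX := by
  intro d hd
  obtain ⟨n, hs, hin, hfr⟩ := hFRAME d hd
  have hd0 : (1 : ℝ) ≤ d := by exact_mod_cast hd
  have hN : (0 : ℝ) < (d : ℝ) + 1 := by linarith
  have hN1 : 1 / ((d : ℝ) + 1) ≤ 1 := by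
    rw [div_le_one hN]; linarith
  have hnn : ∀ i, ‖n i‖ ^ 2 = d / ((d : ℝ) + 1) := by
    intro i
    have h := hin i i
    rw [real_inner_self_eq_norm_sq] at h
    rw [h]
    simp only [if_true]
    field_simp
    ring
  have hn1 : ∀ i, ‖n i‖ ≤ 1 := by
    intro i
    have h : ‖n i‖ ^ 2 ≤ 1 := by
      rw [hnn i, div_le_one hN]; linarith
    have := norm_nonneg (n i)
    nlinarith
  have hsum : ∀ x : E d, ∑ i, (inner ℝ x (n i) : ℝ) = 0 := by
    intro x
    rw [← inner_sum, hs, inner_zero_right]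
  set T : Set (E d) := {x | ∀ i, -(1 / ((d : ℝ) + 1)) ≤ inner ℝ x (n i)} with hT
  have hvert : ∀ j, n j ∈ T := by
    intro j i
    rw [hin j i]
    split_ifs <;> linarith
  have hcard : ((Finset.univ : Finset (Fin (d + 1))).card : ℝ) = (d : ℝ) + 1 := by
    simp
  have hclosed : IsClosed T := by
    have : T = ⋂ i, {x : E d | -(1 / ((d : ℝ) + 1)) ≤ inner ℝ x (n i)} := by
      ext x; simp [hT]
    rw [this]
    exact isClosed_iInter fun i => isClosed_le continuous_const (by fun_prop)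
  have hup : ∀ x ∈ T, ∀ i, (inner ℝ x (n i) : ℝ) ≤ 1 := by
    intro x hx i
    have h0 := hsum x
    rw [← Finset.add_sum_erase _ _ (Finset.mem_univ i)] at h0
    have h1 : -(1 / ((d : ℝ) + 1)) * d ≤
        ∑ j ∈ Finset.univ.erase i, (inner ℝ x (n j) : ℝ) := by
      have h2 : ∑ j ∈ Finset.univ.erase i, (-(1 / ((d : ℝ) + 1))) ≤
          ∑ j ∈ Finset.univ.erase i, (inner ℝ x (n j) : ℝ) :=
        Finset.sum_le_sum fun j _ => hx j
      rw [Finset.sum_const, Finset.card_erase_of_mem (Finset.mem_univ i), Finset.card_univ,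
        Fintype.card_fin, nsmul_eq_mul, Nat.add_sub_cancel] at h2
      linarith
    have h3 : (1 / ((d : ℝ) + 1)) * d ≤ 1 := by
      rw [one_div_mul_eq_div, div_le_one hN]; linarith
    linarith
  have hbdd : Bornology.IsBounded T := by
    rw [isBounded_iff_forall_norm_le]
    refine ⟨(d : ℝ) + 1, fun x hx => ?_⟩
    have h1 : ‖x‖ ^ 2 ≤ (d : ℝ) + 1 := by
      rw [← hfr x]
      calc ∑ i, (inner ℝ x (n i) : ℝ) ^ 2 ≤ ∑ i : Fin (d + 1), (1 : ℝ) := by
            refine Finset.sum_le_sum fun i _ => ?_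
            have h2 := hup x hx i
            have h3 := hx i
            nlinarith
        _ = (d : ℝ) + 1 := by simp
    have h2 := norm_nonneg x
    nlinarith
  have hcomp : IsCompact T := Metric.isCompact_of_isClosed_isBounded hclosed hbdd
  have hconv : Convex ℝ T := by
    intro x hx y hy a b ha hb hab i
    rw [inner_add_left, real_inner_smul_left, real_inner_smul_left]
    have h1 := mul_le_mul_of_nonneg_left (hx i) ha
    have h2 := mul_le_mul_of_nonneg_left (hy i) hb
    have h3 : -(1 / ((d : ℝ) + 1)) = a * -(1 / ((d : ℝ) + 1)) + b * -(1 / ((d : ℝ) + 1)) := by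
      rw [← add_mul, hab, one_mul]
    linarith
  have hint : (interior T).Nonempty := by
    refine ⟨0, ?_⟩
    rw [mem_interior]
    refine ⟨ball 0 (1 / ((d : ℝ) + 1)), ?_, isOpen_ball, mem_ball_self (by positivity)⟩
    intro x hx i
    rw [mem_ball_zero_iff] at hx
    have h1 := abs_real_inner_le_norm x (n i)
    have h2 : ‖x‖ * ‖n i‖ ≤ ‖x‖ * 1 := mul_le_mul_of_nonneg_left (hn1 i) (norm_nonneg x)
    have h3 := neg_abs_le (inner ℝ x (n i) : ℝ)
    linarith
  have hne : T.Nonempty := hint.mono interior_subset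
  refine ⟨T, ⟨hcomp, hconv, hint⟩, ?_, ?_⟩
  · -- inradius
    set q : ℝ := Real.sqrt (d * (d + 1)) with hq
    have hqp : 0 < q := Real.sqrt_pos.mpr (by positivity)
    have hq2 : q ^ 2 = d * (d + 1) := Real.sq_sqrt (by positivity)
    refine Real.sSup_le ?_ (by positivity)
    rintro r ⟨hr, c, hc⟩
    have key : ∀ i, -(1 / ((d : ℝ) + 1)) ≤ inner ℝ c (n i) - r * d / q := by
      intro i
      have hm : c - (r * (d + 1) / q) • n i ∈ closedBall c r := by
        rw [mem_closedBall, dist_eq_norm, sub_sub_cancel_left, norm_neg, norm_smul,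
          Real.norm_eq_abs, abs_of_nonneg (by positivity)]
        have h1 : (r * (d + 1) / q * ‖n i‖) ^ 2 = r ^ 2 := by
          rw [mul_pow, hnn i, div_pow, hq2]
          field_simp
        have h2 : 0 ≤ r * (d + 1) / q * ‖n i‖ := by positivity
        exact (pow_le_pow_iff_left₀ h2 hr (by norm_num : (2 : ℕ) ≠ 0)).mp h1.le
      have h := hc hm i
      rw [inner_sub_left, real_inner_smul_left, real_inner_self_eq_norm_sq, hnn i] at h
      have h4 : r * ((d : ℝ) + 1) / q * (d / ((d : ℝ) + 1)) = r * d / q := by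
        field_simp
      rwa [h4] at h
    have hsm : ∑ i : Fin (d + 1), (-(1 / ((d : ℝ) + 1))) ≤
        ∑ i : Fin (d + 1), ((inner ℝ c (n i) : ℝ) - r * d / q) :=
      Finset.sum_le_sum fun i _ => key i
    rw [Finset.sum_sub_distrib, hsum c, Finset.sum_const, Finset.sum_const, nsmul_eq_mul,
      nsmul_eq_mul, hcard] at hsm
    have h5 : ((d : ℝ) + 1) * -(1 / ((d : ℝ) + 1)) = -1 := by field_simp
    have h6 : ((d : ℝ) + 1) * (r * d / q) = r * q := by
      have : r * q = r * q ^ 2 / q := by field_simp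
      rw [this, hq2]; ring
    rw [h5, h6] at hsm
    rw [le_div_iff₀ hqp]
    linarith
  · -- width
    obtain ⟨e, he⟩ := Pool.Agent.Helper934.PlankMain.exists_unit hd
    refine le_csInf (show Set.Nonempty {w : ℝ | ∃ u : EuclideanSpace ℝ (Fin d), ‖u‖ = 1 ∧
      w = widthIn T u} from ⟨_, e, he, rfl⟩) ?_
    rintro _ ⟨u, hu, rfl⟩
    rw [Pool.Agent.Helper934.PlankSupp.widthIn_eq hcomp hne]
    set M := Pool.Agent.Helper934.PlankSupp.supp T u with hM
    set M' := Pool.Agent.Helper934.PlankSupp.supp T (-u) with hM'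
    have h1 : ∀ j, (inner ℝ (n j) u : ℝ) ≤ M := fun j =>
      Pool.Agent.Helper934.PlankSupp.le_supp hcomp (hvert j) u
    have h2 : ∀ j, -(inner ℝ (n j) u : ℝ) ≤ M' := fun j => by
      have := Pool.Agent.Helper934.PlankSupp.le_supp hcomp (hvert j) (-u)
      rwa [inner_neg_right] at this
    have h3 : ∑ j, (inner ℝ (n j) u : ℝ) = 0 := by
      rw [← sum_inner, hs, inner_zero_left]
    have h4 : ∑ j, (inner ℝ (n j) u : ℝ) ^ 2 = 1 := by
      have := hfr u
      rw [hu] at this
      simp only [real_inner_comm u] at this ⊢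
      simpa using this
    have h5 : 0 ≤ ∑ j, (M - (inner ℝ (n j) u : ℝ)) * ((inner ℝ (n j) u : ℝ) + M') := by
      refine Finset.sum_nonneg fun j _ => mul_nonneg ?_ ?_
      · linarith [h1 j]
      · linarith [h2 j]
    have h6 : ∑ j, (M - (inner ℝ (n j) u : ℝ)) * ((inner ℝ (n j) u : ℝ) + M') =
        ((d : ℝ) + 1) * (M * M') - 1 := by
      have : ∀ j, (M - (inner ℝ (n j) u : ℝ)) * ((inner ℝ (n j) u : ℝ) + M') =
          M * M' + (M - M') * (inner ℝ (n j) u : ℝ) - (inner ℝ (n j) u : ℝ) ^ 2 := fun j => by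
        ring
      rw [Finset.sum_congr rfl fun j _ => this j, Finset.sum_sub_distrib, Finset.sum_add_distrib,
        Finset.sum_const, ← Finset.mul_sum _ (fun j => (inner ℝ (n j) u : ℝ)), h3, h4,
        nsmul_eq_mul, hcard]
      ring
    rw [h6] at h5
    have h7 : 0 ≤ M + M' := by linarith [h1 0, h2 0]
    set s := Real.sqrt ((d : ℝ) + 1) with hsq
    have hs0 : 0 < s := Real.sqrt_pos.mpr hN
    have hs2 : s ^ 2 = (d : ℝ) + 1 := Real.sq_sqrt hN.le
    rw [div_le_iff₀ hs0]
    have h8 : 4 ≤ ((M + M') * s) ^ 2 := by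
      rw [mul_pow, hs2]
      nlinarith [mul_nonneg hN.le (sq_nonneg (M - M'))]
    have h9 : 0 ≤ (M + M') * s := mul_nonneg h7 hs0.le
    nlinarith

end Pool.Agent.H508R2.PL
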