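import Pool.Agent.H508R2.PL.Stm

/-! Task SLAB (helper578): volume of a symmetric slab in a ball. -/

open MeasureTheory Metric Set Filter Topology
open Pool.Agent.Helper934.PlankDefs

namespace Pool.Agent.H508R2.PL

theorem t_SLAB : S_SLAB := by
  intro n θ R s hθ hR hs
  obtain ⟨B, hB⟩ : ∃ B : OrthonormalBasis (Fin (n + 1)) ℝ (E (n + 1)), B 0 = θ := by
    have hcard : Module.finrank ℝ (E (n + 1)) = Fintype.card (Fin (n + 1)) := by simp
    have horth : Orthonormal ℝ (({0} : Set (Fin (n + 1))).domRestrict (fun _ => θ)) := by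
      rw [orthonormal_iff_ite]
      rintro ⟨i, hi⟩ ⟨j, hj⟩
      simp only [mem_singleton_iff] at hi hj
      subst hi; subst hj
      simp [Set.domRestrict, hθ]
    obtain ⟨B, hB⟩ := horth.exists_orthonormalBasis_extension_of_card_eq hcard
    exact ⟨B, hB 0 rfl⟩
  set D : Set (Fin n → ℝ) := {y | ∑ i, y i ^ 2 ≤ R ^ 2} with hD
  have hDm : MeasurableSet D := by
    have h1 : Measurable (fun y : Fin n → ℝ => ∑ i, y i ^ 2) := by fun_prop
    exact measurableSet_le h1 measurable_const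
  have hDv : volume D = volume (closedBall (0 : E n) R) := by
    have hvp := EuclideanSpace.volume_preserving_symm_measurableEquiv_toLp (Fin n)
    rw [← hvp.measure_preimage hDm.nullMeasurableSet]
    congr 1
    ext x
    simp only [mem_preimage, hD, mem_ofPred_eq, mem_closedBall, dist_zero_right]
    rw [← sq_le_sq₀ (norm_nonneg x) hR, EuclideanSpace.norm_sq_eq]
    simp only [Real.norm_eq_abs, sq_abs]
    rfl
  have mp1 := B.measurePreserving_repr
  have mp2 := EuclideanSpace.volume_preserving_symm_measurableEquiv_toLp (Fin (n + 1))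
  have mp3 := volume_preserving_piFinSuccAbove (fun _ : Fin (n + 1) => ℝ) 0
  have mp := mp3.comp (mp2.comp mp1)
  have hsub : closedBall (0 : E (n + 1)) R ∩ {z | |inner ℝ z θ| ≤ s} ⊆
      (⇑(MeasurableEquiv.piFinSuccAbove (fun _ : Fin (n + 1) => ℝ) 0) ∘
      ⇑(MeasurableEquiv.toLp 2 (Fin (n + 1) → ℝ)).symm ∘ ⇑B.repr) ⁻¹' (Icc (-s) s ×ˢ D) := by
    rintro x ⟨hx1, hx2⟩
    have hnorm : ‖x‖ ^ 2 = (B.repr x) 0 ^ 2 + ∑ i : Fin n, (B.repr x) (Fin.succAbove 0 i) ^ 2 := by
      have : ‖x‖ = ‖B.repr x‖ := by simp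
      rw [this, EuclideanSpace.norm_sq_eq, Fin.sum_univ_succAbove _ 0]
      simp only [Real.norm_eq_abs, sq_abs]
    have hinner : inner ℝ x θ = (B.repr x) 0 := by
      rw [B.repr_apply_apply, hB, real_inner_comm]
    have h0 : ((MeasurableEquiv.piFinSuccAbove (fun _ : Fin (n + 1) => ℝ) 0)
        ((MeasurableEquiv.toLp 2 (Fin (n + 1) → ℝ)).symm (B.repr x))).1 = (B.repr x) 0 := rfl
    have h1 : ∀ i : Fin n, ((MeasurableEquiv.piFinSuccAbove (fun _ : Fin (n + 1) => ℝ) 0)
        ((MeasurableEquiv.toLp 2 (Fin (n + 1) → ℝ)).symm (B.repr x))).2 i =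
        (B.repr x) (Fin.succAbove 0 i) := fun i => rfl
    rw [mem_closedBall, dist_zero_right] at hx1
    have hx2' : |inner ℝ x θ| ≤ s := hx2
    have hx3 : ‖x‖ ^ 2 ≤ R ^ 2 := pow_le_pow_left₀ (norm_nonneg x) hx1 2
    simp only [mem_preimage, Function.comp_apply, mem_prod, hD, mem_ofPred_eq, h0, h1, mem_Icc]
    refine ⟨?_, ?_⟩
    · rw [hinner] at hx2'
      exact abs_le.1 hx2'
    · nlinarith [sq_nonneg ((B.repr x) 0)]
  calc volume (closedBall (0 : E (n + 1)) R ∩ {z | |inner ℝ z θ| ≤ s})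
      ≤ volume ((⇑(MeasurableEquiv.piFinSuccAbove (fun _ : Fin (n + 1) => ℝ) 0) ∘
      ⇑(MeasurableEquiv.toLp 2 (Fin (n + 1) → ℝ)).symm ∘ ⇑B.repr) ⁻¹' (Icc (-s) s ×ˢ D)) :=
        measure_mono hsub
    _ = volume (Icc (-s) s ×ˢ D) :=
        mp.measure_preimage (measurableSet_Icc.prod hDm).nullMeasurableSet
    _ = volume (Icc (-s) s) * volume D := by rw [Measure.volume_eq_prod, Measure.prod_prod]
    _ = ENNReal.ofReal (2 * s) * volume (closedBall (0 : E n) R) := by
        rw [Real.volume_Icc, hDv]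
        congr 2
        ring

end Pool.Agent.H508R2.PL
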