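import Pool.Agent.H508R2.PL.Stm2

set_option autoImplicit false
open MeasureTheory Metric Set Filter Topology
open Pool.Agent.Helper934.PlankDefs
open H780GP (V Lf GG mu phi)

namespace Pool.Agent.H508R2.PL

theorem SP_q_pos {n : ℕ} (l : (Fin n → ℝ) →ₗ[ℝ] ℝ) (hl : l ≠ 0) :
    0 < ∑ i, (l (Pi.single i 1)) ^ 2 := by
  by_contra hcon
  push Not at hcon
  have h0 : ∑ i, (l (Pi.single i 1)) ^ 2 = 0 :=
    le_antisymm hcon (Finset.sum_nonneg fun i _ => sq_nonneg _)
  rw [Finset.sum_eq_zero_iff_of_nonneg (fun i _ => sq_nonneg _)] at h0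
  apply hl
  refine (Pi.basisFun ℝ (Fin n)).ext fun i => ?_
  have := h0 i (Finset.mem_univ i)
  rw [Pi.basisFun_apply]
  simpa using this

theorem t_SP (hSP1 : S_SP1) (hGGV : S_GGV) : S_SP := by
  intro n d l hl b hb e he
  set B := ∑ k, b k with hB
  have hB0 : 0 ≤ B := Finset.sum_nonneg fun k _ => (hb k).le
  set R := 2 * B + e / 2 with hR
  have hR0 : 0 < R := by positivity
  have hq : ∀ k, 0 < ∑ i, (l k (Pi.single i 1)) ^ 2 := fun k => SP_q_pos (l k) (hl k)
  set q : Fin d → ℝ := fun k => ∑ i, (l k (Pi.single i 1)) ^ 2 with hqd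
  let ε : ℕ → ℝ := fun j => 1 / ((j : ℝ) + 1)
  have hε0 : ∀ j, 0 < ε j := fun j => by simp only [ε]; positivity
  have hεlim : Tendsto ε atTop (𝓝 0) := tendsto_one_div_add_atTop_nhds_zero_nat
  choose w hw1 hw2 using fun j : ℕ => hSP1 n d l (ε j) (hε0 j) b hb (e / 2) (by positivity)
  have hGG : ∀ j k, GG l (ε j) k k = q k + ε j ^ 2 := fun j k => hGGV n d l (ε j) k
  have hGG0 : ∀ j k, 0 ≤ GG l (ε j) k k := fun j k => by
    rw [hGG]; have := hq k; positivity
  have hA : ∀ j, 0 ≤ ∑ i, (w j).1 i ^ 2 := fun j => Finset.sum_nonneg fun i _ => sq_nonneg _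
  have hBn : ∀ j, 0 ≤ ∑ k, (w j).2 k ^ 2 := fun j => Finset.sum_nonneg fun i _ => sq_nonneg _
  have hC : ∀ j, 0 ≤ ∑ k, GG l (ε j) k k * (b k / Lf l (ε j) k (w j)) ^ 2 := fun j =>
    Finset.sum_nonneg fun k _ => mul_nonneg (hGG0 j k) (sq_nonneg _)
  have h1 : ∀ j i, |(w j).1 i| ≤ Real.sqrt R := by
    intro j i
    apply Real.abs_le_sqrt
    have e1 := Finset.single_le_sum (f := fun i => (w j).1 i ^ 2) (fun i _ => sq_nonneg _)
      (Finset.mem_univ i)
    have e2 := hw2 j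
    have e3 := hBn j
    have e4 := hC j
    linarith
  have h2 : ∀ j k, |(w j).2 k| ≤ Real.sqrt R := by
    intro j i
    apply Real.abs_le_sqrt
    have e1 := Finset.single_le_sum (f := fun i => (w j).2 i ^ 2) (fun i _ => sq_nonneg _)
      (Finset.mem_univ i)
    have e2 := hw2 j
    have e3 := hA j
    have e4 := hC j
    linarith
  have h3 : ∀ j k, q k * b k ^ 2 / R ≤ (Lf l (ε j) k (w j)) ^ 2 := by
    intro j k
    have e1 := Finset.single_le_sum
      (f := fun k => GG l (ε j) k k * (b k / Lf l (ε j) k (w j)) ^ 2)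
      (fun i _ => mul_nonneg (hGG0 j i) (sq_nonneg _)) (Finset.mem_univ k)
    have e2 := hw2 j
    have e3 := hA j
    have e4 := hBn j
    have e5 : q k * (b k / Lf l (ε j) k (w j)) ^ 2 ≤ R := by
      have : q k * (b k / Lf l (ε j) k (w j)) ^ 2 ≤
          GG l (ε j) k k * (b k / Lf l (ε j) k (w j)) ^ 2 := by
        apply mul_le_mul_of_nonneg_right _ (sq_nonneg _)
        rw [hGG]
        have := sq_nonneg (ε j)
        linarith
      linarith
    have e6 : 0 < (Lf l (ε j) k (w j)) ^ 2 := by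
      have := hw1 j k
      positivity
    rw [div_pow, mul_div_assoc', div_le_iff₀ e6] at e5
    rw [div_le_iff₀ hR0]
    linarith
  -- compactness
  have hmem : ∀ j, (w j).1 ∈ closedBall (0 : Fin n → ℝ) (Real.sqrt R) := by
    intro j
    rw [mem_closedBall, dist_zero_right, pi_norm_le_iff_of_nonneg (Real.sqrt_nonneg _)]
    intro i
    rw [Real.norm_eq_abs]
    exact h1 j i
  obtain ⟨y, -, φ, hφ, hy⟩ := (isCompact_closedBall (0 : Fin n → ℝ) (Real.sqrt R)).tendsto_subseq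
    hmem
  have hφt := hφ.tendsto_atTop
  have hLf : ∀ k, Tendsto (fun j => Lf l (ε (φ j)) k (w (φ j))) atTop (𝓝 (l k y)) := by
    intro k
    have hc : Continuous (l k) := (l k).continuous_of_finiteDimensional
    have e1 : Tendsto (fun j => l k (w (φ j)).1) atTop (𝓝 (l k y)) := (hc.tendsto y).comp hy
    have e2 : Tendsto (fun j => ε (φ j) * (w (φ j)).2 k) atTop (𝓝 0) := by
      have e3 : Tendsto (fun j => ε (φ j) * Real.sqrt R) atTop (𝓝 (0 * Real.sqrt R)) :=
        (hεlim.comp hφt).mul_const _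
      rw [zero_mul] at e3
      refine squeeze_zero_norm (fun j => ?_) e3
      rw [Real.norm_eq_abs, abs_mul, abs_of_pos (hε0 _)]
      exact mul_le_mul_of_nonneg_left (h2 _ k) (hε0 _).le
    have := e1.add e2
    rw [add_zero] at this
    exact this
  have hly : ∀ k, l k y ≠ 0 := by
    intro k h0
    have e1 : Tendsto (fun j => (Lf l (ε (φ j)) k (w (φ j))) ^ 2) atTop (𝓝 ((l k y) ^ 2)) :=
      (hLf k).pow 2
    have e2 := ge_of_tendsto' e1 fun j => h3 (φ j) k
    rw [h0] at e2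
    have e3 : 0 < q k * b k ^ 2 / R := by
      have := hq k
      have := hb k
      positivity
    norm_num at e2
    linarith
  refine ⟨y, hly, ?_⟩
  have e1 : Tendsto (fun j => ∑ i, (w (φ j)).1 i ^ 2 +
      ∑ k, q k * (b k / Lf l (ε (φ j)) k (w (φ j))) ^ 2) atTop
      (𝓝 (∑ i, y i ^ 2 + ∑ k, q k * (b k / l k y) ^ 2)) := by
    refine Tendsto.add (tendsto_finsetSum _ fun i _ => ?_) (tendsto_finsetSum _ fun k _ => ?_)
    · exact (((continuous_apply i).tendsto y).comp hy).pow 2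
    · exact ((tendsto_const_nhds.div (hLf k) (hly k)).pow 2).const_mul _
  have e2 : ∀ j, ∑ i, (w (φ j)).1 i ^ 2 +
      ∑ k, q k * (b k / Lf l (ε (φ j)) k (w (φ j))) ^ 2 ≤ R := by
    intro j
    have e3 := hw2 (φ j)
    have e4 := hBn (φ j)
    have e5 : ∑ k, q k * (b k / Lf l (ε (φ j)) k (w (φ j))) ^ 2 ≤
        ∑ k, GG l (ε (φ j)) k k * (b k / Lf l (ε (φ j)) k (w (φ j))) ^ 2 := by
      refine Finset.sum_le_sum fun k _ => ?_
      apply mul_le_mul_of_nonneg_right _ (sq_nonneg _)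
      rw [hGG]
      have := sq_nonneg (ε (φ j))
      linarith
    linarith
  have e3 := le_of_tendsto' e1 e2
  change ∑ i, y i ^ 2 + ∑ k, q k * (b k / l k y) ^ 2 ≤ 2 * B + e
  linarith

end Pool.Agent.H508R2.PL
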