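import Pool.Agent.H508R2.PL.Stm2

open MeasureTheory Metric Set Filter Topology
open Pool.Agent.Helper934.PlankDefs
open H780GP (V Lf GG mu phi)

namespace Pool.Agent.H508R2.PL

lemma SP1_Lf {n d : ℕ} (l : Fin d → ((Fin n → ℝ) →ₗ[ℝ] ℝ)) (ε : ℝ) (k : Fin d) (t : ℝ) (w : V n d) :
    Lf l ε k (t • w) = t * Lf l ε k w := by
  unfold H780GP.Lf
  rw [Prod.smul_fst, Prod.smul_snd, map_smul, Pi.smul_apply, smul_eq_mul, smul_eq_mul]
  ring

theorem t_SP1 (hJJ : S_JJ) (hGEXP : S_GEXP) (hNZ : H780GP.S_NZ) (hGP : H780GP.S_GP) : S_SP1 := by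
  intro n d l ε hε b hb e he
  by_contra hcon
  push Not at hcon
  set B : ℝ := ∑ k, b k with hB
  have hB0 : 0 ≤ B := Finset.sum_nonneg fun k _ => (hb k).le
  set N2 : V n d → ℝ := fun w => ∑ i, w.1 i ^ 2 + ∑ k, w.2 k ^ 2 with hN2
  set η : ℝ := (B + e / 4) / (B + e / 2) with hη
  have hden : 0 < B + e / 2 := by linarith
  have hη0 : 0 ≤ η := by rw [hη]; positivity
  have hη1 : η < 1 := by
    rw [hη, div_lt_one hden]; linarith
  have hηd : η * (B + e / 2) = B + e / 4 := by
    rw [hη]; field_simp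
  set C : ℝ := ∫ w, Real.exp (η / 2 * N2 w) ∂(mu n d) with hC
  have hint := hGEXP n d η hη0 hη1
  -- the key bound
  have key : ∀ M : ℕ, 1 ≤ M → Real.exp (M * (e / 4)) ≤ C := by
    intro M hM
    have hM0 : (0 : ℝ) < M := by exact_mod_cast hM
    have h1 := hJJ n d l ε hε (fun k => (M : ℝ) * b k) (fun k => mul_pos hM0 (hb k))
    have h2 : ∫ w, Real.exp (-(1 / 2) * ∑ k, GG l ε k k * ((M : ℝ) * b k / Lf l ε k w) ^ 2) ∂(mu n d) ≤
        ∫ w, Real.exp (-(M * (B + e / 4))) * Real.exp (η / 2 * N2 w) ∂(mu n d) := by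
      apply integral_mono_of_nonneg
      · exact Filter.Eventually.of_forall fun w => (Real.exp_pos _).le
      · exact hint.const_mul _
      · filter_upwards [hNZ n d l ε hε] with w hw
        set S : ℝ := ∑ k, GG l ε k k * ((M : ℝ) * b k / Lf l ε k w) ^ 2 with hS
        have hS0 : 0 ≤ S := Finset.sum_nonneg fun k _ =>
          mul_nonneg (hGP n d l ε hε k).le (sq_nonneg _)
        have hsq : (Real.sqrt M) ^ 2 = M := Real.sq_sqrt hM0.le
        have hs0 : 0 < Real.sqrt M := Real.sqrt_pos.2 hM0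
        have h3 := hcon ((Real.sqrt M)⁻¹ • w) (fun k => by
          rw [SP1_Lf]
          exact mul_ne_zero (inv_ne_zero hs0.ne') (hw k))
        have e1 : ∑ i, ((Real.sqrt M)⁻¹ • w).1 i ^ 2 + ∑ k, ((Real.sqrt M)⁻¹ • w).2 k ^ 2 =
            N2 w / M := by
          have e2 : ∀ x : ℝ, ((Real.sqrt M)⁻¹ * x) ^ 2 = x ^ 2 / M := by
            intro x
            rw [mul_pow, inv_pow, hsq]
            ring
          simp only [Prod.smul_fst, Prod.smul_snd, Pi.smul_apply, smul_eq_mul, e2, hN2,
            ← Finset.sum_div]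
          ring
        have e3 : ∑ k, GG l ε k k * (b k / Lf l ε k ((Real.sqrt M)⁻¹ • w)) ^ 2 = S / M := by
          rw [hS, Finset.sum_div]
          apply Finset.sum_congr rfl
          intro k _
          rw [SP1_Lf]
          have hwk := hw k
          have e4 : b k / ((Real.sqrt M)⁻¹ * Lf l ε k w) = Real.sqrt M * (b k / Lf l ε k w) := by
            field_simp
          rw [e4, mul_pow, hsq]
          field_simp
        rw [e1, e3] at h3
        have h4 : M * (2 * B + e) - N2 w < S := by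
          have h5 : 2 * B + e < (N2 w + S) / M := by
            rw [add_div]; exact h3
          rw [lt_div_iff₀ hM0] at h5
          linarith
        show Real.exp (-(1 / 2) * S) ≤ Real.exp (-(M * (B + e / 4))) * Real.exp (η / 2 * N2 w)
        rw [← Real.exp_add]
        apply Real.exp_le_exp.2
        have h6 : η * (M * (2 * B + e) - N2 w) ≤ η * S := mul_le_mul_of_nonneg_left h4.le hη0
        have h7 : η * S ≤ 1 * S := mul_le_mul_of_nonneg_right hη1.le hS0
        have h8 : η * (M * (2 * B + e)) = 2 * M * (B + e / 4) := by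
          rw [← hηd]; ring
        nlinarith [h6, h7, h8]
    rw [integral_const_mul] at h2
    have h9 : Real.exp (-∑ k, (M : ℝ) * b k) = Real.exp (-(M * B)) := by
      rw [hB, Finset.mul_sum]
    have h10 : Real.exp (-(M * B)) ≤ Real.exp (-(M * (B + e / 4))) * C := by
      rw [← h9]
      exact h1.trans h2
    have h11 : Real.exp (M * (e / 4)) = Real.exp (-(M * B)) * Real.exp (M * (B + e / 4)) := by
      rw [← Real.exp_add]; congr 1; ring
    rw [h11]
    calc Real.exp (-(M * B)) * Real.exp (M * (B + e / 4))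
        ≤ (Real.exp (-(M * (B + e / 4))) * C) * Real.exp (M * (B + e / 4)) :=
          mul_le_mul_of_nonneg_right h10 (Real.exp_pos _).le
      _ = C * (Real.exp (-(M * (B + e / 4))) * Real.exp (M * (B + e / 4))) := by ring
      _ = C := by rw [← Real.exp_add, neg_add_cancel, Real.exp_zero, mul_one]
  obtain ⟨M, hM⟩ := exists_nat_gt (4 * |C| / e)
  have h12 := key (M + 1) (by omega)
  have h13 := Real.add_one_le_exp (((M + 1 : ℕ) : ℝ) * (e / 4))
  rw [div_lt_iff₀ he] at hM
  have h14 := le_abs_self C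
  push_cast at h12 h13
  nlinarith

end Pool.Agent.H508R2.PL
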