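import Pool.Agent.H508R2.PL.Stm2

open MeasureTheory Metric Set Filter Topology
open Pool.Agent.Helper934.PlankDefs

namespace Pool.Agent.H508R2.PL

namespace SQRTaux

/-- the linear form `(x₀, x) ↦ ⟨x, θ⟩ - M x₀` -/
noncomputable def lf {d : ℕ} (θ : E d) (M : ℝ) : (Fin (d + 1) → ℝ) →ₗ[ℝ] ℝ :=
  ∑ j : Fin d, (θ j) • LinearMap.proj (R := ℝ) (φ := fun _ : Fin (d + 1) => ℝ) j.succ -
    M • LinearMap.proj (R := ℝ) (φ := fun _ : Fin (d + 1) => ℝ) 0

lemma lf_apply {d : ℕ} (θ : E d) (M : ℝ) (y : Fin (d + 1) → ℝ) :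
    lf θ M y = ∑ j : Fin d, θ j * y j.succ - M * y 0 := by
  simp [lf]

lemma lf_sq {d : ℕ} (θ : E d) (M : ℝ) (hθ : ‖θ‖ = 1) :
    ∑ i, (lf θ M (Pi.single i 1)) ^ 2 = 1 + M ^ 2 := by
  rw [Fin.sum_univ_succ]
  have h0 : lf θ M (Pi.single 0 1) = -M := by
    rw [lf_apply]
    simp
  have h1 : ∀ j : Fin d, lf θ M (Pi.single j.succ 1) = θ j := by
    intro j
    rw [lf_apply]
    rw [Finset.sum_eq_single j]
    · simp
    · intro i _ hij
      have : (Pi.single j.succ (1 : ℝ) : Fin (d + 1) → ℝ) i.succ = 0 := by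
        rw [Pi.single_eq_of_ne]
        intro h; exact hij (Fin.succ_injective _ h)
      rw [this, mul_zero]
    · intro h; exact absurd (Finset.mem_univ j) h
  simp_rw [h1, h0]
  have h2 : ∑ j : Fin d, θ j ^ 2 = 1 := by
    have := EuclideanSpace.norm_sq_eq θ
    rw [hθ] at this
    simpa using this.symm
  rw [h2]; ring

lemma core (hSP : S_SP) {d m : ℕ} (hm : 0 < m) (θ : Fin m → E d) (hθ : ∀ i, ‖θ i‖ = 1)
    (M t : Fin m → ℝ) (ht : ∀ i, 0 < t i) (B : ℝ) (hB : 0 < B) (hB2 : B < Real.sqrt 2 - 1) :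
    ∃ x : E d, ‖x‖ ≤ 1 ∧ (∀ i, inner ℝ x (θ i) - M i ≠ 0) ∧
      ∑ i, (t i / (inner ℝ x (θ i) - M i)) ^ 2 ≤ ((∑ i, t i) / B) ^ 2 := by
  have : Nonempty (Fin m) := ⟨⟨0, hm⟩⟩
  set T := ∑ i, t i with hT
  have hT0 : 0 < T := Finset.sum_pos (fun i _ => ht i) Finset.univ_nonempty
  have h2 : Real.sqrt 2 ^ 2 = 2 := Real.sq_sqrt (by norm_num)
  have h20 : 0 ≤ Real.sqrt 2 := Real.sqrt_nonneg 2
  set e : ℝ := 2 * (Real.sqrt 2 - 1 - B) with he
  have he0 : 0 < e := by rw [he]; linarith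
  obtain ⟨y, hy0, hy⟩ := hSP (d + 1) (m + 1)
    (Fin.cons (LinearMap.proj (R := ℝ) (φ := fun _ : Fin (d + 1) => ℝ) 0) (fun i => lf (θ i) (M i)))
    (by
      intro k
      refine Fin.cases ?_ (fun i => ?_) k
      · rw [Fin.cons_zero]
        intro h
        have := congrArg (fun f : (Fin (d + 1) → ℝ) →ₗ[ℝ] ℝ => f (Pi.single 0 1)) h
        simp at this
      · rw [Fin.cons_succ]
        intro h
        have h1 := lf_sq (θ i) (M i) (hθ i)
        rw [h] at h1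
        simp at h1
        nlinarith [sq_nonneg (M i)])
    (Fin.cons 1 (fun i => B * t i / T))
    (by
      intro k
      refine Fin.cases ?_ (fun i => ?_) k
      · simp
      · rw [Fin.cons_succ]
        have := ht i
        positivity)
    e he0
  have hx0 : y 0 ≠ 0 := by
    have := hy0 0
    simpa using this
  have hli : ∀ i, lf (θ i) (M i) (fun j => y j) ≠ 0 := by
    intro i
    have := hy0 i.succ
    simpa using this
  rw [Fin.sum_univ_succ (f := fun k : Fin (m + 1) => (∑ i, ((Fin.cons (α := fun _ =>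
    (Fin (d + 1) → ℝ) →ₗ[ℝ] ℝ) (LinearMap.proj (R := ℝ) (φ := fun _ : Fin (d + 1) => ℝ) 0)
    (fun i => lf (θ i) (M i)) : Fin (m + 1) → ((Fin (d + 1) → ℝ) →ₗ[ℝ] ℝ)) k (Pi.single i 1)) ^ 2) *
      ((Fin.cons (α := fun _ => ℝ) 1 (fun i => B * t i / T) : Fin (m + 1) → ℝ) k /
        (Fin.cons (α := fun _ => (Fin (d + 1) → ℝ) →ₗ[ℝ] ℝ)
        (LinearMap.proj (R := ℝ) (φ := fun _ : Fin (d + 1) => ℝ) 0)
        (fun i => lf (θ i) (M i)) : Fin (m + 1) → ((Fin (d + 1) → ℝ) →ₗ[ℝ] ℝ)) k y) ^ 2)] at hy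
  rw [Fin.sum_univ_succ (f := fun k : Fin (m + 1) => (Fin.cons (α := fun _ => ℝ) 1
    (fun i => B * t i / T) : Fin (m + 1) → ℝ) k)] at hy
  simp only [Fin.cons_zero, Fin.cons_succ] at hy
  have e1 : ∑ i : Fin (d + 1), ((LinearMap.proj (R := ℝ) (φ := fun _ : Fin (d + 1) => ℝ) 0)
      (Pi.single i (1 : ℝ))) ^ 2 = 1 := by
    rw [Finset.sum_eq_single 0]
    · simp
    · intro i _ hi
      have : (Pi.single i (1 : ℝ) : Fin (d + 1) → ℝ) 0 = 0 := by
        rw [Pi.single_eq_of_ne]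
        exact fun h => hi h.symm
      show ((Pi.single i (1 : ℝ) : Fin (d + 1) → ℝ) 0) ^ 2 = 0
      rw [this]; norm_num
    · intro h; exact absurd (Finset.mem_univ _) h
  have e2 : ∑ i, B * t i / T = B := by
    rw [← Finset.sum_div, ← Finset.mul_sum, ← hT]
    field_simp
  rw [e1, e2, Fin.sum_univ_succ (f := fun i => y i ^ 2)] at hy
  have e3 : ∀ i, (∑ j, (lf (θ i) (M i) (Pi.single j 1)) ^ 2) = 1 + (M i) ^ 2 := fun i =>
    lf_sq (θ i) (M i) (hθ i)
  simp only [e3] at hy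
  set u : ℝ := y 0 ^ 2 with hu
  have hu0 : 0 < u := by positivity
  set x : E d := WithLp.toLp 2 (fun j => y j.succ / y 0) with hx
  have hxj : ∀ j, x j = y j.succ / y 0 := fun j => rfl
  have hr : ∀ i, inner ℝ x (θ i) - M i = lf (θ i) (M i) y / y 0 := by
    intro i
    rw [lf_apply, PiLp.inner_apply]
    have : ∀ j, inner ℝ (x j) (θ i j) = (θ i j * y j.succ) / y 0 := by
      intro j
      rw [hxj]
      simp only [RCLike.inner_apply, conj_trivial]
      ring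
    rw [Finset.sum_congr rfl fun j _ => this j, ← Finset.sum_div]
    field_simp
  have hr0 : ∀ i, inner ℝ x (θ i) - M i ≠ 0 := by
    intro i
    rw [hr]
    exact div_ne_zero (hli i) hx0
  have hnx : ∑ j : Fin d, y j.succ ^ 2 = u * ‖x‖ ^ 2 := by
    rw [EuclideanSpace.norm_sq_eq, Finset.mul_sum]
    refine Finset.sum_congr rfl fun j _ => ?_
    rw [hxj, hu, Real.norm_eq_abs, sq_abs]
    field_simp
  set A : ℝ := ∑ i, (B * t i / T / (inner ℝ x (θ i) - M i)) ^ 2 with hA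
  have hA0 : 0 ≤ A := Finset.sum_nonneg fun i _ => sq_nonneg _
  have e4 : A / u ≤ ∑ i, (1 + (M i) ^ 2) * (B * t i / T / lf (θ i) (M i) y) ^ 2 := by
    rw [hA, Finset.sum_div]
    refine Finset.sum_le_sum fun i _ => ?_
    have h3 : (B * t i / T / (inner ℝ x (θ i) - M i)) ^ 2 / u =
        (B * t i / T / lf (θ i) (M i) y) ^ 2 := by
      rw [hr, hu]
      have := hli i
      field_simp
    rw [h3]
    have h4 := sq_nonneg (B * t i / T / lf (θ i) (M i) y)
    nlinarith [sq_nonneg (M i), mul_nonneg (sq_nonneg (M i)) h4]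
  have e5 : (1 / (y 0)) ^ 2 = 1 / u := by rw [hu]; field_simp
  have hmain : u + u * ‖x‖ ^ 2 + 1 / u + A / u ≤ 2 * (1 + B) + e := by
    have e6 : 1 * (1 / (LinearMap.proj (R := ℝ) (φ := fun _ : Fin (d + 1) => ℝ) 0) y) ^ 2 =
        1 / u := by
      rw [one_mul]; exact e5
    rw [e6, hnx] at hy
    linarith
  have he2 : 2 * (1 + B) + e = 2 * Real.sqrt 2 := by rw [he]; ring
  rw [he2] at hmain
  have hmain2 : u ^ 2 + u ^ 2 * ‖x‖ ^ 2 + 1 + A ≤ 2 * Real.sqrt 2 * u := by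
    have := mul_le_mul_of_nonneg_right hmain hu0.le
    have e7 : (u + u * ‖x‖ ^ 2 + 1 / u + A / u) * u = u ^ 2 + u ^ 2 * ‖x‖ ^ 2 + 1 + A := by
      field_simp
    rwa [e7] at this
  refine ⟨x, ?_, hr0, ?_⟩
  · by_contra hcon
    push Not at hcon
    have h3 : 1 < ‖x‖ ^ 2 := by nlinarith
    have h4 : u ^ 2 < u ^ 2 * ‖x‖ ^ 2 := by
      have : 0 < u ^ 2 := by positivity
      nlinarith
    nlinarith [sq_nonneg (Real.sqrt 2 * u - 1)]
  · have hA1 : A ≤ 1 := by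
      have : 0 ≤ u ^ 2 * ‖x‖ ^ 2 := by positivity
      nlinarith [sq_nonneg (u - Real.sqrt 2)]
    have h3 : ∑ i, (t i / (inner ℝ x (θ i) - M i)) ^ 2 = (T / B) ^ 2 * A := by
      rw [hA, Finset.mul_sum]
      refine Finset.sum_congr rfl fun i _ => ?_
      have := hr0 i
      field_simp
    rw [h3]
    have : 0 ≤ (T / B) ^ 2 := sq_nonneg _
    nlinarith

lemma count (hSP : S_SP) {d m : ℕ} (c : E d) (ρ : ℝ) (hρ : 0 < ρ) (k : ℕ) (hk : 1 ≤ k)
    (θ : Fin m → E d) (a b : Fin m → ℝ) (h : IsFoldCover (closedBall c ρ) k θ a b)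
    (B : ℝ) (hB : 0 < B) (hB2 : B < Real.sqrt 2 - 1) (e : ℝ) (he : 0 < e) :
    2 * B * ρ * Real.sqrt k ≤ ∑ i, (b i - a i) + 2 * m * e := by
  classical
  obtain ⟨hθ, hab, hcov⟩ := h
  have hm : 0 < m := by
    rcases Nat.eq_zero_or_pos m with h0 | h0
    · subst h0
      have := hcov c (mem_closedBall_self hρ.le)
      simp at this
      omega
    · exact h0
  set t : Fin m → ℝ := fun i => ((b i - a i) / 2 + e) / ρ with ht
  have ht0 : ∀ i, 0 < t i := by
    intro i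
    have := hab i
    have : 0 < (b i - a i) / 2 + e := by linarith
    positivity
  obtain ⟨x, hx, hx0, hxs⟩ := core hSP hm θ hθ (fun i => ((a i + b i) / 2 - inner ℝ c (θ i)) / ρ)
    t ht0 B hB hB2
  have hp : c + ρ • x ∈ closedBall c ρ := by
    rw [mem_closedBall, dist_eq_norm, add_sub_cancel_left, norm_smul, Real.norm_of_nonneg hρ.le]
    nlinarith
  have hk2 := hcov _ hp
  rw [Nat.card_eq_fintype_card, Fintype.card_subtype] at hk2
  set F := Finset.univ.filter fun i => c + ρ • x ∈ plank (θ i) (a i) (b i) with hF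
  have h1 : (F.card : ℝ) ≤ ∑ i, (t i / (inner ℝ x (θ i) -
      ((a i + b i) / 2 - inner ℝ c (θ i)) / ρ)) ^ 2 := by
    rw [Finset.card_eq_sum_ones]
    push_cast
    refine (Finset.sum_le_sum fun i hi => ?_).trans
      (Finset.sum_le_sum_of_subset_of_nonneg (Finset.subset_univ F) fun i _ _ => sq_nonneg _)
    rw [hF, Finset.mem_filter] at hi
    obtain ⟨h2, h3⟩ := hi.2
    rw [inner_add_left, real_inner_smul_left] at h2 h3
    set r := inner ℝ x (θ i) - ((a i + b i) / 2 - inner ℝ c (θ i)) / ρ with hr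
    have hr0 : r ≠ 0 := hx0 i
    have h4 : ρ * r = inner ℝ c (θ i) + ρ * inner ℝ x (θ i) - (a i + b i) / 2 := by
      rw [hr]; field_simp; ring
    have h5 : |r| ≤ t i := by
      have h6 : |ρ * r| ≤ (b i - a i) / 2 := by
        rw [h4, abs_le]; constructor <;> linarith
      rw [abs_mul, abs_of_pos hρ] at h6
      show |r| ≤ ((b i - a i) / 2 + e) / ρ
      rw [le_div_iff₀ hρ]
      linarith
    have h7 : 0 < |r| := abs_pos.mpr hr0
    have h8 : (t i / r) ^ 2 = (t i / |r|) ^ 2 := by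
      rw [div_pow (t i) r, div_pow (t i) |r|, sq_abs]
    rw [h8]
    have h9 : 1 ≤ t i / |r| := by rw [le_div_iff₀ h7, one_mul]; exact h5
    nlinarith
  have hT : ∑ i, t i = (∑ i, (b i - a i) + 2 * m * e) / (2 * ρ) := by
    simp only [ht]
    rw [← Finset.sum_div, Finset.sum_add_distrib, ← Finset.sum_div]
    simp
    field_simp
  have h10 : (k : ℝ) ≤ ((∑ i, t i) / B) ^ 2 := by
    have : (k : ℝ) ≤ F.card := by exact_mod_cast hk2
    exact this.trans (h1.trans hxs)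
  have h11 : 0 ≤ (∑ i, t i) / B := div_nonneg (Finset.sum_nonneg fun i _ => (ht0 i).le) hB.le
  have h12 : Real.sqrt k ≤ (∑ i, t i) / B := by
    rw [← Real.sqrt_sq h11]
    exact Real.sqrt_le_sqrt h10
  rw [le_div_iff₀ hB, hT, le_div_iff₀ (by positivity)] at h12
  linarith

end SQRTaux

open SQRTaux in
theorem t_SQRT (hSP : S_SP) : S_SQRT := by
  intro d m c ρ k θ a b hd hρ h
  have hs0 : 0 ≤ ∑ i, (b i - a i) := Finset.sum_nonneg fun i _ => sub_nonneg.mpr (h.2.1 i)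
  rcases Nat.eq_zero_or_pos k with hk | hk
  · subst hk; simpa using hs0
  have hroot : 1 < Real.sqrt 2 := by
    rw [Real.lt_sqrt (by norm_num)]; norm_num
  have h1 : ∀ B : ℝ, 0 < B → B < Real.sqrt 2 - 1 → 2 * B * ρ * Real.sqrt k ≤
      ∑ i, (b i - a i) := by
    intro B hB hB2
    refine le_of_forall_pos_le_add fun ε hε => ?_
    have h2 := count hSP c ρ hρ k hk θ a b h B hB hB2 (ε / (2 * m + 1)) (by positivity)
    refine h2.trans ?_
    have h3 : 2 * (m : ℝ) * (ε / (2 * m + 1)) ≤ ε := by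
      rw [← mul_div_assoc, div_le_iff₀ (by positivity)]
      nlinarith
    linarith
  set Q := 2 * (Real.sqrt 2 - 1) * ρ * Real.sqrt k with hQ
  have hQ0 : 0 ≤ Q := by
    have : 0 ≤ Real.sqrt 2 - 1 := by linarith
    positivity
  refine le_of_forall_pos_le_add fun ε hε => ?_
  set η : ℝ := min (1 / 2) (ε / (Q + 1)) with hη
  have hη0 : 0 < η := by positivity
  have hη1 : η ≤ 1 / 2 := min_le_left _ _
  have hη2 : η * (Q + 1) ≤ ε := by
    have : η ≤ ε / (Q + 1) := min_le_right _ _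
    rwa [le_div_iff₀ (by positivity)] at this
  have hs : 0 < Real.sqrt 2 - 1 := by linarith
  have h2 := h1 ((Real.sqrt 2 - 1) * (1 - η)) (by nlinarith) (by nlinarith)
  have h3 : 2 * ((Real.sqrt 2 - 1) * (1 - η)) * ρ * Real.sqrt k = Q - η * Q := by
    rw [hQ]; ring
  rw [h3] at h2
  nlinarith


end Pool.Agent.H508R2.PL
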