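import Pool.Agent.H508R2.PL.Stm

/-! STRIP: measure of a strip in the unit square. -/

open MeasureTheory Metric Set Filter Topology

namespace Pool.Agent.H508R2.PL

lemma strip_len (a L p : ℝ) (ha : a ≠ 0) :
    volume {x : ℝ | L ≤ x * a ∧ x * a ≤ L + 2 * p} ≤ ENNReal.ofReal (2 * p / |a|) := by
  rcases lt_or_gt_of_ne ha with h | h
  · have hsub : {x : ℝ | L ≤ x * a ∧ x * a ≤ L + 2 * p} ⊆ Icc ((L + 2 * p) / a) (L / a) := by
      rintro x ⟨h1, h2⟩
      refine ⟨?_, ?_⟩
      · rw [div_le_iff_of_neg h]; exact h2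
      · rw [le_div_iff_of_neg h]; exact h1
    refine le_trans (measure_mono hsub) ?_
    rw [Real.volume_Icc, abs_of_neg h]
    apply ENNReal.ofReal_le_ofReal
    apply le_of_eq
    field_simp
    ring
  · have hsub : {x : ℝ | L ≤ x * a ∧ x * a ≤ L + 2 * p} ⊆ Icc (L / a) ((L + 2 * p) / a) := by
      rintro x ⟨h1, h2⟩
      refine ⟨?_, ?_⟩
      · rw [div_le_iff₀ h]; exact h1
      · rw [le_div_iff₀ h]; exact h2
    refine le_trans (measure_mono hsub) ?_
    rw [Real.volume_Icc, abs_of_pos h]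
    apply ENNReal.ofReal_le_ofReal
    apply le_of_eq
    field_simp
    ring

lemma strip_lint (f : ℝ → ENNReal) (r : ENNReal) (h : ∀ y ∈ Icc (0 : ℝ) 1, f y ≤ r)
    (h0 : ∀ y, y ∉ Icc (0 : ℝ) 1 → f y = 0) : ∫⁻ y, f y ≤ r := by
  calc ∫⁻ y, f y ≤ ∫⁻ y, (Icc (0 : ℝ) 1).indicator (fun _ => r) y := by
        refine lintegral_mono fun y => ?_
        by_cases hy : y ∈ Icc (0 : ℝ) 1
        · rw [indicator_of_mem hy]; exact h y hy
        · rw [h0 y hy]; exact bot_le
    _ = r := by
        rw [lintegral_indicator_const measurableSet_Icc, Real.volume_Icc]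
        simp

theorem t_STRIP : S_STRIP := by
  intro c a₁ a₂ lo p hp
  set S : Set (ℝ × ℝ) := {q : ℝ × ℝ | q.1 ∈ Icc (0 : ℝ) 1 ∧ q.2 ∈ Icc (0 : ℝ) 1 ∧
      lo ≤ c + (q.1 * a₁ + q.2 * a₂) / 2 ∧ c + (q.1 * a₁ + q.2 * a₂) / 2 ≤ lo + p} with hS
  have hmeas : MeasurableSet S := by
    have c1 : Continuous fun q : ℝ × ℝ => c + (q.1 * a₁ + q.2 * a₂) / 2 := by fun_prop
    have e : S = ((fun q : ℝ × ℝ => q.1) ⁻¹' Icc (0 : ℝ) 1) ∩ (((fun q : ℝ × ℝ => q.2) ⁻¹' Icc (0 : ℝ) 1) ∩
        ((fun q : ℝ × ℝ => c + (q.1 * a₁ + q.2 * a₂) / 2) ⁻¹' Icc lo (lo + p))) := by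
      ext q; simp [hS]
    rw [e]
    exact (isClosed_Icc.preimage continuous_fst).measurableSet.inter
      ((isClosed_Icc.preimage continuous_snd).measurableSet.inter
        (isClosed_Icc.preimage c1).measurableSet)
  unfold g
  split_ifs with hle
  · have hsub : S ⊆ Icc (0 : ℝ) 1 ×ˢ Icc (0 : ℝ) 1 := fun q hq => ⟨hq.1, hq.2.1⟩
    refine le_trans (measure_mono hsub) ?_
    rw [Measure.volume_eq_prod, Measure.prod_prod, Real.volume_Icc]
    simp
  · push Not at hle
    rcases le_total |a₂| |a₁| with h12 | h12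
    · rw [max_eq_left h12] at hle ⊢
      have ha : a₁ ≠ 0 := by
        intro h; rw [h, abs_zero] at hle; linarith
      rw [Measure.volume_eq_prod, Measure.prod_apply_symm hmeas]
      refine strip_lint _ _ (fun y _ => ?_) (fun y hy => ?_)
      · refine le_trans (measure_mono ?_) (strip_len a₁ (2 * (lo - c) - y * a₂) p ha)
        rintro x ⟨-, -, h3, h4⟩
        simp only at h3 h4
        exact ⟨by linarith, by linarith⟩
      · have : (fun x => (x, y)) ⁻¹' S = ∅ := by
          ext x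
          simp only [mem_preimage, mem_empty_iff_false, iff_false]
          intro hx
          exact hy hx.2.1
        rw [this, measure_empty]
    · rw [max_eq_right h12] at hle ⊢
      have ha : a₂ ≠ 0 := by
        intro h; rw [h, abs_zero] at hle; linarith
      rw [Measure.volume_eq_prod, Measure.prod_apply hmeas]
      refine strip_lint _ _ (fun y _ => ?_) (fun y hy => ?_)
      · refine le_trans (measure_mono ?_) (strip_len a₂ (2 * (lo - c) - y * a₁) p ha)
        rintro x ⟨-, -, h3, h4⟩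
        simp only at h3 h4
        exact ⟨by linarith, by linarith⟩
      · have : Prod.mk y ⁻¹' S = ∅ := by
          ext x
          simp only [mem_preimage, mem_empty_iff_false, iff_false]
          intro hx
          exact hy hx.1
        rw [this, measure_empty]

end Pool.Agent.H508R2.PL
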