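import Pool.Agent.H508R2.PL.Stm

open MeasureTheory Metric Set Filter Topology
open Pool.Agent.Helper934.PlankDefs Pool.Agent.Helper934.PlankMain Pool.Agent.Helper934.PlankUpper

namespace Pool.Agent.H508R2.PL

lemma join_cover {d m₁ m₂ k l : ℕ} {K : Set (E d)} {θ₁ : Fin m₁ → E d} {a₁ b₁ : Fin m₁ → ℝ}
    {θ₂ : Fin m₂ → E d} {a₂ b₂ : Fin m₂ → ℝ} (h₁ : IsFoldCover K k θ₁ a₁ b₁)
    (h₂ : IsFoldCover K l θ₂ a₂ b₂) :
    ∃ (m : ℕ) (θ' : Fin m → EuclideanSpace ℝ (Fin d)) (a' b' : Fin m → ℝ),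
      IsFoldCover K (k + l) θ' a' b' ∧
      ∑ i, (b' i - a' i) = ∑ i, (b₁ i - a₁ i) + ∑ i, (b₂ i - a₂ i) := by
  obtain ⟨m, θ', a', b', h, hs⟩ := exists_fin (ι := Fin m₁ ⊕ Fin m₂) K (k + l)
    (Sum.elim θ₁ θ₂) (Sum.elim a₁ a₂) (Sum.elim b₁ b₂)
    (by rintro (i | i); exacts [h₁.1 i, h₂.1 i])
    (by rintro (i | i); exacts [h₁.2.1 i, h₂.2.1 i])
    (by
      intro x hx
      have e : {i : Fin m₁ ⊕ Fin m₂ // x ∈ plank (Sum.elim θ₁ θ₂ i) (Sum.elim a₁ a₂ i)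
          (Sum.elim b₁ b₂ i)} ≃ {i : Fin m₁ // x ∈ plank (θ₁ i) (a₁ i) (b₁ i)} ⊕
          {i : Fin m₂ // x ∈ plank (θ₂ i) (a₂ i) (b₂ i)} := Equiv.subtypeSum
      rw [Nat.card_congr e, Nat.card_sum]
      exact add_le_add (h₁.2.2 x hx) (h₂.2.2 x hx))
  refine ⟨m, θ', a', b', h, ?_⟩
  rw [hs, Fintype.sum_sum_type]
  simp

theorem t_SUB : S_SUB := by
  intro d K k l hd hK
  have hw := minWidth_pos hd hK
  obtain ⟨e, he⟩ := exists_unit hd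
  have hne : ∀ k : ℕ, Set.Nonempty {c : ℝ | ∃ (m : ℕ) (θ : Fin m → EuclideanSpace ℝ (Fin d))
      (a b : Fin m → ℝ), IsFoldCover K k θ a b ∧ c = (∑ i, (b i - a i)) / minWidth K} :=
    fun k => ⟨_, k, _, _, _, trivial_cover hK k e he, rfl⟩
  have h1 : ∀ c₁ ∈ {c : ℝ | ∃ (m : ℕ) (θ : Fin m → EuclideanSpace ℝ (Fin d))
      (a b : Fin m → ℝ), IsFoldCover K k θ a b ∧ c = (∑ i, (b i - a i)) / minWidth K},
      ∀ c₂ ∈ {c : ℝ | ∃ (m : ℕ) (θ : Fin m → EuclideanSpace ℝ (Fin d))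
      (a b : Fin m → ℝ), IsFoldCover K l θ a b ∧ c = (∑ i, (b i - a i)) / minWidth K},
      coverConst K (k + l) ≤ c₁ + c₂ := by
    rintro _ ⟨m₁, θ₁, a₁, b₁, hc₁, rfl⟩ _ ⟨m₂, θ₂, a₂, b₂, hc₂, rfl⟩
    obtain ⟨m, θ', a', b', h, hs⟩ := join_cover hc₁ hc₂
    have := coverConst_le hw.le h
    rwa [hs, add_div] at this
  have h2 : ∀ c₂ ∈ {c : ℝ | ∃ (m : ℕ) (θ : Fin m → EuclideanSpace ℝ (Fin d))
      (a b : Fin m → ℝ), IsFoldCover K l θ a b ∧ c = (∑ i, (b i - a i)) / minWidth K},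
      coverConst K (k + l) - c₂ ≤ coverConst K k := by
    intro c₂ hc₂
    refine le_csInf (hne k) ?_
    intro c₁ hc₁
    have := h1 c₁ hc₁ c₂ hc₂
    linarith
  have h3 : coverConst K (k + l) - coverConst K k ≤ coverConst K l := by
    refine le_csInf (hne l) ?_
    intro c₂ hc₂
    have := h2 c₂ hc₂
    linarith
  linarith

end Pool.Agent.H508R2.PL
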