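import Pool.Agent.H508R2.PL.Stm

/-! UNIF: uniform upper bound for `c_d(k)`. -/

open MeasureTheory Metric Set Filter Topology
open Pool.Agent.Helper934.PlankDefs

namespace Pool.Agent.H508R2.PL

theorem unif_step (hBOX : S_BOX) (hBCOV : S_BCOV) (n d s q k : ℕ) (hn : 1 ≤ n) (hnd : n ≤ d)
    (hs : 1 ≤ s) (hsn : s ≤ n) (hk : k ≤ q * (n + 1 - s)) :
    coverConstDim d k ≤ ((q : ℝ) * n / s) * Real.sqrt n := by
  obtain ⟨hb, hw⟩ := hBOX n d hn hnd
  obtain ⟨θ, a, b, hc, hsum⟩ := hBCOV n d s q hn hnd hs hsn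
  have hd : 1 ≤ d := hn.trans hnd
  have hwp := Pool.Agent.Helper934.PlankMain.minWidth_pos hd hb
  have hc' : IsFoldCover (boxBody n d) k θ a b :=
    ⟨hc.1, hc.2.1, fun x hx => hk.trans (hc.2.2 x hx)⟩
  have h1 := Pool.Agent.Helper934.PlankMain.coverConst_le hwp.le hc'
  have hn0 : (0 : ℝ) < n := by exact_mod_cast hn
  have hsq : 0 < Real.sqrt n := Real.sqrt_pos.2 hn0
  have h2 : (∑ i, (b i - a i)) / minWidth (boxBody n d) ≤ ((q : ℝ) * n / s) * Real.sqrt n := by
    rw [div_le_iff₀ hwp]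
    refine hsum.trans ?_
    have h3 : 1 ≤ Real.sqrt n * minWidth (boxBody n d) := by
      calc (1 : ℝ) = Real.sqrt n * (1 / Real.sqrt n) := by field_simp
        _ ≤ Real.sqrt n * minWidth (boxBody n d) := by gcongr
    have h4 : 0 ≤ (q : ℝ) * n / s := by positivity
    calc (q : ℝ) * n / s = (q : ℝ) * n / s * 1 := by ring
      _ ≤ (q : ℝ) * n / s * (Real.sqrt n * minWidth (boxBody n d)) := by gcongr
      _ = (q : ℝ) * n / s * Real.sqrt n * minWidth (boxBody n d) := by ring
  refine le_trans ?_ (h1.trans h2)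
  unfold coverConstDim
  refine csInf_le ⟨0, ?_⟩ ⟨_, hb, rfl⟩
  rintro _ ⟨K, hK, rfl⟩
  exact Pool.Agent.Helper934.PlankMain.coverConst_nonneg
    (Pool.Agent.Helper934.PlankMain.minWidth_pos hd hK).le k

theorem t_UNIF (hBOX : S_BOX) (hBCOV : S_BCOV) : S_UNIF := by
  intro d k hd hk
  have hk0 : (0 : ℝ) < k := by exact_mod_cast hk
  have hd0 : (0 : ℝ) < d := by exact_mod_cast (by omega : 0 < d)
  by_cases hc : 2 * k ≤ d
  · have h1 := unif_step hBOX hBCOV (2 * k) d k 1 k (by omega) hc hk (by omega) (by omega)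
    refine h1.trans ?_
    refine le_trans ?_ (mul_le_mul_of_nonneg_left (le_max_left _ _) (by norm_num))
    have h2 : ((1 : ℕ) : ℝ) * ((2 * k : ℕ) : ℝ) / (k : ℝ) = 2 := by
      push_cast
      field_simp
    rw [h2]
    have h3 : Real.sqrt ((2 * k : ℕ) : ℝ) ≤ 2 * Real.sqrt k := by
      have h4 : Real.sqrt ((2 * k : ℕ) : ℝ) ≤ Real.sqrt (2 ^ 2 * k) := by
        apply Real.sqrt_le_sqrt
        push_cast
        nlinarith
      rwa [Real.sqrt_mul (by positivity), Real.sqrt_sq (by norm_num)] at h4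
    have h4 := Real.sqrt_nonneg (k : ℝ)
    linarith
  · have hc' : d + 1 ≤ 2 * k := by omega
    set s := (d + 1) / 2 with hs
    set t := d + 1 - s with ht
    have hs1 : 1 ≤ s := by omega
    have hsd : s ≤ d := by omega
    have ht1 : 1 ≤ t := by omega
    have h2t : d + 1 ≤ 2 * t := by omega
    have h2s : d ≤ 2 * s := by omega
    set q := (k + t - 1) / t with hq
    have hqk : k ≤ q * t := by
      have h1 := Nat.div_add_mod (k + t - 1) t
      have h2 := Nat.mod_lt (k + t - 1) (by omega : 0 < t)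
      rw [← hq] at h1
      rw [mul_comm]
      omega
    have hq2 : q * t ≤ k + t - 1 := Nat.div_mul_le_self _ _
    have h1 := unif_step hBOX hBCOV d d s q k (by omega) le_rfl hs1 hsd hqk
    refine h1.trans ?_
    refine le_trans ?_ (mul_le_mul_of_nonneg_left (le_max_right _ _) (by norm_num))
    have hs0 : (0 : ℝ) < s := by exact_mod_cast hs1
    have ht0 : (0 : ℝ) < t := by exact_mod_cast ht1
    have hqt : (q : ℝ) * t ≤ k + t := by
      have : q * t ≤ k + t := by omega
      exact_mod_cast this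
    have h2t' : (d : ℝ) + 1 ≤ 2 * t := by exact_mod_cast h2t
    have h2s' : (d : ℝ) ≤ 2 * s := by exact_mod_cast h2s
    have hck : (d : ℝ) + 1 ≤ 2 * k := by exact_mod_cast hc'
    -- q d ≤ 4 k
    have hqd : (q : ℝ) * d ≤ 4 * k := by
      have e1 : (q : ℝ) * (d + 1) ≤ 2 * (q * t) := by
        have : (q : ℝ) * (d + 1) ≤ q * (2 * t) := by gcongr
        linarith
      -- q ≤ k / t + 1
      have e2 : (q : ℝ) ≤ k / t + 1 := by
        have : (q : ℝ) ≤ (k + t) / t := (le_div_iff₀ ht0).2 hqt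
        rwa [add_div, div_self ht0.ne'] at this
      have e3 : (k : ℝ) / t ≤ 2 * k / (d + 1) := by
        rw [div_le_div_iff₀ ht0 (by positivity)]
        nlinarith
      have e4 : (1 : ℝ) ≤ 2 * k / (d + 1) := by
        rw [le_div_iff₀ (by positivity)]
        linarith
      have e5 : (q : ℝ) ≤ 4 * k / (d + 1) := by
        have : 4 * (k : ℝ) / (d + 1) = 2 * k / (d + 1) + 2 * k / (d + 1) := by ring
        linarith
      have e6 := (le_div_iff₀ (by positivity : (0 : ℝ) < d + 1)).1 e5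
      have e7 : (0 : ℝ) ≤ q := by positivity
      nlinarith
    have hsq : 0 < Real.sqrt d := Real.sqrt_pos.2 hd0
    have hds : (d : ℝ) / s ≤ 2 := by
      rw [div_le_iff₀ hs0]
      linarith
    have hqq : (q : ℝ) ≤ 4 * k / d := (le_div_iff₀ hd0).2 hqd
    calc (q : ℝ) * d / s * Real.sqrt d = q * (d / s) * Real.sqrt d := by ring
      _ ≤ (4 * k / d) * 2 * Real.sqrt d := by gcongr
      _ = 8 * (k * (Real.sqrt d / d)) := by ring
      _ = 8 * (k / Real.sqrt d) := by
        have : Real.sqrt d / d = 1 / Real.sqrt d := by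
          rw [div_eq_div_iff hd0.ne' hsq.ne', one_mul, Real.mul_self_sqrt hd0.le]
        rw [this]
        ring

end Pool.Agent.H508R2.PL
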