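import Pool.Agent.H508R2.PL.Stm

/-! VGAM (helper267): the constant in terms of the Gamma function. -/

open MeasureTheory Metric Set Filter Topology

namespace Pool.Agent.H508R2.PL

theorem VGAM_kap (m : ℕ) (hm : 1 ≤ m) :
    kap m = Real.sqrt Real.pi ^ m / Real.Gamma ((m : ℝ) / 2 + 1) := by
  unfold kap
  have : Nonempty (Fin m) := ⟨⟨0, hm⟩⟩
  rw [EuclideanSpace.volume_closedBall, Fintype.card_fin, ENNReal.ofReal_one, one_pow, one_mul,
    ENNReal.toReal_ofReal]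
  have : 0 < Real.Gamma ((m : ℝ) / 2 + 1) := Real.Gamma_pos_of_pos (by positivity)
  positivity

theorem t_VGAM : S_VGAM := by
  intro d hd
  obtain ⟨m, rfl⟩ : ∃ m, d = m + 1 := ⟨d - 1, by omega⟩
  have hm : 1 ≤ m := by omega
  have hm' : (1 : ℝ) ≤ m := by exact_mod_cast hm
  have hm0 : (m : ℝ) ≠ 0 := by positivity
  unfold vd
  rw [Nat.add_sub_cancel, VGAM_kap (m + 1) (by omega), VGAM_kap m hm]
  push_cast
  rw [add_sub_cancel_right]
  have h1 : Real.Gamma (((m : ℝ) + 1) / 2 + 1) = ((m : ℝ) + 1) / 2 * Real.Gamma (((m : ℝ) + 1) / 2) :=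
    Real.Gamma_add_one (by positivity)
  have h2 : Real.Gamma ((m : ℝ) / 2 + 1) = (m : ℝ) / 2 * Real.Gamma ((m : ℝ) / 2) :=
    Real.Gamma_add_one (by positivity)
  have h3 : 0 < Real.Gamma (((m : ℝ) + 1) / 2) := Real.Gamma_pos_of_pos (by positivity)
  have h4 : 0 < Real.Gamma ((m : ℝ) / 2) := Real.Gamma_pos_of_pos (by positivity)
  have h5 : 0 < Real.sqrt Real.pi := Real.sqrt_pos.2 Real.pi_pos
  rw [h1, h2, pow_succ]
  have h6 : Real.sqrt Real.pi ^ m ≠ 0 := by positivity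
  have h7 : (m : ℝ) + 1 ≠ 0 := by positivity
  field_simp

end Pool.Agent.H508R2.PL
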